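import Pool.Agent.D0H43.Q4.Defs1

/-!
# Project Q4, block D: statements of the modules on the values
-/

set_option autoImplicit false

open Filter Complex
open scoped Topology PeriodPair

namespace Pool.Agent.D0H43.Q4

open H385 (ZI RQ im1 nrm)
open Pool.Agent.H304R3.HK (tc HC LH)
open Pool.Agent.Y699
open Pool.Agent.H304R2.EC.A1 (prim)
open Pool.Agent.D0H10.Q4 (NL pf dq)

/-- D1-HEC: the Hecke character and its central value -/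
def S_HEC1 : Prop := ∀ (σ : ℕ), σ % 2 = 1 →
  ∀ (ι : Type) [DecidableEq ι] (pr : ι → ZI), PF pr → ∀ (V : Finset ι) (e : ι → ℕ),
  (∀ i ∈ V, e i % 4 ≠ 0) → ∃ X : ZI →* ℂ, HC (8 * DD pr V) X ∧
    (∀ a, prim a → X a = (starRingEnd ℂ) (tc (wi σ a * c4 pr V e a))) ∧
    ∀ l : ℂ, Tendsto (RS (cci σ pr V e)) (𝓝[>] 0) (𝓝 l) → LH X (1 / 2) = (starRingEnd ℂ) l

/-- D1-LIM: the limits of the regularised sums -/
def S_LIM1 : Prop := ∀ (σ : ℕ), σ % 2 = 1 → ∀ (L : PeriodPair) (Ω s : ℂ), NL L Ω s →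
  ∀ (ι : Type) [DecidableEq ι] (pr : ι → ZI), PF pr → ∀ (V : Finset ι) (e : ι → ℕ),
  Tendsto (RS (cci σ pr V e)) (𝓝[>] 0) (𝓝 (lvi σ L Ω pr V e))

/-- D1-EUL: removing an Euler factor -/
def S_EUL1 : Prop := ∀ (σ : ℕ), ∀ (ι : Type) [DecidableEq ι] (pr : ι → ZI), PF pr →
  ∀ (V : Finset ι) (e : ι → ℕ) (k : ι), k ∈ V → e k % 4 = 0 → ∀ l : ℂ,
  Tendsto (RS (cci σ pr (V.erase k) e)) (𝓝[>] 0) (𝓝 l) →
  Tendsto (RS (cci σ pr V e)) (𝓝[>] 0)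
    (𝓝 ((1 - tc (wi σ (pr k) * c4 pr (V.erase k) e (pr k)) / tc (pr k)) * l))

/-- D1-GID: the algebraic identity for `G` (checked numerically) -/
def S_GID1 : Prop := ∀ (σ : ℕ), σ % 2 = 1 → ∀ (L : PeriodPair) (Ω s : ℂ), NL L Ω s →
  GI σ L Ω 0 ^ 2 = 8 * s * (1 - I ^ σ) ∧
  ∀ z : ℂ, OT L z → GI σ L Ω z ^ 2 * (℘'[L] (2 * z) - 2 * ℘[L] (2 * z) - 2) ^ 2 =
    4 * GI σ L Ω 0 ^ 2 * (℘[L] (2 * z) + I ^ σ) ^ 2 * (℘[L] (2 * z) + 1)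

/-- D1-VAL: valuations of the values at points of odd order -/
def S_VAL1 : Prop := ∀ (σ : ℕ), σ % 2 = 1 → ∀ (L : PeriodPair) (Ω s : ℂ), NL L Ω s →
  ∀ (Γ : Type) [LinearOrderedCommGroupWithZero Γ] (v : Valuation ℂ Γ), v 2 < 1 →
    ∀ z, OT L z → v (gi σ L Ω z) ^ 4 * v (1 + I) = 1 ∧ v (gi σ L Ω z + gi σ L Ω (-z)) < 1

/-- D1-RHS: the sums of the values are not units -/
def S_RHS1 : Prop := ∀ (σ : ℕ), σ % 2 = 1 → ∀ (L : PeriodPair) (Ω s : ℂ), NL L Ω s →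
  ∀ (Γ : Type) [LinearOrderedCommGroupWithZero Γ] (v : Valuation ℂ Γ), v 2 < 1 →
  ∀ (ι : Type) [DecidableEq ι] (pr : ι → ZI), PF pr → ∀ (V : Finset ι) (e : ι → ℕ), V.Nonempty →
  (∀ i ∈ V, e i % 2 = 1) →
  v (∑ᶠ q : RQ (DD pr V), (∏ j ∈ V, pf (pr j) (e j) (8 * q.out)) *
    gi σ L Ω (zq Ω (DD pr V) q.out)) < 1

/-- D1-BET: the main theorem on the values -/
def S_BET1 : Prop := ∀ (σ : ℕ), σ % 2 = 1 → ∀ (L : PeriodPair) (Ω s : ℂ), NL L Ω s →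
  ∀ (Γ : Type) [LinearOrderedCommGroupWithZero Γ] (v : Valuation ℂ Γ), v 2 < 1 →
  ∀ (ι : Type) [DecidableEq ι] (pr : ι → ZI), PF pr → ∀ (V : Finset ι) (e : ι → ℕ),
  (∀ i ∈ V, e i % 2 = 1) →
  Cg v (lvi σ L Ω pr V e / ((1 + I) ^ V.card * lvi σ L Ω pr ∅ e)) (uu (dq pr V))

end Pool.Agent.D0H43.Q4
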