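import Pool.Agent.D0H43.Q4.Stm1
import Pool.Agent.D0H10.Q4.StmB

/-!
# Project Q4, block D: statements of the modules over `K = ℚ(i)`: the curve `y² = x³ + i ^ σ Δ x`, `σ` odd,
# `Δ` squarefree and primary.
-/

set_option autoImplicit false

open NumberField IsDedekindDomain Filter Complex
open scoped Topology PeriodPair

namespace Pool.Agent.D0H43.Q4

open H385 (ZI RQ im1 nrm)
open Pool.Agent.H304R3.HK (tc HC LH)
open Pool.Agent.Y699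
open Pool.Agent.H304R2.EC.A1 (prim)
open Pool.Agent.D0H10.Q4 (dD)

/-- the curve `y² = x³ + i ^ σ Δ x` over `K` -/
noncomputable def cI {K : Type} [Field K] [NumberField K] (e : ZI ≃+* 𝓞 K) (σ : ℕ) (Δ : ZI) :
    WeierstrassCurve K := Pool.Agent.Y715.Z.q4 (Pool.Agent.Y715.Z.em0 e (im1 ^ σ * Δ))

/-- the exponent of the weight: `(- i ^ σ Δ / a)_4 = W_{sg σ Δ}(a) c4(a)` for the primary `a` -/
noncomputable def sg (σ : ℕ) (Δ : ZI) : ℕ := σ + 2 + 2 * ∑ p : {π : ZI // π ∈ PD Δ}, wq p.1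

/-- D1-SEL (descent: the determinant is one) -/
def S_SEL1 : Prop := ∀ (σ : ℕ), σ % 2 = 1 → ∀ (K : Type) [Field K] [NumberField K]
  (e : ZI ≃+* 𝓞 K) (Δ : ZI), PS Δ → dD Δ = 1 → Nat.card (cI e σ Δ).toAffine.Point = 2 ∧
    ∀ (n : ℕ) (x : Pool.Agent.TH841.NF.D.Sha (cI e σ Δ)), 2 ^ n • x = 0 → x = 0

/-- D1-CONV (descent: the determinant is zero) -/
def S_CONV1 : Prop := ∀ (σ : ℕ), σ % 2 = 1 → ∀ (K : Type) [Field K] [NumberField K]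
  (e : ZI ≃+* 𝓞 K) (Δ : ZI), PS Δ → dD Δ = 0 → Finite (cI e σ Δ).toAffine.Point →
    ∃ x : Pool.Agent.TH841.NF.D.Sha (cI e σ Δ), 2 • x = 0 ∧ x ≠ 0

/-- D1-LS (the L-series) -/
def S_LS1 : Prop := ∀ (σ : ℕ), σ % 2 = 1 → ∀ (K : Type) [Field K] [NumberField K]
  (e : ZI ≃+* 𝓞 K) (Δ : ZI), PS Δ → ∀ X : ZI →* ℂ, HC (8 * Δ) X →
    (∀ a, prim a → X a = (starRingEnd ℂ) (tc (wi (sg σ Δ) a * c4 (fam Δ) Finset.univ on1 a))) →
  ∀ s : ℂ, 3 / 2 < s.re → LSeriesSummable ((fun n : ℤ => (n : ℂ)) ∘ (cI e σ Δ).LFunction) s ∧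
      LG X s = (cI e σ Δ).LSeries s

end Pool.Agent.D0H43.Q4
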