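import Pool.Agent.D0H43.Q4.Stm4
import Pool.Agent.D0H43.Q4.Stm2

/-!
# Project Q4, block D, class `b = 1`: statements of the modules over `K = ℚ(i)`: the curve
# `y² = x³ + i ^ σ (1 + i) Δ x`, `Δ` squarefree and primary.
-/

set_option autoImplicit false

open NumberField IsDedekindDomain Filter Complex
open scoped Topology PeriodPair

namespace Pool.Agent.D0H43.Q4

open H385 (ZI RQ im1 nrm)
open Pool.Agent.H304R3.HK (tc HC LH)
open Pool.Agent.Y699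
open Pool.Agent.H304R2.EC.A1 (prim)

/-- the curve `y² = x³ + i ^ σ (1 + i) Δ x` over `K` -/
noncomputable def cO {K : Type} [Field K] [NumberField K] (e : ZI ≃+* 𝓞 K) (σ : ℕ) (Δ : ZI) :
    WeierstrassCurve K := Pool.Agent.Y715.Z.q4 (Pool.Agent.Y715.Z.em0 e (im1 ^ σ * l1 * Δ))

/-- the determinant of the bordered matrix `[[Lap + diag h, t], [t^T, 1 + cst σ]]`, which is equal to
`bq (sg σ Δ) (fam Δ) univ` -/
noncomputable def dO (σ : ℕ) (Δ : ZI) : ZMod 2 :=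
  (MB (hO σ (fam Δ)) (wt (fam Δ)) (1 + cst σ) (em (fam Δ)) Finset.univ).det

/-- D3-SEL (descent: the determinant is one) -/
def S_SELO : Prop := ∀ (σ : ℕ) (K : Type) [Field K] [NumberField K]
  (e : ZI ≃+* 𝓞 K) (Δ : ZI), PS Δ → dO σ Δ = 1 → Nat.card (cO e σ Δ).toAffine.Point = 2 ∧
    ∀ (n : ℕ) (x : Pool.Agent.TH841.NF.D.Sha (cO e σ Δ)), 2 ^ n • x = 0 → x = 0

/-- D3-CONV (descent: the determinant is zero) -/
def S_CONVO : Prop := ∀ (σ : ℕ) (K : Type) [Field K] [NumberField K]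
  (e : ZI ≃+* 𝓞 K) (Δ : ZI), PS Δ → dO σ Δ = 0 → Finite (cO e σ Δ).toAffine.Point →
    ∃ x : Pool.Agent.TH841.NF.D.Sha (cO e σ Δ), 2 • x = 0 ∧ x ≠ 0

/-- D3-LS (the L-series) -/
def S_LSO : Prop := ∀ (σ : ℕ) (K : Type) [Field K] [NumberField K]
  (e : ZI ≃+* 𝓞 K) (Δ : ZI), PS Δ → ∀ X : ZI →* ℂ, HC (f7 * Δ) X →
    (∀ a, prim a → X a = (starRingEnd ℂ) (tc (wo (sg σ Δ) a * c4 (fam Δ) Finset.univ on1 a))) →
  ∀ s : ℂ, 3 / 2 < s.re → LSeriesSummable ((fun n : ℤ => (n : ℂ)) ∘ (cO e σ Δ).LFunction) s ∧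
      LG X s = (cO e σ Δ).LSeries s

open Classical in
/-- D3-DEN (the exact proportion) -/
def S_DENO : Prop := ∀ (σ : ℕ), Tendsto (fun X : ℕ =>
    (((SB X).filter fun Δ => dO σ Δ = 1).card : ℝ) / ((SB X).card : ℝ)) atTop
  (𝓝 (∏' i : ℕ, (1 - (1 / 2 : ℝ) ^ (2 * i + 1))))

end Pool.Agent.D0H43.Q4
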