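import Pool.Agent.D0H10.Q4.FinJ

/-!
# Project Q4: densities of unions of classes with different criteria
-/

set_option autoImplicit false

open NumberField IsDedekindDomain WeierstrassCurve Filter
open scoped Topology Classical

namespace Pool.Agent.D0H43.Q4.P

open H385 (ZI RQ im1 nrm)
open Pool.Agent.Y699 (SB mem_SB PS pi1)
open Pool.Agent.D0H10.Q4

/-- a union of classes with its criterion -/
structure Cls (S : Finset (ℕ × ℕ)) (P : ℕ × ℕ → ZI → Prop) : Prop where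
  lt : ∀ p ∈ S, p.1 < 4
  facts : ∀ (K : Type) [Field K] [NumberField K] (e : ZI ≃+* 𝓞 K), ∀ p ∈ S, ∀ Δ, PS Δ →
    Facts (e (cl p.1 p.2 Δ)) ∧ (FinT (e (cl p.1 p.2 Δ)) ↔ P p Δ)
  dens : ∀ p ∈ S, Tendsto (fun X : ℕ => (((SB X).filter fun Δ => P p Δ).card : ℝ) /
    ((SB X).card : ℝ)) atTop (𝓝 cc2)

theorem Cls.mono {S S' : Finset (ℕ × ℕ)} {P : ℕ × ℕ → ZI → Prop} (h : Cls S P) (hS : S' ⊆ S) :
    Cls S' P :=
  ⟨fun p hp => h.lt p (hS hp), fun K _ _ e p hp => h.facts K e p (hS hp),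
    fun p hp => h.dens p (hS hp)⟩

theorem dens_gen (S : Finset (ℕ × ℕ)) (hS : S.Nonempty) (h4 : ∀ p ∈ S, p.1 < 4)
    (T : ZI → Prop) (P : ℕ × ℕ → ZI → Prop)
    (hP : ∀ p ∈ S, Tendsto (fun X : ℕ => (((SB X).filter fun Δ => P p Δ).card : ℝ) /
      ((SB X).card : ℝ)) atTop (𝓝 cc2))
    (hT : ∀ p ∈ S, ∀ Δ, PS Δ → (T (cl p.1 p.2 Δ) ↔ P p Δ)) :
    Tendsto (fun X : ℕ => ({D : ZI | nrm D ≤ X ∧ InS S D ∧ T D}.ncard : ℝ) /
      ({D : ZI | nrm D ≤ X ∧ InS S D}.ncard : ℝ)) atTop (𝓝 cc2) := by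
  have e1 : ∀ X : ℕ, ({D : ZI | nrm D ≤ X ∧ InS S D ∧ T D}.ncard : ℝ) =
      ∑ p ∈ S, (((SB (X / 2 ^ p.2)).filter fun Δ => P p Δ).card : ℝ) := by
    intro X
    have h1 := count_cls S h4 T X
    have h2 : {D : ZI | nrm D ≤ X ∧ InS S D ∧ T D}.ncard =
        {D : ZI | nrm D ≤ X ∧ (∃ p ∈ S, ∃ Δ, PS Δ ∧ D = cl p.1 p.2 Δ) ∧ T D}.ncard := rfl
    rw [h2, h1]
    push_cast
    refine Finset.sum_congr rfl fun p hp => ?_
    congr 2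
    refine Finset.filter_congr fun Δ hΔ => ?_
    exact hT p hp Δ (mem_SB.1 hΔ).2
  have e2 : ∀ X : ℕ, ({D : ZI | nrm D ≤ X ∧ InS S D}.ncard : ℝ) =
      ∑ p ∈ S, ((SB (X / 2 ^ p.2)).card : ℝ) := by
    intro X
    have h1 := count_cls S h4 (fun _ => True) X
    have h2 : {D : ZI | nrm D ≤ X ∧ InS S D} =
        {D : ZI | nrm D ≤ X ∧ (∃ p ∈ S, ∃ Δ, PS Δ ∧ D = cl p.1 p.2 Δ) ∧ True} := by
      ext D
      simp [InS]
    rw [h2, h1]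
    push_cast
    refine Finset.sum_congr rfl fun p hp => ?_
    rw [Finset.filter_true]
  simp_rw [e1, e2]
  refine ratio_sum S hS _ _ _ (fun p hp => ?_) fun p hp => ?_
  · filter_upwards [(div_atTop p.2).eventually_ge_atTop 1] with X hX
    exact_mod_cast SB_pos hX
  · exact (hP p hp).comp (div_atTop p.2)

/-- the proportion in all the squarefree elements -/
theorem prop_gen (hsq : S_SQF) (S : Finset (ℕ × ℕ)) (hS : S.Nonempty)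
    (h4 : ∀ p ∈ S, p.1 < 4) (T : ZI → Prop) (P : ℕ × ℕ → ZI → Prop)
    (hP : ∀ p ∈ S, Tendsto (fun X : ℕ => (((SB X).filter fun Δ => P p Δ).card : ℝ) /
      ((SB X).card : ℝ)) atTop (𝓝 cc2))
    (hT : ∀ p ∈ S, ∀ Δ, PS Δ → (T (cl p.1 p.2 Δ) ↔ P p Δ)) :
    Tendsto (fun X : ℕ => ({D : ZI | nrm D ≤ X ∧ InS S D ∧ T D}.ncard : ℝ) /
      ({D : ZI | nrm D ≤ X ∧ Squarefree D}.ncard : ℝ)) atTop
        (𝓝 ((∑ p ∈ S, (1 / 2 : ℝ) ^ p.2) / 6 * cc2)) := by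
  obtain ⟨κ, hκ, h⟩ := hsq
  have h1 := dens_gen S hS h4 T P hP hT
  have h2 := cnt_lim h S h4
  have h3 := cnt_lim h Ssq (fun p hp => by
    have h1 := Finset.mem_product.1 hp
    exact Finset.mem_range.1 h1.1)
  have e3 : ∑ p ∈ Ssq, κ * (1 / 2 : ℝ) ^ p.2 = 6 * κ := by
    unfold Ssq
    rw [Finset.sum_product]
    simp [Finset.sum_range_succ]
    ring
  rw [e3] at h3
  have e4 : ∑ p ∈ S, κ * (1 / 2 : ℝ) ^ p.2 = κ * ∑ p ∈ S, (1 / 2 : ℝ) ^ p.2 := by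
    rw [Finset.mul_sum]
  rw [e4] at h2
  have hpos : 0 < ∑ p ∈ S, (1 / 2 : ℝ) ^ p.2 := Finset.sum_pos (fun _ _ => by positivity) hS
  have h5 := (h1.mul h2).div h3 (by positivity)
  have e5 : cc2 * (κ * ∑ p ∈ S, (1 / 2 : ℝ) ^ p.2) / (6 * κ) =
      (∑ p ∈ S, (1 / 2 : ℝ) ^ p.2) / 6 * cc2 := by
    field_simp
  rw [e5] at h5
  refine h5.congr' ?_
  have h6 : ∀ᶠ X : ℕ in atTop, (0 : ℝ) < ({D : ZI | nrm D ≤ X ∧ InS S D}.ncard : ℝ) / (X : ℝ) :=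
    h2.eventually_const_lt (by positivity)
  filter_upwards [h6, eventually_gt_atTop 0] with X hX hX0
  have h7 : (X : ℝ) ≠ 0 := by positivity
  have h8 : ({D : ZI | nrm D ≤ X ∧ InS S D}.ncard : ℝ) ≠ 0 := by
    intro h0
    rw [h0, zero_div] at hX
    exact lt_irrefl _ hX
  have e6 : {D : ZI | nrm D ≤ X ∧ InS Ssq D} = {D : ZI | nrm D ≤ X ∧ Squarefree D} := by
    ext D
    simp only [Set.mem_ofPred_eq, inS_Ssq]
  simp only [Pi.div_apply]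
  rw [e6]
  rcases eq_or_ne ({D : ZI | nrm D ≤ X ∧ Squarefree D}.ncard : ℝ) 0 with h0 | h0
  · rw [h0, zero_div, div_zero, div_zero]
  · field_simp

section

variable {S : Finset (ℕ × ℕ)} {P : ℕ × ℕ → ZI → Prop}

/-- the facts over the ring of integers -/
theorem Cls.all (h : Cls S P) {K : Type} [Field K] [NumberField K] (e : ZI ≃+* 𝓞 K) (Q : 𝓞 K → Prop)
    (hQ : ∀ D, Q (e D) ↔ InS S D) (D : 𝓞 K) (hD : Q D) : Facts D := by
  obtain ⟨D, rfl⟩ := e.surjective D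
  obtain ⟨p, hp, Δ, hΔ, rfl⟩ := (hQ D).1 hD
  exact (h.facts K e p hp Δ hΔ).1

/-- the density over the ring of integers -/
theorem Cls.lim (h : Cls S P) (hS : S.Nonempty) {K : Type} [Field K] [NumberField K]
    (e : ZI ≃+* 𝓞 K) (he : ∀ z, Algebra.norm ℤ (e z) = z.norm) (Q : 𝓞 K → Prop)
    (hQ : ∀ D, Q (e D) ↔ InS S D) :
    Tendsto (fun X : ℕ => ({D : 𝓞 K | Algebra.norm ℤ D ≤ X ∧ Q D ∧ FinT D}.ncard : ℝ) /
        ({D : 𝓞 K | Algebra.norm ℤ D ≤ X ∧ Q D}.ncard : ℝ)) atTop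
      (nhds (∏' i : ℕ, (1 - (1 / 2 : ℝ) ^ (2 * i + 1)))) := by
  have e3 : ∀ X : ℕ, {D : 𝓞 K | Algebra.norm ℤ D ≤ X ∧ Q D ∧ FinT D}.ncard =
      {D : ZI | nrm D ≤ X ∧ InS S D ∧ FinT (e D)}.ncard := fun X =>
    img_ncard e he X (fun D => InS S D ∧ FinT (e D)) (fun D => Q D ∧ FinT D) fun D =>
      and_congr (hQ D) Iff.rfl
  have e3' : ∀ X : ℕ, {D : 𝓞 K | Algebra.norm ℤ D ≤ X ∧ Q D}.ncard =
      {D : ZI | nrm D ≤ X ∧ InS S D}.ncard := fun X =>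
    img_ncard e he X (InS S) Q fun D => hQ D
  simp_rw [e3, e3']
  exact dens_gen S hS h.lt (fun D => FinT (e D)) P h.dens fun p hp Δ hΔ =>
    (h.facts K e p hp Δ hΔ).2

/-- the density in the squarefree elements over the ring of integers -/
theorem Cls.sqf (h : Cls S P) (hsq : S_SQF) (hS : S.Nonempty) {K : Type} [Field K] [NumberField K]
    (e : ZI ≃+* 𝓞 K) (he : ∀ z, Algebra.norm ℤ (e z) = z.norm) (Q : 𝓞 K → Prop)
    (hQ : ∀ D, Q (e D) ↔ InS S D) :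
    Tendsto (fun X : ℕ => ({D : 𝓞 K | Algebra.norm ℤ D ≤ X ∧ Q D ∧ FinT D}.ncard : ℝ) /
        ({D : 𝓞 K | Algebra.norm ℤ D ≤ X ∧ Squarefree D}.ncard : ℝ)) atTop
      (nhds ((∑ p ∈ S, (1 / 2 : ℝ) ^ p.2) / 6 * ∏' i : ℕ, (1 - (1 / 2 : ℝ) ^ (2 * i + 1)))) := by
  have e3 : ∀ X : ℕ, {D : 𝓞 K | Algebra.norm ℤ D ≤ X ∧ Q D ∧ FinT D}.ncard =
      {D : ZI | nrm D ≤ X ∧ InS S D ∧ FinT (e D)}.ncard := fun X =>
    img_ncard e he X (fun D => InS S D ∧ FinT (e D)) (fun D => Q D ∧ FinT D) fun D =>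
      and_congr (hQ D) Iff.rfl
  have e0 : ∀ X : ℕ, {D : 𝓞 K | Algebra.norm ℤ D ≤ X ∧ Squarefree D}.ncard =
      {D : ZI | nrm D ≤ X ∧ Squarefree D}.ncard := fun X =>
    img_ncard e he X Squarefree Squarefree fun D => sqf_e e D
  simp_rw [e3, e0]
  exact prop_gen hsq S hS h.lt (fun D => FinT (e D)) P h.dens fun p hp Δ hΔ =>
    (h.facts K e p hp Δ hΔ).2

end

end Pool.Agent.D0H43.Q4.P
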