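import Pool.Agent.D0H43.Q4.FinO
import Pool.Agent.D0H43.Q4.FinP

/-!
# Project Q4: all the squarefree `D` in `ℤ[i]` that are not `1` modulo `2`
-/

set_option autoImplicit false

open NumberField IsDedekindDomain WeierstrassCurve Filter
open scoped Topology Classical

namespace Pool.Agent.D0H43.Q4.P

open H385 (ZI RQ im1 nrm)
open Pool.Agent.Y699 (SB mem_SB PS pi1)
open Pool.Agent.H304R2.EC.A1 (prim)
open Pool.Agent.D0H10.Q4

/-- the classes `i Δ`, `- i Δ` and `i ^ a (1 + i) Δ` -/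
def S4 : Finset (ℕ × ℕ) := {(1, 0), (3, 0), (0, 1), (1, 1), (2, 1), (3, 1)}

/-- the classes `i ^ a (1 + i) Δ` -/
def S5 : Finset (ℕ × ℕ) := {(0, 1), (1, 1), (2, 1), (3, 1)}

/-- and the class `2 Δ` -/
def S6 : Finset (ℕ × ℕ) := {(1, 0), (3, 0), (0, 1), (1, 1), (2, 1), (3, 1), (3, 2)}

/-- the criterion -/
noncomputable def crit (p : ℕ × ℕ) (Δ : ZI) : Prop :=
  if p.2 = 1 then dO p.1 Δ = 1 else dD Δ = 1

lemma par_cl {a b : ℕ} {Δ : ZI} (ha : a < 4) (hb : b < 2) (h : PS Δ) :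
    (b = 1 ∧ (cl a b Δ).re % 2 = 1 ∧ (cl a b Δ).im % 2 = 1) ∨
    (b = 0 ∧ a % 2 = 0 ∧ (cl a b Δ).re % 2 = 1 ∧ (cl a b Δ).im % 2 = 0) ∨
    (b = 0 ∧ a % 2 = 1 ∧ (cl a b Δ).re % 2 = 0 ∧ (cl a b Δ).im % 2 = 1) := by
  obtain ⟨h2, h3⟩ := h.prm
  have hm : ∀ z : ZI, (im1 * z).re = -z.im ∧ (im1 * z).im = z.re := by
    intro z
    constructor <;> simp [im1]
  have hp : (pi1 * Δ).re = Δ.re - Δ.im ∧ (pi1 * Δ).im = Δ.re + Δ.im := by
    constructor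
    · simp [pi1]; ring
    · simp [pi1]; ring
  have key : ∀ z : ZI, ((im1 ^ a * z).re % 2 = z.re % 2 ∧ (im1 ^ a * z).im % 2 = z.im % 2 ∧
      a % 2 = 0) ∨ ((im1 ^ a * z).re % 2 = z.im % 2 ∧ (im1 ^ a * z).im % 2 = z.re % 2 ∧
      a % 2 = 1) := by
    intro z
    obtain ⟨m1, m2⟩ := hm z
    obtain ⟨m3, m4⟩ := hm (im1 * z)
    obtain ⟨m5, m6⟩ := hm (im1 * (im1 * z))
    interval_cases a
    · left
      rw [pow_zero, one_mul]
      exact ⟨rfl, rfl, rfl⟩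
    · right
      rw [pow_one]
      refine ⟨?_, ?_, rfl⟩ <;> omega
    · left
      have e : im1 ^ 2 * z = im1 * (im1 * z) := by ring
      rw [e]
      refine ⟨?_, ?_, rfl⟩ <;> omega
    · right
      have e : im1 ^ 3 * z = im1 * (im1 * (im1 * z)) := by ring
      rw [e]
      refine ⟨?_, ?_, rfl⟩ <;> omega
  unfold cl
  interval_cases b
  · have e : pi1 ^ 0 * Δ = Δ := by rw [pow_zero, one_mul]
    rw [e]
    rcases key Δ with ⟨k1, k2, k3⟩ | ⟨k1, k2, k3⟩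
    · right; left
      refine ⟨rfl, k3, ?_, ?_⟩ <;> omega
    · right; right
      refine ⟨rfl, k3, ?_, ?_⟩ <;> omega
  · have e : pi1 ^ 1 * Δ = pi1 * Δ := by rw [pow_one]
    rw [e]
    rcases key (pi1 * Δ) with ⟨k1, k2, k3⟩ | ⟨k1, k2, k3⟩
    · left
      refine ⟨rfl, ?_, ?_⟩ <;> omega
    · left
      refine ⟨rfl, ?_, ?_⟩ <;> omega

lemma inS4_iff (D : ZI) : InS S4 D ↔ Squarefree D ∧ D.im % 2 = 1 := by
  constructor
  · rintro ⟨⟨a, b⟩, hp, Δ, hΔ, rfl⟩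
    have h1 : (a = 1 ∧ b = 0) ∨ (a = 3 ∧ b = 0) ∨ (a = 0 ∧ b = 1) ∨ (a = 1 ∧ b = 1) ∨
        (a = 2 ∧ b = 1) ∨ (a = 3 ∧ b = 1) := by simpa [S4] using hp
    refine ⟨sqf_iff.2 ⟨a, b, Δ, by omega, by omega, hΔ, rfl⟩, ?_⟩
    show (cl a b Δ).im % 2 = 1
    rcases par_cl (a := a) (b := b) (by omega) (by omega) hΔ with h | h | h <;> omega
  · rintro ⟨hsq, h2⟩
    obtain ⟨a, b, Δ, ha, hb, hΔ, rfl⟩ := sqf_iff.1 hsq
    refine ⟨(a, b), ?_, Δ, hΔ, rfl⟩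
    have h3 := par_cl ha hb hΔ
    have h1 : (a = 1 ∧ b = 0) ∨ (a = 3 ∧ b = 0) ∨ (a = 0 ∧ b = 1) ∨ (a = 1 ∧ b = 1) ∨
        (a = 2 ∧ b = 1) ∨ (a = 3 ∧ b = 1) := by omega
    simpa [S4] using h1

lemma inS5_iff (D : ZI) : InS S5 D ↔ Squarefree D ∧ D.re % 2 = 1 ∧ D.im % 2 = 1 := by
  constructor
  · rintro ⟨⟨a, b⟩, hp, Δ, hΔ, rfl⟩
    have h1 : (a = 0 ∧ b = 1) ∨ (a = 1 ∧ b = 1) ∨
        (a = 2 ∧ b = 1) ∨ (a = 3 ∧ b = 1) := by simpa [S5] using hp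
    refine ⟨sqf_iff.2 ⟨a, b, Δ, by omega, by omega, hΔ, rfl⟩, ?_⟩
    show (cl a b Δ).re % 2 = 1 ∧ (cl a b Δ).im % 2 = 1
    rcases par_cl (a := a) (b := b) (by omega) (by omega) hΔ with h | h | h <;> omega
  · rintro ⟨hsq, h2⟩
    obtain ⟨a, b, Δ, ha, hb, hΔ, rfl⟩ := sqf_iff.1 hsq
    refine ⟨(a, b), ?_, Δ, hΔ, rfl⟩
    have h3 := par_cl ha hb hΔ
    have h1 : (a = 0 ∧ b = 1) ∨ (a = 1 ∧ b = 1) ∨
        (a = 2 ∧ b = 1) ∨ (a = 3 ∧ b = 1) := by omega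
    simpa [S5] using h1

lemma inS6_iff (D : ZI) : InS S6 D ↔ InS S4 D ∨ InS S2 D := by
  constructor
  · rintro ⟨p, hp, h⟩
    have h1 : p = (1, 0) ∨ p = (3, 0) ∨ p = (0, 1) ∨ p = (1, 1) ∨ p = (2, 1) ∨ p = (3, 1) ∨
      p = (3, 2) := by simpa [S6] using hp
    by_cases h2 : p = (3, 2)
    · exact Or.inr ⟨p, by rw [h2]; decide, h⟩
    · refine Or.inl ⟨p, ?_, h⟩
      have h3 : p = (1, 0) ∨ p = (3, 0) ∨ p = (0, 1) ∨ p = (1, 1) ∨ p = (2, 1) ∨ p = (3, 1) := by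
        tauto
      simpa [S4] using h3
  · rintro (⟨p, hp, h⟩ | ⟨p, hp, h⟩)
    · exact ⟨p, (by decide : S4 ⊆ S6) hp, h⟩
    · exact ⟨p, (by decide : S2 ⊆ S6) hp, h⟩

/-- all the classes -/
theorem cls6 (B : BK) (B1 : BD) (B2 : O.BO) (hden : S_KDEN) : Cls S6 crit where
  lt := by decide
  facts := by
    intro K _ _ e p hp Δ hΔ
    have h1 : p = (1, 0) ∨ p = (3, 0) ∨ p = (0, 1) ∨ p = (1, 1) ∨ p = (2, 1) ∨ p = (3, 1) ∨
      p = (3, 2) := by simpa [S6] using hp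
    rcases h1 with rfl | rfl | rfl | rfl | rfl | rfl | rfl
    · have h2 : crit (1, 0) Δ ↔ dD Δ = 1 := by unfold crit; rw [if_neg (by norm_num)]
      rw [h2]
      exact factsD B1 e (by norm_num) hΔ
    · have h2 : crit (3, 0) Δ ↔ dD Δ = 1 := by unfold crit; rw [if_neg (by norm_num)]
      rw [h2]
      exact factsD B1 e (by norm_num) hΔ
    · have h2 : crit (0, 1) Δ ↔ dO 0 Δ = 1 := by unfold crit; rw [if_pos rfl]
      rw [h2]
      exact O.factsO B2 e 0 hΔ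
    · have h2 : crit (1, 1) Δ ↔ dO 1 Δ = 1 := by unfold crit; rw [if_pos rfl]
      rw [h2]
      exact O.factsO B2 e 1 hΔ
    · have h2 : crit (2, 1) Δ ↔ dO 2 Δ = 1 := by unfold crit; rw [if_pos rfl]
      rw [h2]
      exact O.factsO B2 e 2 hΔ
    · have h2 : crit (3, 1) Δ ↔ dO 3 Δ = 1 := by unfold crit; rw [if_pos rfl]
      rw [h2]
      exact O.factsO B2 e 3 hΔ
    · have h2 : crit (3, 2) Δ ↔ dD Δ = 1 := by unfold crit; rw [if_neg (by norm_num)]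
      rw [h2]
      exact factsK B e hΔ
  dens := by
    intro p hp
    by_cases h1 : p.2 = 1
    · have h2 := B2.den p.1
      refine h2.congr fun X => ?_
      congr 3
      refine Finset.filter_congr fun Δ _ => ?_
      unfold crit
      rw [if_pos h1]
    · have h2 := hden
      refine Tendsto.congr (fun X => ?_) h2
      congr 3
      refine Finset.filter_congr fun Δ _ => ?_
      unfold crit
      rw [if_neg h1]

section

variable {K : Type} [Field K] [NumberField K]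

/-- `D` is squarefree and not `1` modulo `2` -/
def NotOne (D : 𝓞 K) : Prop := Squarefree D ∧ ¬ 2 ∣ D - 1

/-- `D` is squarefree and divisible by `1 + i` -/
def Evn (D : 𝓞 K) : Prop := Squarefree D ∧ ∃ i : 𝓞 K, i ^ 2 = -1 ∧ 1 + i ∣ D

lemma two_dvd_e (e : ZI ≃+* 𝓞 K) (D : ZI) : (2 : 𝓞 K) ∣ e D - 1 ↔ (2 : ZI) ∣ D - 1 := by
  constructor
  · intro h
    have h2 := map_dvd e.symm h
    rwa [map_sub, e.symm_apply_apply, map_one, map_ofNat] at h2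
  · intro h
    have h2 := map_dvd e h
    rwa [map_sub, map_one, map_ofNat] at h2

lemma notOneK (e : ZI ≃+* 𝓞 K) (D : ZI) : NotOne (e D) ↔ InS S4 D := by
  unfold NotOne
  rw [inS4_iff, sqf_e, two_dvd_e, two_dvd]
  refine and_congr_right fun hsq => ?_
  obtain ⟨a, b, Δ, ha, hb, hΔ, rfl⟩ := sqf_iff.1 hsq
  have h3 := par_cl ha hb hΔ
  have h4 : (cl a b Δ - 1).re = (cl a b Δ).re - 1 := by simp
  have h5 : (cl a b Δ - 1).im = (cl a b Δ).im := by simp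
  rw [h4, h5]
  omega

lemma pi_dvd {z : ZI} : (1 + im1 : ZI) ∣ z ↔ (z.re + z.im) % 2 = 0 := by
  constructor
  · rintro ⟨w, rfl⟩
    simp [im1]
    omega
  · intro h1
    refine ⟨⟨(z.re + z.im) / 2, (z.im - z.re) / 2⟩, ?_⟩
    apply Zsqrtd.ext
    · simp [im1]
      omega
    · simp [im1]
      omega

lemma pi_dvd' {z : ZI} : (1 + -im1 : ZI) ∣ z ↔ (z.re + z.im) % 2 = 0 := by
  have h1 : (1 + -im1 : ZI) = -im1 * (1 + im1) := by decide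
  rw [h1, ((IsUnit.of_mul_eq_one im1 (by decide) : IsUnit (-im1 : ZI)).mul_left_dvd), pi_dvd]

lemma evnK (e : ZI ≃+* 𝓞 K) (D : ZI) : Evn (e D) ↔ InS S5 D := by
  unfold Evn
  rw [inS5_iff, sqf_e]
  refine and_congr_right fun hsq => ?_
  have h1 : (∃ i : 𝓞 K, i ^ 2 = -1 ∧ 1 + i ∣ e D) ↔ (D.re + D.im) % 2 = 0 := by
    constructor
    · rintro ⟨i, hi, h⟩
      obtain ⟨u, rfl⟩ := e.surjective i
      have hu : u ^ 2 = -1 := by
        apply e.injective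
        rw [map_pow, hi, map_neg, map_one]
      have h2 : (1 + u : ZI) ∣ D := by
        have h3 := map_dvd e.symm h
        rwa [map_add, e.symm_apply_apply, e.symm_apply_apply, map_one] at h3
      rcases sq_neg hu with rfl | rfl
      · exact pi_dvd.1 h2
      · exact pi_dvd'.1 h2
    · intro h
      refine ⟨e im1, ?_, ?_⟩
      · rw [← map_pow, show (im1 : ZI) ^ 2 = -1 by decide, map_neg, map_one]
      · have h2 := map_dvd e (pi_dvd.2 h)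
        rwa [map_add, map_one] at h2
  rw [h1]
  obtain ⟨a, b, Δ, ha, hb, hΔ, rfl⟩ := sqf_iff.1 hsq
  have h3 := par_cl ha hb hΔ
  omega

/-- the family -/
def FamR (D : 𝓞 K) : Prop := NotOne D ∨ TwP D

lemma famRK (e : ZI ≃+* 𝓞 K) (D : ZI) : FamR (e D) ↔ InS S6 D := by
  unfold FamR
  rw [inS6_iff, notOneK, twoK]

end

/-- **The final statement.** -/
theorem finalR (h : Cls S6 crit) (hsq : S_SQF) (K : Type) [Field K]
    [NumberField K] [IsCyclotomicExtension {4} ℚ K] :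
    (∀ D : 𝓞 K, FamR D → Facts D) ∧
    Tendsto (fun X : ℕ =>
      ({D : 𝓞 K | Algebra.norm ℤ D ≤ X ∧ FamR D ∧ FinT D}.ncard : ℝ) /
        ({D : 𝓞 K | Algebra.norm ℤ D ≤ X ∧ FamR D}.ncard : ℝ)) atTop
      (nhds (∏' i : ℕ, (1 - (1 / 2 : ℝ) ^ (2 * i + 1)))) ∧
    Tendsto (fun X : ℕ =>
      ({D : 𝓞 K | Algebra.norm ℤ D ≤ X ∧ (Squarefree D ∧ OddI D) ∧ FinT D}.ncard : ℝ) /
        ({D : 𝓞 K | Algebra.norm ℤ D ≤ X ∧ (Squarefree D ∧ OddI D)}.ncard : ℝ)) atTop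
      (nhds (∏' i : ℕ, (1 - (1 / 2 : ℝ) ^ (2 * i + 1)))) ∧
    Tendsto (fun X : ℕ =>
      ({D : 𝓞 K | Algebra.norm ℤ D ≤ X ∧ Evn D ∧ FinT D}.ncard : ℝ) /
        ({D : 𝓞 K | Algebra.norm ℤ D ≤ X ∧ Evn D}.ncard : ℝ)) atTop
      (nhds (∏' i : ℕ, (1 - (1 / 2 : ℝ) ^ (2 * i + 1)))) ∧
    Tendsto (fun X : ℕ =>
      ({D : 𝓞 K | Algebra.norm ℤ D ≤ X ∧ TwP D ∧ FinT D}.ncard : ℝ) /
        ({D : 𝓞 K | Algebra.norm ℤ D ≤ X ∧ TwP D}.ncard : ℝ)) atTop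
      (nhds (∏' i : ℕ, (1 - (1 / 2 : ℝ) ^ (2 * i + 1)))) ∧
    Tendsto (fun X : ℕ =>
      ({D : 𝓞 K | Algebra.norm ℤ D ≤ X ∧ NotOne D ∧ FinT D}.ncard : ℝ) /
        ({D : 𝓞 K | Algebra.norm ℤ D ≤ X ∧ Squarefree D}.ncard : ℝ)) atTop
      (nhds (2 / 3 * ∏' i : ℕ, (1 - (1 / 2 : ℝ) ^ (2 * i + 1)))) := by
  obtain ⟨e, he⟩ := Rng.exists_e K
  refine ⟨h.all e FamR (famRK e), h.lim ⟨(1, 0), by decide⟩ e he FamR (famRK e),
    (h.mono (S' := S1) (by decide)).lim ⟨(1, 0), by decide⟩ e he (fun D => Squarefree D ∧ OddI D) (oneK e),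
    (h.mono (S' := S5) (by decide)).lim ⟨(0, 1), by decide⟩ e he Evn (evnK e),
    (h.mono (S' := S2) (by decide)).lim ⟨(3, 2), by decide⟩ e he TwP (twoK e), ?_⟩
  have h1 := (h.mono (S' := S4) (by decide)).sqf hsq ⟨(1, 0), by decide⟩ e he NotOne (notOneK e)
  have h6 : (∑ p ∈ S4, (1 / 2 : ℝ) ^ p.2) = 4 := by
    unfold S4
    rw [Finset.sum_insert (by decide), Finset.sum_insert (by decide), Finset.sum_insert (by decide),
      Finset.sum_insert (by decide), Finset.sum_pair (by decide)]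
    norm_num
  rw [h6] at h1
  have h7 : (4 : ℝ) / 6 = 2 / 3 := by norm_num
  rwa [h7] at h1

end Pool.Agent.D0H43.Q4.P
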