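import Pool.Agent.D0H43.Q4.Defs4

/-!
# Project Q4, block D, class `b = 1`: statements of the modules on the values
-/

set_option autoImplicit false

open Filter Complex
open scoped Topology PeriodPair

namespace Pool.Agent.D0H43.Q4

open H385 (ZI RQ im1 nrm)
open Pool.Agent.H304R3.HK (tc HC LH)
open Pool.Agent.Y699
open Pool.Agent.H304R2.EC.A1 (prim)
open Pool.Agent.D0H10.Q4 (NL pf MQ)

/-- D2-SUP: the supplementary law for `1 + i` -/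
def S_SUPL : Prop := ∀ π : ZI, PP π → Y699.q4 π l1 = im1 ^ xl π

/-- D2-HEC -/
def S_HECO : Prop := ∀ (σ : ℕ) (ι : Type) [DecidableEq ι] (pr : ι → ZI), PF pr →
  ∀ (V : Finset ι) (e : ι → ℕ), (∀ i ∈ V, e i % 4 ≠ 0) → ∃ X : ZI →* ℂ, HC (f7 * DD pr V) X ∧
    (∀ a, prim a → X a = (starRingEnd ℂ) (tc (wo σ a * c4 pr V e a))) ∧
    ∀ l : ℂ, Tendsto (RS (cco σ pr V e)) (𝓝[>] 0) (𝓝 l) → LH X (1 / 2) = (starRingEnd ℂ) l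

/-- D2-LIM -/
def S_LIMO : Prop := ∀ (σ : ℕ) (L : PeriodPair) (Ω s : ℂ), NL L Ω s →
  ∀ (ι : Type) [DecidableEq ι] (pr : ι → ZI), PF pr → ∀ (V : Finset ι) (e : ι → ℕ),
  Tendsto (RS (cco σ pr V e)) (𝓝[>] 0) (𝓝 (lvo σ L Ω pr V e))

/-- D2-EUL -/
def S_EULO : Prop := ∀ (σ : ℕ) (ι : Type) [DecidableEq ι] (pr : ι → ZI), PF pr →
  ∀ (V : Finset ι) (e : ι → ℕ) (k : ι), k ∈ V → e k % 4 = 0 → ∀ l : ℂ,
  Tendsto (RS (cco σ pr (V.erase k) e)) (𝓝[>] 0) (𝓝 l) →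
  Tendsto (RS (cco σ pr V e)) (𝓝[>] 0)
    (𝓝 ((1 - tc (wo σ (pr k) * c4 pr (V.erase k) e (pr k)) / tc (pr k)) * l))

/-- D2-GID, `σ` even (checked numerically) -/
def S_GIDO0 : Prop := ∀ (σ : ℕ), σ % 2 = 0 → ∀ (L : PeriodPair) (Ω s : ℂ), NL L Ω s →
  ∃ κ : ℂ, κ ^ 4 = (1 - I) * (if σ % 4 = 0 then 2 ^ 15 else 2 ^ 17) ∧
  4 * GO σ L Ω 0 ^ 2 = (if σ % 4 = 0 then κ ^ 2 else 0) ∧
  ∀ z : ℂ, OT L z →
    (GO σ L Ω z + GO σ L Ω (-z)) ^ 2 * dn (℘[L] (2 * z)) ^ 2 =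
      κ ^ 2 * (℘[L] (2 * z) * (℘[L] (2 * z) + 1)) * pa σ (℘[L] (2 * z)) ^ 2 ∧
    (GO σ L Ω z - GO σ L Ω (-z)) ^ 2 * dn (℘[L] (2 * z)) ^ 2 =
      κ ^ 2 * (℘[L] (2 * z) - 1) * pb σ (℘[L] (2 * z)) ^ 2

/-- D2-GID, `σ` odd (checked numerically) -/
def S_GIDO1 : Prop := ∀ (σ : ℕ), σ % 2 = 1 → ∀ (L : PeriodPair) (Ω s : ℂ), NL L Ω s →
  ∃ κ : ℂ, κ ^ 4 = (1 + I) * (if σ % 4 = 3 then 2 ^ 15 else 2 ^ 17) ∧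
  4 * GO σ L Ω 0 ^ 2 = (if σ % 4 = 3 then κ ^ 2 else 0) ∧
  ∀ z : ℂ, OT L z →
    (GO σ L Ω z + GO σ L Ω (-z)) ^ 2 * dn (℘[L] (2 * z)) ^ 2 =
      κ ^ 2 * (℘[L] (2 * z) * (℘[L] (2 * z) - 1)) * pa σ (℘[L] (2 * z)) ^ 2 ∧
    (GO σ L Ω z - GO σ L Ω (-z)) ^ 2 * dn (℘[L] (2 * z)) ^ 2 =
      -(κ ^ 2 * (℘[L] (2 * z) + 1)) * pb σ (℘[L] (2 * z)) ^ 2

/-- D2-VAL: valuations of the values at points of odd order -/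
def S_VALO : Prop := ∀ (σ : ℕ) (L : PeriodPair) (Ω s : ℂ), NL L Ω s →
  ∀ (Γ : Type) [LinearOrderedCommGroupWithZero Γ] (v : Valuation ℂ Γ), v 2 < 1 →
  (∀ z, OT L z → v (GO σ L Ω z) ^ 4 = v (1 + I) ^ 19 ∧
    Cg v ((GO σ L Ω z + GO σ L Ω (-z)) / ((1 + I) * GO σ L Ω z))
      ((℘[L] (2 * z) ^ 2 - 1 - 2 * I) / 4 + σ) ∧
    Cg v (GO σ L Ω 0 / ((1 + I) * GO σ L Ω z)) (uu (cst σ))) ∧
  ∀ z w, OT L z → OT L w → Cg v (GO σ L Ω z / GO σ L Ω w) 1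

/-- D2-RHS: the sums of the values -/
def S_RHSO : Prop := ∀ (σ : ℕ) (L : PeriodPair) (Ω s : ℂ), NL L Ω s →
  ∀ (Γ : Type) [LinearOrderedCommGroupWithZero Γ] (v : Valuation ℂ Γ), v 2 < 1 →
  ∀ (ι : Type) [DecidableEq ι] (pr : ι → ZI), PF pr → ∀ (V : Finset ι) (e : ι → ℕ), V.Nonempty →
  (∀ i ∈ V, e i % 2 = 1) → ∀ w, OT L w →
  Cg v ((∑ᶠ q : RQ (DD pr V), (∏ j ∈ V, pf (pr j) (e j) (f7 * q.out)) *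
    GO σ L Ω (zq Ω (DD pr V) q.out)) / ((1 + I) * GO σ L Ω w))
    (uu (ham (hO σ pr) (wt pr) (em pr) V + if V.card = 1 then ∑ j ∈ V, wt pr j else 0))

/-- D2-COMB: the combinatorial recursion -/
def S_COMBO : Prop := ∀ (ι : Type) [DecidableEq ι] (h t : ι → ZMod 2) (c : ZMod 2) (A : ι → ι → ZMod 2),
  (∀ i j, A i j = A j i) → ∀ b : Finset ι → ZMod 2,
  (∀ V : Finset ι, ∑ T ∈ V.powerset, b T * ∏ k ∈ V \ T, (h k + ∑ l ∈ T, A l k) =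
    if V = ∅ then c else ham h t A V + if V.card = 1 then ∑ j ∈ V, t j else 0) →
  ∀ V : Finset ι, b V = (MB h t (c + ∑ j ∈ V, t j) A V).det

/-- D2-BET: the main theorem on the values -/
def S_BETO : Prop := ∀ (σ : ℕ) (L : PeriodPair) (Ω s : ℂ), NL L Ω s →
  ∀ (Γ : Type) [LinearOrderedCommGroupWithZero Γ] (v : Valuation ℂ Γ), v 2 < 1 →
  ∀ (ι : Type) [DecidableEq ι] (pr : ι → ZI), PF pr → ∀ (V : Finset ι) (e : ι → ℕ),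
  (∀ i ∈ V, e i % 2 = 1) → ∀ w, OT L w →
  Cg v (lvo σ L Ω pr V e * (8 * (1 + I)) / (Ω * (1 + I) ^ (V.card + 1) * GO σ L Ω w)) (uu (bq σ pr V))

end Pool.Agent.D0H43.Q4
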