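import Pool.Agent.D0H43.Q4.Wo
import Pool.Agent.D0H43.Q4.Stm4

/-!
Project Q4, modules D2.2 and D2.3b: the Hecke character with the weight `(i ^ σ (1 + i) / a)_4`, its
central value, and the removal of an Euler factor.
-/

set_option autoImplicit false
set_option linter.unusedSectionVars false
set_option linter.unusedSimpArgs false

open Filter Complex
open scoped Topology PeriodPair
open Pool.Agent.TH936.CM

namespace Pool.Agent.D0H43.Q4.O

open H385 (ZI RQ im1 nrm)
open Pool.Agent.H304R3.HK (tc HC LH bH TH FF Th th_psi chi_le)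
open Pool.Agent.Y699 hiding wi
open Pool.Agent.D0H43.Q4
open Pool.Agent.D0H54.Q4 (un_odd nrm_eq nrm_mul')
open Pool.Agent.D0H10.Q4 (rh_norm)
open Pool.Agent.W164.RC (tc_mul tc_star two2 prim_iff_dvd unit_norm unit_cases)
open Pool.Agent.H304R2.EC.A1 (prim prim_mul prim_cancel prim_one prim_norm_odd prim_star eq_one_of_prim
  norm_def' re_mul' im_mul' eq_of_dvd prim_ne_zero exists_prim)

variable {ι : Type} [DecidableEq ι] {pr : ι → ZI}

lemma f7_eq_pi : f7 = pi1 ^ 7 * ⟨0, 1⟩ := by decide

lemma cop_f7 (hp : PF pr) (V : Finset ι) (a : ZI) : IsCoprime a (f7 * DD pr V) ↔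
    a.norm % 2 = 1 ∧ ∀ i ∈ V, ¬ pr i ∣ a := by
  unfold DD
  rw [IsCoprime.mul_right_iff, IsCoprime.prod_right_iff, norm_odd_iff]
  refine and_congr ?_ (forall₂_congr fun i _ => ?_)
  · constructor
    · intro h h'
      have h1 : pi1 ∣ f7 := by
        rw [f7_eq_pi]
        exact (dvd_pow_self _ (by norm_num)).mul_right _
      exact pi1_not_dvd (isUnit_iff_dvd_one.1 (h.isUnit_of_dvd' h' h1))
    · intro h
      rw [f7_eq_pi]
      refine IsCoprime.mul_right (IsCoprime.pow_right ?_) ?_
      · exact ((pi1_prime.irreducible.coprime_iff_not_dvd).2 h).symm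
      · exact ⟨0, ⟨0, -1⟩, by rw [zero_mul, zero_add]; decide⟩
  · rw [isCoprime_comm]
    exact (hp.pp i).pr.irreducible.coprime_iff_not_dvd

lemma not_dvd_f7 {π : ZI} (h : PP π) : ¬ π ∣ f7 := by
  intro h'
  have h1 : π ∣ 8 * 2 := h'.trans ⟨⟨1, -1⟩, by decide⟩
  rcases h.pr.dvd_or_dvd h1 with h2 | h2
  · exact Pool.Agent.D0H54.Q4.not_dvd_eight h h2
  · exact Pool.Agent.D0H54.Q4.not_dvd_eight h (h2.trans ⟨4, by decide⟩)

/-- the Hecke character -/
noncomputable def XO (σ : ℕ) (hp : PF pr) (V : Finset ι) (e : ι → ℕ) : ZI →* ℂ where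
  toFun a := tc (un a) * (starRingEnd ℂ) (tc (wo σ (un a * a) * c4 pr V e (un a * a)))
  map_one' := by
    rw [un_prim prim_one, one_mul, c4_one hp, wo_one, mul_one, tc_one]
    simp
  map_mul' := by
    intro a b
    by_cases ha : a.norm % 2 = 1
    · by_cases hb : b.norm % 2 = 1
      · have hu := un_odd ha
        have hw := un_odd hb
        have e1 : un (a * b) * (a * b) = (un a * a) * (un b * b) := by rw [un_mul]; ring
        rw [e1, c4_mul hp, wo_mul σ hu.2 hw.2, un_mul]
        simp only [tc_mul, map_mul]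
        ring
      · rw [un_mul, un_even hb, mul_zero, tc_zero, zero_mul, zero_mul, mul_zero]
    · rw [un_mul, un_even ha, zero_mul, tc_zero, zero_mul, zero_mul, zero_mul]

lemma XO_apply (σ : ℕ) (hp : PF pr) (V : Finset ι) (e : ι → ℕ) (a : ZI) :
    XO σ hp V e a = tc (un a) * (starRingEnd ℂ) (tc (wo σ (un a * a) * c4 pr V e (un a * a))) := rfl

lemma XO_prim (σ : ℕ) (hp : PF pr) (V : Finset ι) (e : ι → ℕ) {a : ZI} (ha : prim a) :
    XO σ hp V e a = (starRingEnd ℂ) (tc (wo σ a * c4 pr V e a)) := by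
  rw [XO_apply, un_prim ha, tc_one, one_mul, one_mul]

lemma Um_add {a b u : ZI} (h : Um a u) (hab : f7 ∣ a - b) : Um b u := by
  refine ⟨h.1, ?_⟩
  rw [prim_iff_dvd]
  have h1 := (prim_iff_dvd _).1 h.2
  have h2 : two2 ∣ u * (a - b) := ((show two2 ∣ f7 from ⟨4, by decide⟩).trans hab).mul_left u
  have e : u * b - 1 = (u * a - 1) - u * (a - b) := by ring
  rw [e]
  exact dvd_sub h1 h2

theorem XO_HC {σ : ℕ} (hp : PF pr) {V : Finset ι} {e : ι → ℕ} (he : ∀ i ∈ V, e i % 4 ≠ 0) :
    HC (f7 * DD pr V) (XO σ hp V e) where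
  q0 := mul_ne_zero (by decide) (DD_ne hp V)
  per := by
    intro a b hab
    have h1 : f7 ∣ a - b := (dvd_mul_right _ _).trans hab
    have h2 : DD pr V ∣ a - b := (dvd_mul_left _ _).trans hab
    rw [XO_apply, XO_apply]
    by_cases ha : ∃ u, Um a u
    · obtain ⟨u, hu⟩ := ha
      have hw := Um_add hu h1
      have hr : wo σ (u * b) = wo σ (u * a) := by
        refine (wo_per σ hu.2 hw.2 ?_).symm
        rw [← mul_sub]
        exact h1.mul_left _
      have hc : c4 pr V e (u * a) = c4 pr V e (u * b) := by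
        apply c4_per hp
        rw [← mul_sub]
        exact h2.mul_left _
      rw [un_eq hu, un_eq hw, hc, hr]
    · have ha' : a.norm % 2 ≠ 1 := fun h => ha (exists_Um h)
      have hb' : b.norm % 2 ≠ 1 := by
        intro hb
        obtain ⟨u, hu⟩ := exists_Um hb
        have h3 : f7 ∣ b - a := by rw [← neg_sub]; exact (dvd_neg).2 h1
        exact ha ⟨u, Um_add hu h3⟩
      rw [un_even ha', un_even hb', tc_zero, zero_mul, zero_mul]
  supp := by
    intro a
    rw [cop_f7 hp V, XO_apply]
    constructor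
    · intro h
      have h1 : a.norm % 2 = 1 := by
        by_contra hc
        apply h
        rw [un_even hc, tc_zero, zero_mul]
      refine ⟨h1, fun i hi hd => h ?_⟩
      rw [c4_zero e hi (hd.mul_left _), mul_zero, tc_zero, map_zero, mul_zero]
    · rintro ⟨h1, h2⟩
      obtain ⟨u, hu⟩ := exists_Um h1
      rw [un_eq hu]
      have hn := c4_norm hp V e (a := u * a) (fun i hi h => h2 i hi ((qr_unit_mul (hp.pp i) hu.1 a).1 h))
      have hn2 : (wo σ (u * a) * c4 pr V e (u * a)).norm = 1 := by
        rw [Zsqrtd.norm_mul, wo_norm, hn, one_mul]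
      intro h0
      have h3 := congrArg norm h0
      rw [norm_mul, unit_tc hu.1, RCLike.norm_conj, unit_tc hn2, norm_zero] at h3
      norm_num at h3
  nrm := by
    intro a ha
    obtain ⟨h1, h2⟩ := (cop_f7 hp V a).1 ha
    obtain ⟨u, hu⟩ := exists_Um h1
    have hn := c4_norm hp V e (a := u * a) (fun i hi h => h2 i hi ((qr_unit_mul (hp.pp i) hu.1 a).1 h))
    have hn2 : (wo σ (u * a) * c4 pr V e (u * a)).norm = 1 := by
      rw [Zsqrtd.norm_mul, wo_norm, hn, one_mul]
    rw [XO_apply, un_eq hu, norm_mul, unit_tc hu.1, one_mul, RCLike.norm_conj, unit_tc hn2]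
  unit := by
    have h1 : Um ⟨0, 1⟩ ⟨0, -1⟩ := by
      refine ⟨by decide, ?_⟩
      have : (⟨0, -1⟩ : ZI) * ⟨0, 1⟩ = 1 := by decide
      rw [this]
      exact prim_one
    rw [XO_apply, un_eq h1]
    have e : (⟨0, -1⟩ : ZI) * ⟨0, 1⟩ = 1 := by decide
    rw [e, c4_one hp, wo_one, mul_one, tc_one, map_one, mul_one]
    unfold tc
    simp
  prim := by
    intro d hd hnd
    by_cases hB : ∃ i ∈ V, ¬ pr i ∣ d
    · obtain ⟨i, hi, hid⟩ := hB
      have hDi : DD pr V = pr i * DD pr (V.erase i) := by
        unfold DD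
        exact (Finset.mul_prod_erase V pr hi).symm
      set m := f7 * DD pr (V.erase i) with hm
      have hcop : IsCoprime (pr i) m := by
        rw [hm]
        refine IsCoprime.mul_right ?_ ?_
        · exact ((hp.pp i).pr.irreducible.coprime_iff_not_dvd).2 (not_dvd_f7 (hp.pp i))
        · unfold DD
          rw [IsCoprime.prod_right_iff]
          intro j hj
          exact (hp.pp i).cop (hp.pp j) fun h => (Finset.mem_erase.1 hj).1 (hp.inj h).symm
      have hdm : d ∣ m := by
        have h1 : d ∣ pr i * m := by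
          have e : pr i * m = f7 * DD pr V := by
            rw [hDi, hm]
            ring
          rw [e]; exact hd
        have h2 : IsCoprime d (pr i) :=
          (((hp.pp i).pr.irreducible.coprime_iff_not_dvd).2 hid).symm
        exact h2.dvd_of_dvd_mul_left h1
      -- an element with symbol of exact order
      obtain ⟨b, hb⟩ : ∃ b, ¬ pr i ∣ b ∧ q4 (pr i) b ^ e i ≠ 1 := by
        obtain ⟨b, hb⟩ := exists_nonres (hp.pp i)
        have hbn : ¬ pr i ∣ b := by
          intro h
          rw [qr_zero_iff.2 h] at hb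
          norm_num at hb
        have h5 := q4_sq (hp.pp i) b
        rw [hb] at h5
        refine ⟨b, hbn, ?_⟩
        have h6 := q4_norm (hp.pp i) hbn
        have h7 : ((-1 : ℤ) : ZI) = -1 := by simp
        rw [h7] at h5
        have h8 := he i hi
        rw [unit_pow_mod h6 (n := e i % 4) (by omega)]
        have h9 : e i % 4 = 1 ∨ e i % 4 = 2 ∨ e i % 4 = 3 := by omega
        rcases h9 with h9 | h9 | h9 <;> rw [h9]
        · intro h10
          rw [pow_one] at h10
          rw [h10] at h5
          exact absurd h5 (by decide)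
        · rw [h5]; decide
        · intro h10
          have h11 : q4 (pr i) b = -1 := by
            linear_combination -h10 + q4 (pr i) b * h5
          rw [h11] at h5
          exact absurd h5 (by decide)
      obtain ⟨x, y, hxy⟩ := hcop
      set a : ZI := x * pr i + b * (y * m) with ha
      have ha1 : m ∣ a - 1 := ⟨b * y - y, by rw [ha]; linear_combination hxy⟩
      have ha2 : pr i ∣ a - b := ⟨x - b * x, by rw [ha]; linear_combination b * hxy⟩
      have h8a : f7 ∣ a - 1 := (dvd_mul_right _ _).trans ha1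
      have hpa : prim a := by
        rw [prim_iff_dvd]
        exact (show two2 ∣ f7 from ⟨4, by decide⟩).trans h8a
      have hra' : wo σ a = 1 := by
        rw [wo_per σ hpa prim_one h8a, wo_one]
      have hch : c4 pr V e a = q4 (pr i) b ^ e i := by
        unfold c4
        rw [← Finset.mul_prod_erase V _ hi, fe_per (hp.pp i) _ ha2, Finset.prod_eq_one, mul_one]
        · unfold fe
          rw [if_neg hb.1]
        · intro j hj
          have h3 : pr j ∣ a - 1 := by
            refine (dvd_DD hj).trans ((dvd_mul_left _ _).trans ha1)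
          rw [fe_per (hp.pp j) _ h3, fe_unit (hp.pp j) _ (by decide), one_pow]
      have hnz : ∀ j ∈ V, ¬ pr j ∣ a := by
        intro j hj hd'
        have h5 := c4_zero (pr := pr) e hj hd'
        rw [hch] at h5
        have h6 := q4_norm (hp.pp i) hb.1
        have h7 : q4 (pr i) b = 0 := by
          by_contra h8
          exact (pow_ne_zero _ h8) h5
        rw [h7] at h6
        exact absurd h6 (by decide)
      refine ⟨a, ?_, hdm.trans ha1, ?_⟩
      · rw [cop_f7 hp V]
        exact ⟨prim_norm_odd hpa, hnz⟩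
      · rw [XO_prim σ hp V e hpa, hch, hra', one_mul]
        intro h5
        apply hb.2
        apply tc_inj
        rw [tc_one]
        have := congrArg (starRingEnd ℂ) h5
        rwa [Complex.conj_conj, map_one] at this
    · push Not at hB
      have hD1 : DD pr V ∣ d := by
        unfold DD
        refine Finset.prod_dvd_of_coprime ?_ hB
        intro i _ j _ hij
        exact (hp.pp i).cop (hp.pp j) fun h => hij (hp.inj h)
      obtain ⟨f, hf⟩ := hD1
      have he2 : f ∣ f7 := by
        rw [hf, mul_comm f7] at hd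
        exact (mul_dvd_mul_iff_left (DD_ne hp V)).1 hd
      have he3 : ¬ f7 ∣ f := by
        intro h
        apply hnd
        rw [hf, mul_comm f7]
        exact mul_dvd_mul_left _ h
      have he4 : f ∣ pi1 ^ 6 := by
        rw [f7_eq_pi] at he2
        have hu : IsUnit (⟨0, 1⟩ : ZI) := IsUnit.of_mul_eq_one ⟨0, -1⟩ (by decide)
        have he5 : f ∣ pi1 ^ 7 := (hu.dvd_mul_right).1 he2
        obtain ⟨k, hk, hk2⟩ := (dvd_prime_pow pi1_prime 7).1 he5
        have hk3 : k ≠ 7 := by
          rintro rfl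
          apply he3
          rw [f7_eq_pi]
          exact (hu.mul_right_dvd).2 hk2.symm.dvd
        have hk4 : pi1 ^ k ∣ pi1 ^ 6 := pow_dvd_pow _ (by omega)
        exact hk2.dvd.trans hk4
      have hDp := DD_prim hp V
      -- an element which is one modulo `D` and `1 + 8 i` modulo `f7`
      set D := DD pr V with hD
      set a : ZI := 1 + pi1 ^ 6 * D with ha
      have haD : D ∣ a - 1 := ⟨pi1 ^ 6, by rw [ha]; ring⟩
      have hpi : (pi1 ^ 6 : ZI) = ⟨0, -8⟩ := by decide
      have q3 : a.re = 1 + 8 * D.im := by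
        rw [ha, hpi]
        simp only [Zsqrtd.re_add, re_mul', Zsqrtd.re_one]
        ring
      have q4 : a.im = -8 * D.re := by
        rw [ha, hpi]
        simp only [Zsqrtd.im_add, im_mul', Zsqrtd.im_one]
        ring
      have hCa : prim a := by
        rw [prim_iff_dvd]
        exact ⟨⟨-2, -2⟩ * D, by
          rw [ha, hpi]
          have e7 : (⟨0, -8⟩ : ZI) = two2 * ⟨-2, -2⟩ := by decide
          rw [e7]; ring⟩
      have hra : wo σ a = -1 := by
        obtain ⟨h1, h2⟩ := hDp
        obtain ⟨x, hx⟩ : ∃ x, D.im = 2 * x := ⟨D.im / 2, by omega⟩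
        obtain ⟨y, hy⟩ : ∃ y, D.re = 2 * y + 1 := ⟨D.re / 2, by omega⟩
        have h3 : a.norm = 1 + 16 * (2 * x + 16 * x ^ 2 + 4 * (2 * y + 1) ^ 2) := by
          rw [norm_def', q3, q4, hx, hy]
          ring
        have h4 := nrm_cast a
        have h5 : wq a % 4 = 0 := by
          unfold wq
          omega
        have h6 : (xl a : ℤ) = (2 * (2 * x) - 2 * (2 * y + 1) - (-4 * (2 * y + 1)) -
            (-4 * (2 * y + 1)) ^ 2) % 4 := by
          apply xl_of
          · rw [q3, hx]; ring
          · rw [q4, hy]; ring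
        have h7 : xl a = 2 := by
          have e8 : (2 * (2 * x) - 2 * (2 * y + 1) - (-4 * (2 * y + 1)) - (-4 * (2 * y + 1)) ^ 2 : ℤ) =
              2 + 4 * (x + y - 4 * (2 * y + 1) ^ 2) := by ring
          rw [e8] at h6
          omega
        unfold wo
        rw [unit_pow_mod im1_norm (n := 2)]
        · decide
        · rw [h7, Nat.add_mod, Nat.mul_mod, h5, Nat.mul_zero]
      have hca : c4 pr V e a = 1 := by
        rw [← c4_one hp V e]
        exact c4_per hp V e haD
      have hX : XO σ hp V e a = -1 := by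
        rw [XO_prim σ hp V e hCa, hra, hca, mul_one, tc_neg, tc_one, map_neg, map_one]
      refine ⟨a, ?_, ?_, ?_⟩
      · rw [cop_f7 hp V]
        refine ⟨prim_norm_odd hCa, fun j hj hd' => ?_⟩
        have h4 : pr j ∣ a - 1 := (dvd_DD hj).trans haD
        have h5 := dvd_sub hd' h4
        rw [sub_sub_cancel] at h5
        exact (hp.pp j).pr.not_isUnit (isUnit_of_dvd_one h5)
      · obtain ⟨g, hg⟩ := he4
        rw [hf]
        exact ⟨g, by rw [ha]; linear_combination D * hg⟩
      · rw [hX]
        norm_num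


theorem sum_XO {σ : ℕ} (hp : PF pr) {V : Finset ι} {e : ι → ℕ}
    (he : ∀ i ∈ V, e i % 4 ≠ 0) {δ : ℝ} (hδ : 0 < δ) :
    ∑' a : ZI, XO σ hp V e a * (starRingEnd ℂ) (fd δ (tc a)) =
      4 * (starRingEnd ℂ) (RS (cco σ pr V e) δ) := by
  classical
  obtain ⟨L, Ω, hGL⟩ := exists_lat
  have H := XO_HC (σ := σ) hp he
  have hs : Summable (fun a : ZI => XO σ hp V e a * (starRingEnd ℂ) (fd δ (tc a))) := by
    refine Summable.of_norm_bounded (summ_tc hGL.lat hδ).norm fun a => ?_
    rw [norm_mul, RCLike.norm_conj]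
    exact mul_le_of_le_one_left (norm_nonneg _) (chi_le _ _ H a)
  rw [sum_units hs]
  · congr 1
    unfold RS
    rw [Complex.conj_tsum]
    refine tsum_congr fun a => ?_
    unfold cco
    by_cases ha : prim a
    · rw [if_pos ha, if_pos ha, XO_prim σ hp V e ha, map_mul]
    · rw [if_neg ha, if_neg ha, zero_mul, map_zero]
  · intro a
    have h1 : XO σ hp V e im1 = -I := H.unit
    rw [map_mul, h1, tc_mul, tc_im1, fd_mul]
    have h2 : Complex.normSq I = 1 := by simp
    rw [h2, mul_one, map_mul, map_inv₀, Complex.conj_I]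
    have h3 : (-I : ℂ)⁻¹ = I := by
      rw [inv_neg, Complex.inv_I, neg_neg]
    rw [h3]
    linear_combination (-(XO σ hp V e a * (starRingEnd ℂ) (fd δ (tc a)))) * I_sq
  · intro a ha
    rw [XO_apply, un_even ha, tc_zero]
    simp

/-- the central value is the conjugate of the limit -/
theorem LH_eqO {σ : ℕ} (hp : PF pr) {V : Finset ι} {e : ι → ℕ}
    (he : ∀ i ∈ V, e i % 4 ≠ 0) {l : ℂ} (hl : Tendsto (RS (cco σ pr V e)) (𝓝[>] 0) (𝓝 l)) :
    LH (XO σ hp V e) (1 / 2) = (starRingEnd ℂ) l := by
  have h1 := center (XO_HC (σ := σ) hp he)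
  have h2 : Tendsto (fun δ : ℝ => 4 * (starRingEnd ℂ) (RS (cco σ pr V e) (Real.pi * δ))) (𝓝[>] 0)
      (𝓝 (4 * (starRingEnd ℂ) l)) := by
    have h3 := tendsto_scale hl Real.pi_pos
    have h4 := (Complex.continuous_conj.tendsto l).comp h3
    have h5 := h4.const_mul 4
    refine h5.congr fun δ => ?_
    simp only [Function.comp_apply]
    rw [mul_comm δ]
  have h3 := tendsto_nhds_unique h1 (h2.congr' (by
    filter_upwards [self_mem_nhdsWithin] with δ (hδ : 0 < δ)
    exact (sum_XO (σ := σ) hp he (by positivity)).symm))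
  exact mul_left_cancel₀ (by norm_num) h3

/-- **module D2.2** -/
theorem heco : S_HECO := by
  intro σ ι _ pr hp V e he
  exact ⟨XO σ hp V e, XO_HC (σ := σ) hp he, fun a ha => XO_prim σ hp V e ha, fun l hl => LH_eqO (σ := σ) hp he hl⟩

/-! ### removing an Euler factor -/

lemma cco_bd (σ : ℕ) (hp : PF pr) (V : Finset ι) (e : ι → ℕ) (a : ZI) : ‖cco σ pr V e a‖ ≤ 1 := by
  unfold cco
  split_ifs
  · rw [tc_mul, norm_mul, unit_tc (wo_norm σ a), one_mul]
    exact c4_bd hp V e a
  · rw [norm_zero]; norm_num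

lemma cco_mul (σ : ℕ) (hp : PF pr) {V : Finset ι} {e : ι → ℕ} {a b : ZI} (ha : prim a) :
    cco σ pr V e (a * b) = tc (wo σ a * c4 pr V e a) * cco σ pr V e b := by
  unfold cco
  by_cases hb : prim b
  · rw [if_pos (prim_mul ha hb), if_pos hb, wo_mul σ ha hb,
      c4_mul hp, ← tc_mul]
    congr 1
    ring
  · rw [if_neg (fun h => hb (prim_cancel ha h)), if_neg hb, mul_zero]

/-- removing a prime with trivial exponent -/
lemma cco_erase (σ : ℕ) (hp : PF pr) {V : Finset ι} {e : ι → ℕ} {k : ι} (hk : k ∈ V)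
    (hek : e k % 4 = 0) (a : ZI) : cco σ pr V e a = cco σ pr (V.erase k) e a -
      (open Classical in if pr k ∣ a then cco σ pr (V.erase k) e a else 0) := by
  classical
  have h1 : c4 pr V e a = fe (pr k) (e k) a * c4 pr (V.erase k) e a := by
    unfold c4
    exact (Finset.mul_prod_erase V _ hk).symm
  by_cases hd : pr k ∣ a
  · rw [if_pos hd, sub_self]
    unfold cco
    rw [h1, fe_zero _ hd, zero_mul, mul_zero, tc_zero]
    simp
  · rw [if_neg hd, sub_zero]
    have h2 : fe (pr k) (e k) a = 1 := by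
      unfold fe
      rw [if_neg hd, unit_pow_mod (q4_norm (hp.pp k) hd) (n := 0) (by omega), pow_zero]
    unfold cco
    rw [h1, h2, one_mul]

/-- **module D2.3b** -/
theorem eulo : S_EULO := by
  intro σ ι _ pr hp V e k hk hek l hl
  classical
  obtain ⟨L, Ω, hGL⟩ := exists_lat
  have hL := hGL.lat
  set π := pr k with hπ
  have hC : prim π := (hp.pp k).prm
  have hπ0 : π ≠ 0 := (hp.pp k).ne
  have hπc := tc_ne hπ0
  set K : ℂ := tc (wo σ π * c4 pr (V.erase k) e π) with hK
  have hn : 0 < Complex.normSq (tc π) := Complex.normSq_pos.2 hπc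
  have h1 := tendsto_scale hl hn
  have h2 : Tendsto (fun δ : ℝ => RS (cco σ pr (V.erase k) e) δ -
      K / tc π * RS (cco σ pr (V.erase k) e) (δ * Complex.normSq (tc π))) (𝓝[>] 0)
      (𝓝 (l - K / tc π * l)) := hl.sub (h1.const_mul _)
  have e1 : l - K / tc π * l = (1 - K / tc π) * l := by ring
  rw [← e1]
  refine h2.congr' ?_
  filter_upwards [self_mem_nhdsWithin] with δ (hδ : 0 < δ)
  have hs1 : Summable (fun a : ZI => cco σ pr (V.erase k) e a * fd δ (tc a)) :=
    summ_bd hL hδ (cco_bd σ hp _ e)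
  have hs2 : Summable (fun a : ZI => (if pr k ∣ a then cco σ pr (V.erase k) e a else 0) *
      fd δ (tc a)) := by
    refine summ_bd hL hδ (C := 1) fun a => ?_
    split_ifs
    · exact cco_bd σ hp _ e a
    · rw [norm_zero]; norm_num
  have h3 : RS (cco σ pr V e) δ = RS (cco σ pr (V.erase k) e) δ -
      ∑' a : ZI, (if pr k ∣ a then cco σ pr (V.erase k) e a else 0) * fd δ (tc a) := by
    unfold RS
    rw [← hs1.tsum_sub hs2]
    refine tsum_congr fun a => ?_
    rw [cco_erase σ hp hk hek a]
    ring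
  rw [h3]
  congr 1
  have hinj : Function.Injective (fun b : ZI => π * b) := fun a b hab => mul_left_cancel₀ hπ0 hab
  rw [← hinj.tsum_eq]
  · unfold RS
    rw [← tsum_mul_left]
    refine tsum_congr fun b => ?_
    have h4 : pr k ∣ π * b := dvd_mul_right _ _
    have h5 : tc (π * b) = tc π * tc b := tc_mul _ _
    rw [if_pos h4, cco_mul σ hp hC, h5, fd_mul, ← hK]
    field_simp
  · intro a ha
    rw [Function.mem_support] at ha
    have h4 : pr k ∣ a := by
      by_contra hc
      rw [if_neg hc, zero_mul] at ha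
      exact ha rfl
    obtain ⟨b, hb⟩ := h4
    exact ⟨b, hb.symm⟩

end Pool.Agent.D0H43.Q4.O
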