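import Pool.Agent.D0H52.Q4.Lim1
import Pool.Agent.D0H43.Q4.HecO

/-!
Project Q4, module D2.3: the limits of the regularised sums for the twists `y² = x³ + D x`,
`D = i ^ σ (1 + i) Δ`.
-/

set_option autoImplicit false

open Filter Complex
open scoped Topology PeriodPair
open H667R3 hiding sq
open Pool.Agent.TH936.CM Pool.Agent.W192.HK

namespace Pool.Agent.D0H43.Q4.O

open H385 (ZI RQ im1 nrm)
open Pool.Agent.H304R3.HK (tc HC LH)
open Pool.Agent.W164.RC (tc_mul)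
open Pool.Agent.H304R2.EC.A1 (prim prim_ne_zero prim_mul prim_cancel prim_star re_mul' im_mul')
open Pool.Agent.Y699 hiding wi
open Pool.Agent.D0H10.Q4 Pool.Agent.D0H43.Q4
open Pool.Agent.D0H52.Q4 (EA lim_EA)
open Pool.Agent.D0H52.Q4.One (EB lim_EB)

variable {L : PeriodPair} {Ω s : ℂ} {ι : Type} [DecidableEq ι] {pr : ι → ZI}

/-! ### the limits -/

/-- the alternating sum over the half periods -/
noncomputable def EX (σ : ℕ) (Ω : ℂ) (δ : ℝ) (w : ℂ) : ℂ :=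
  if σ % 2 = 0 then EA Ω δ w else EB Ω δ w

lemma lim_EX (σ : ℕ) (h : NL L Ω s) {w : ℂ} (hw : 2 * w ∉ L.lattice) :
    Tendsto (fun δ : ℝ => EX σ Ω δ w) (𝓝[>] 0) (𝓝 (PO σ L w)) := by
  unfold EX PO
  by_cases hσ : σ % 2 = 0
  · simp only [if_pos hσ]
    exact lim_EA h hw
  · simp only [if_neg hσ]
    exact lim_EB h hw

/-- the shifts by the half periods -/
def jr (j : Fin 4) : ℤ := ![0, 4, -4, 0] j
def ji (j : Fin 4) : ℤ := ![0, 4, 4, 8] j

/-- the classes modulo `f7` -/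
def cl (p : (Fin 2 × Fin 2) × Fin 4) : ZI :=
  ⟨1 + 2 * ((p.1.1 : ℕ) : ℤ) + 4 * ((p.1.2 : ℕ) : ℤ) + jr p.2, 2 * ((p.1.1 : ℕ) : ℤ) + ji p.2⟩

/-- the exponents of the weight of a class -/
def xc (σ : ℕ) (p : (Fin 2 × Fin 2) × Fin 4) : ℕ :=
  (3 * σ + 3) * (p.1.1 : ℕ) + (2 * σ + 1) * (p.1.2 : ℕ) + ![0, 2 * σ, 2 * σ + 2, 2] p.2

/-- the sum over the classes modulo `f7` -/
noncomputable def EO (σ : ℕ) (Ω : ℂ) (δ : ℝ) (z : ℂ) : ℂ :=
  ∑ p : (Fin 2 × Fin 2) × Fin 4, I ^ xc σ p * EG Ω δ (Ω * tc (cl p) / tc f7 + z)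

lemma tc_f7 : tc f7 = 8 * (1 + I) := by
  unfold tc f7
  push_cast
  ring

lemma inv_f7 : (tc f7)⁻¹ = (1 - I) / 16 := by
  rw [tc_f7, inv_eq_iff_eq_inv, inv_div, eq_div_iff]
  · linear_combination (-8 : ℂ) * I_sq
  · intro h
    have := congrArg Complex.re h
    simp at this

lemma divf (x : ℂ) : x / tc f7 = x * ((1 - I) / 16) := by
  rw [div_eq_mul_inv, inv_f7]

lemma EO_eq (σ : ℕ) (δ : ℝ) (z : ℂ) : EO σ Ω δ z = EX σ Ω δ (z + (1 - I) * (Ω / 16)) +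
    I ^ (2 * σ + 1) * EX σ Ω δ (z + (1 - I) * (Ω / 16) + (1 - I) * (Ω / 4)) +
    I ^ (3 * σ + 3) * (EX σ Ω δ (z + (1 - I) * (Ω / 16) + Ω / 4) +
      I ^ (2 * σ + 1) * EX σ Ω δ (z + (1 - I) * (Ω / 16) + Ω / 4 + (1 - I) * (Ω / 4))) := by
  have hs : Ω * tc 1 / tc pi1 = Ω * (1 - I) / 2 := by
    rw [tc_one, tc_pi1, mul_one, div_eq_mul_inv, inv_one_I]
    ring
  have hX : ∀ w, EX σ Ω δ w = EG Ω δ w + I ^ (2 * σ) * EG Ω δ (w + Ω / 2) +
      I ^ (2 * σ + 2) * EG Ω δ (w + I * (Ω / 2)) + I ^ 2 * EG Ω δ (w + (1 + I) * (Ω / 2)) := by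
    intro w
    have e5 : w + I * (Ω * (1 - I) / 2) = w + (1 + I) * (Ω / 2) := by
      linear_combination (-(Ω / 2)) * I_sq
    unfold EX
    by_cases hσ : σ % 2 = 0
    · obtain ⟨τ, hτ⟩ : ∃ τ, σ = 2 * τ := ⟨σ / 2, by omega⟩
      have h4 : (I : ℂ) ^ (2 * σ) = 1 := by
        rw [pow_mul, I_sq, hτ, pow_mul]
        norm_num
      rw [if_pos hσ]
      unfold EA
      rw [hs, pow_add, h4, e5, I_sq]
      ring
    · obtain ⟨τ, hτ⟩ : ∃ τ, σ = 2 * τ + 1 := ⟨σ / 2, by omega⟩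
      have h4 : (I : ℂ) ^ (2 * σ) = -1 := by
        rw [pow_mul, I_sq, hτ, pow_succ, pow_mul]
        norm_num
      rw [if_neg hσ]
      unfold EB
      rw [hs, pow_add, h4, e5, I_sq]
      ring
  have hcl : ∀ p : (Fin 2 × Fin 2) × Fin 4, Ω * tc (cl p) / tc f7 + z =
      z + (1 - I) * (Ω / 16) + ((p.1.1 : ℕ) : ℂ) * (Ω / 4) + ((p.1.2 : ℕ) : ℂ) * ((1 - I) * (Ω / 4)) +
        ![0, Ω / 2, I * (Ω / 2), (1 + I) * (Ω / 2)] p.2 := by
    rintro ⟨⟨i, k⟩, j⟩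
    rw [div_eq_mul_inv, inv_f7]
    unfold cl tc jr ji
    simp only
    fin_cases j
    · simp
      linear_combination (-(Ω * (i : ℕ) / 8)) * I_sq
    · simp
      linear_combination (-(Ω * (i : ℕ) / 8) - Ω / 4) * I_sq
    · simp
      linear_combination (-(Ω * (i : ℕ) / 8) - Ω / 4) * I_sq
    · simp
      linear_combination (-(Ω * (i : ℕ) / 8) - Ω / 2) * I_sq
  unfold EO
  simp only [hcl, hX]
  rw [Fintype.sum_prod_type, Fintype.sum_prod_type, Fin.sum_univ_two, Fin.sum_univ_two, Fin.sum_univ_two]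
  simp only [Fin.sum_univ_four]
  unfold xc
  simp only [Fin.val_zero, Fin.val_one, Matrix.cons_val_zero, Matrix.cons_val_one, Matrix.cons_val,
    Nat.cast_zero, Nat.cast_one, zero_mul, one_mul, mul_zero, mul_one, add_zero, zero_add, pow_zero,
    pow_add]
  ring

lemma zq_twoO (h : IsLat L RG Ω) {D : ZI} (hD : prim D) (t : ZI) {c : ZI} (h1 : c.re % 2 = 1)
    (h2 : c.im % 2 = 0) : 2 * (zq Ω D t + Ω * tc c / tc f7) ∉ L.lattice := by
  have hD0 : D ≠ 0 := prim_ne_zero hD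
  have hDc := tc_ne hD0
  have hf0 : tc f7 ≠ 0 := tc_ne (by decide)
  have h4D : (⟨4, 4⟩ : ZI) * D ≠ 0 := mul_ne_zero (by decide) hD0
  have key : ¬ (⟨4, 4⟩ * D : ZI) ∣ (f7 * t + D * c) := by
    intro h'
    have h1' : (4 : ZI) ∣ f7 * t + D * c :=
      ((show (4 : ZI) ∣ ⟨4, 4⟩ from ⟨⟨1, 1⟩, by decide⟩).trans (dvd_mul_right _ _)).trans h'
    obtain ⟨u, hu⟩ := h1'
    have hr := congrArg Zsqrtd.re hu
    rw [Zsqrtd.re_add, re_mul', re_mul', re_mul'] at hr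
    have e1 : f7.re = 8 := rfl
    have e2 : f7.im = 8 := rfl
    have e3 : (4 : ZI).re = 4 := rfl
    have e4 : (4 : ZI).im = 0 := rfl
    rw [e1, e2, e3, e4] at hr
    obtain ⟨d1, d2⟩ := hD
    obtain ⟨x, hx⟩ : ∃ x, D.re = 1 + 2 * x := ⟨D.re / 2, by omega⟩
    obtain ⟨y, hy⟩ : ∃ y, D.im = 2 * y := ⟨D.im / 2, by omega⟩
    rw [hx, hy] at hr
    have e5 : (1 + 2 * x) * c.re - 2 * y * c.im = c.re + 2 * (x * c.re - y * c.im) := by ring
    omega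
  have h3 := div_notMem h h4D key
  have e : Ω * tc (f7 * t + D * c) / tc (⟨4, 4⟩ * D) = 2 * (zq Ω D t + Ω * tc c / tc f7) := by
    have e6 : tc f7 = 2 * tc ⟨4, 4⟩ := by
      unfold tc f7
      push_cast
      ring
    have e7 : tc (⟨4, 4⟩ : ZI) ≠ 0 := tc_ne (by decide)
    unfold zq
    rw [tc_add, tc_mul, tc_mul, tc_mul, e6]
    field_simp
  rwa [e] at h3

lemma lim_EO (σ : ℕ) (h : NL L Ω s) {D : ZI} (hD : prim D) (t : ZI) :
    Tendsto (fun δ : ℝ => EO σ Ω δ (zq Ω D t)) (𝓝[>] 0) (𝓝 (GO σ L Ω (zq Ω D t))) := by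
  have hL := h.gl.lat
  have q : ∀ c : ZI, c.re % 2 = 1 → c.im % 2 = 0 → ∀ w : ℂ, w = zq Ω D t + Ω * tc c / tc f7 →
      Tendsto (fun δ : ℝ => EX σ Ω δ w) (𝓝[>] 0) (𝓝 (PO σ L w)) := by
    rintro c h1 h2 w rfl
    exact lim_EX σ h (zq_twoO hL hD t h1 h2)
  have l1 := q 1 (by decide) (by decide) (zq Ω D t + (1 - I) * (Ω / 16)) (by
    rw [divf, tc_one]; ring)
  have l2 := q ⟨5, 0⟩ (by decide) (by decide) (zq Ω D t + (1 - I) * (Ω / 16) + (1 - I) * (Ω / 4)) (by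
    rw [divf]
    unfold tc; push_cast; ring)
  have l3 := q ⟨3, 2⟩ (by decide) (by decide) (zq Ω D t + (1 - I) * (Ω / 16) + Ω / 4) (by
    rw [divf]
    unfold tc; push_cast; linear_combination (Ω / 8) * I_sq)
  have l4 := q ⟨7, 2⟩ (by decide) (by decide)
    (zq Ω D t + (1 - I) * (Ω / 16) + Ω / 4 + (1 - I) * (Ω / 4)) (by
    rw [divf]
    unfold tc; push_cast; linear_combination (Ω / 8) * I_sq)
  have l := (l1.add (l2.const_mul (I ^ (2 * σ + 1)))).add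
    ((l3.add (l4.const_mul (I ^ (2 * σ + 1)))).const_mul (I ^ (3 * σ + 3)))
  exact l.congr fun δ => (EO_eq σ δ _).symm

/-! ### the representatives -/

lemma cl_prim (p : (Fin 2 × Fin 2) × Fin 4) : prim (cl p) := by
  obtain ⟨⟨i, k⟩, j⟩ := p
  unfold prim cl jr ji
  simp only
  fin_cases j <;> simp <;> omega

/-- the inverse modulo `f7` -/
lemma inv_seven {D : ZI} (hD : prim D) : ∃ E : ZI, prim E ∧ f7 ∣ D * E - 1 := by
  obtain ⟨d1, d2⟩ := hD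
  obtain ⟨y, hy⟩ : ∃ y, D.im = 2 * y := ⟨D.im / 2, by omega⟩
  obtain ⟨x, hx⟩ : ∃ x, D.re = 1 + 4 * x - 2 * y := ⟨(D.re + D.im) / 4, by omega⟩
  obtain ⟨n, hn⟩ : ∃ n : ℤ, D.re ^ 2 + D.im ^ 2 = 1 + 4 * n :=
    ⟨2 * x - y + 4 * x ^ 2 - 4 * x * y + 2 * y ^ 2, by rw [hx, hy]; ring⟩
  refine ⟨⟨(1 - 4 * n) * D.re, -((1 - 4 * n) * D.im)⟩, ?_, ?_⟩
  · unfold prim
    rw [hx, hy]
    constructor
    · show -((1 - 4 * n) * (2 * y)) % 2 = 0
      have e : (1 - 4 * n) * (2 * y) = 2 * ((1 - 4 * n) * y) := by ring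
      omega
    · show ((1 - 4 * n) * (1 + 4 * x - 2 * y) + -((1 - 4 * n) * (2 * y))) % 4 = 1
      have e : (1 - 4 * n) * (1 + 4 * x - 2 * y) + -((1 - 4 * n) * (2 * y)) =
          1 + 4 * (x - n - 4 * n * x - y + 4 * n * y) := by ring
      omega
  · refine ⟨⟨-n ^ 2, n ^ 2⟩, ?_⟩
    have e1 : f7.re = 8 := rfl
    have e2 : f7.im = 8 := rfl
    ext
    · rw [Zsqrtd.re_sub, re_mul', re_mul', Zsqrtd.re_one, e1, e2]
      simp only
      linear_combination (1 - 4 * n) * hn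
    · rw [Zsqrtd.im_sub, im_mul', im_mul', Zsqrtd.im_one, e1, e2]
      simp only
      ring

/-- the parametrisation of the representatives -/
def pm (D : ZI) (p : ((Fin 2 × Fin 2) × Fin 4) × ZI) : ZI := D * cl p.1 + f7 * p.2

lemma pm_inj {D : ZI} (hD : prim D) : Function.Injective (pm D) := by
  obtain ⟨E, -, hE⟩ := inv_seven hD
  rintro ⟨⟨⟨i, k⟩, j⟩, a⟩ ⟨⟨⟨i', k'⟩, j'⟩, a'⟩ hab
  unfold pm at hab
  simp only at hab
  have h1 : f7 ∣ cl ((i, k), j) - cl ((i', k'), j') := by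
    have h2 : f7 ∣ D * (cl ((i, k), j) - cl ((i', k'), j')) := ⟨a' - a, by linear_combination hab⟩
    have h3 := (h2.mul_left E).sub (hE.mul_right (cl ((i, k), j) - cl ((i', k'), j')))
    have e : E * (D * (cl ((i, k), j) - cl ((i', k'), j'))) - (D * E - 1) *
        (cl ((i, k), j) - cl ((i', k'), j')) = cl ((i, k), j) - cl ((i', k'), j') := by ring
    rwa [e] at h3
  have h2 : i = i' ∧ k = k' ∧ j = j' := by
    obtain ⟨c, hc⟩ := h1
    have h3 := congrArg Zsqrtd.re hc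
    have h4 := congrArg Zsqrtd.im hc
    rw [Zsqrtd.re_sub, re_mul'] at h3
    rw [Zsqrtd.im_sub, im_mul'] at h4
    have e1 : f7.re = 8 := rfl
    have e2 : f7.im = 8 := rfl
    rw [e1, e2] at h3 h4
    unfold cl jr ji at h3 h4
    simp only at h3 h4
    have := i.isLt
    have := i'.isLt
    have := k.isLt
    have := k'.isLt
    refine ⟨?_, ?_, ?_⟩
    · apply Fin.ext
      fin_cases j <;> fin_cases j' <;> simp at h3 h4 <;> omega
    · apply Fin.ext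
      fin_cases j <;> fin_cases j' <;> simp at h3 h4 <;> omega
    · fin_cases j <;> fin_cases j' <;> simp at h3 h4 ⊢ <;> omega
  obtain ⟨rfl, rfl, rfl⟩ := h2
  have h3 : f7 * a = f7 * a' := by linear_combination hab
  rw [mul_left_cancel₀ (by decide) h3]

lemma prim_add {a t : ZI} : prim (a + f7 * t) ↔ prim a := by
  unfold prim
  have e1 : f7.re = 8 := rfl
  have e2 : f7.im = 8 := rfl
  have e : (a + f7 * t).im = a.im + 8 * t.re + 8 * t.im := by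
    rw [Zsqrtd.im_add, im_mul', e1, e2]; ring
  have e' : (a + f7 * t).re = a.re + 8 * t.re - 8 * t.im := by
    rw [Zsqrtd.re_add, re_mul', e1, e2]; ring
  rw [e, e']
  omega

lemma pm_prim {D : ZI} (hD : prim D) (p : ((Fin 2 × Fin 2) × Fin 4) × ZI) : prim (pm D p) :=
  prim_add.2 (prim_mul hD (cl_prim p.1))

lemma cl_surj {b : ZI} (hb : prim b) : ∃ p t, b = cl p + f7 * t := by
  obtain ⟨b1, b2⟩ := hb
  have e1 : f7.re = 8 := rfl
  have e2 : f7.im = 8 := rfl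
  obtain ⟨i, Y, hY⟩ : ∃ i : Fin 2, ∃ Y, b.im = 2 * ((i : ℕ) : ℤ) + 4 * Y := by
    refine ⟨⟨(b.im / 2 % 2).toNat, by omega⟩, b.im / 4, ?_⟩
    simp only
    omega
  obtain ⟨X, hX⟩ : ∃ X, b.re = 1 + 2 * ((i : ℕ) : ℤ) + 4 * X := by
    have := i.isLt
    exact ⟨(b.re - 1 - 2 * ((i : ℕ) : ℤ)) / 4, by omega⟩
  obtain ⟨k, Z, hZ⟩ : ∃ k : Fin 2, ∃ Z, X + Y = ((k : ℕ) : ℤ) + 2 * Z :=
    ⟨⟨((X + Y) % 2).toNat, by omega⟩, (X + Y) / 2, by simp only; omega⟩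
  -- `Z = (X + Y - k) / 2`, `Z' = (Y - X + k) / 2 = Y - Z`
  have main : ∀ j : Fin 4, ∀ u v : ℤ, 4 * X - 4 * ((k : ℕ) : ℤ) - jr j = 8 * (u - v) →
      4 * Y - ji j = 8 * (u + v) → ∃ p t, b = cl p + f7 * t := by
    intro j u v h3 h4
    refine ⟨((i, k), j), ⟨u, v⟩, ?_⟩
    ext
    · rw [Zsqrtd.re_add, re_mul', e1, e2, hX]
      show _ = (1 + 2 * ((i : ℕ) : ℤ) + 4 * ((k : ℕ) : ℤ) + jr j) + (8 * u - 8 * v)
      linear_combination h3
    · rw [Zsqrtd.im_add, im_mul', e1, e2, hY]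
      show _ = (2 * ((i : ℕ) : ℤ) + ji j) + (8 * v + 8 * u)
      linear_combination h4
  have hX2 : X = ((k : ℕ) : ℤ) + 2 * Z - Y := by omega
  rcases Int.emod_two_eq_zero_or_one Z with hz | hz <;>
    rcases Int.emod_two_eq_zero_or_one (Y - Z) with hy | hy
  · obtain ⟨u, hu⟩ : ∃ u, Z = 2 * u := ⟨Z / 2, by omega⟩
    obtain ⟨v, hv⟩ : ∃ v, Y - Z = 2 * v := ⟨(Y - Z) / 2, by omega⟩
    refine main 0 u v ?_ ?_
    · show 4 * X - 4 * ((k : ℕ) : ℤ) - 0 = _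
      omega
    · show 4 * Y - 0 = _
      omega
  · obtain ⟨u, hu⟩ : ∃ u, Z = 2 * u := ⟨Z / 2, by omega⟩
    obtain ⟨v, hv⟩ : ∃ v, Y - Z = 2 * v + 1 := ⟨(Y - Z) / 2, by omega⟩
    refine main 2 u v ?_ ?_
    · show 4 * X - 4 * ((k : ℕ) : ℤ) - (-4) = _
      omega
    · show 4 * Y - 4 = _
      omega
  · obtain ⟨u, hu⟩ : ∃ u, Z = 2 * u + 1 := ⟨Z / 2, by omega⟩
    obtain ⟨v, hv⟩ : ∃ v, Y - Z = 2 * v := ⟨(Y - Z) / 2, by omega⟩
    refine main 1 u v ?_ ?_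
    · show 4 * X - 4 * ((k : ℕ) : ℤ) - 4 = _
      omega
    · show 4 * Y - 4 = _
      omega
  · obtain ⟨u, hu⟩ : ∃ u, Z = 2 * u + 1 := ⟨Z / 2, by omega⟩
    obtain ⟨v, hv⟩ : ∃ v, Y - Z = 2 * v + 1 := ⟨(Y - Z) / 2, by omega⟩
    refine main 3 u v ?_ ?_
    · show 4 * X - 4 * ((k : ℕ) : ℤ) - 0 = _
      omega
    · show 4 * Y - 8 = _
      omega

lemma pm_surj {D : ZI} (hD : prim D) {a : ZI} (ha : prim a) : ∃ p, pm D p = a := by
  obtain ⟨E, hEC, hE⟩ := inv_seven hD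
  obtain ⟨p, t, h1⟩ := cl_surj (prim_mul hEC ha)
  obtain ⟨u, hu⟩ := hE
  refine ⟨(p, D * t - u * a), ?_⟩
  unfold pm
  simp only
  have h2 : D * (E * a) = D * cl p + f7 * (D * t) := by rw [h1]; ring
  linear_combination (-1 : ZI) * h2 + a * hu

/-! ### the weights -/

lemma wq_cl (p : (Fin 2 × Fin 2) × Fin 4) :
    wq (cl p) % 4 = (3 * (p.1.1 : ℕ) + 2 * (p.1.2 : ℕ) + ![0, 2, 2, 0] p.2) % 4 := by
  obtain ⟨⟨i, k⟩, j⟩ := p
  fin_cases i <;> fin_cases k <;> fin_cases j <;> rfl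

lemma xl_cl (p : (Fin 2 × Fin 2) × Fin 4) :
    xl (cl p) % 4 = (3 * (p.1.1 : ℕ) + (p.1.2 : ℕ) + ![0, 0, 2, 2] p.2) % 4 := by
  obtain ⟨⟨i, k⟩, j⟩ := p
  fin_cases i <;> fin_cases k <;> fin_cases j <;> rfl

lemma wo_cl (σ : ℕ) (p : (Fin 2 × Fin 2) × Fin 4) : tc (wo σ (cl p)) = I ^ xc σ p := by
  have h1 : wo σ (cl p) = im1 ^ xc σ p := by
    unfold wo
    apply unit_pow_mod im1_norm
    have h2 := wq_cl p
    have h3 := xl_cl p
    have h4 : xc σ p = σ * (3 * (p.1.1 : ℕ) + 2 * (p.1.2 : ℕ) + ![0, 2, 2, 0] p.2) +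
        (3 * (p.1.1 : ℕ) + (p.1.2 : ℕ) + ![0, 0, 2, 2] p.2) := by
      obtain ⟨⟨i, k⟩, j⟩ := p
      unfold xc
      fin_cases j <;> simp <;> ring
    rw [h4, Nat.add_mod, Nat.mul_mod, h2, h3, ← Nat.mul_mod, ← Nat.add_mod]
  rw [h1, Pool.Agent.Y699.tc_pow, tc_im1]

lemma cco_pm (σ : ℕ) (hp : PF pr) (V : Finset ι) (e : ι → ℕ) {D : ZI}
    (hD : prim D) (hDV : DD pr V ∣ D) (p : ((Fin 2 × Fin 2) × Fin 4) × ZI) :
    cco σ pr V e (pm D p) = tc (wo σ D) * (I ^ xc σ p.1 * tc (c4 pr V e (f7 * p.2))) := by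
  unfold cco
  rw [if_pos (pm_prim hD p)]
  have h1 : c4 pr V e (pm D p) = c4 pr V e (f7 * p.2) := by
    apply c4_per hp
    unfold pm
    rw [add_sub_cancel_right]
    exact hDV.mul_right _
  have h2 : wo σ (pm D p) = wo σ D * wo σ (cl p.1) := by
    rw [← wo_mul σ hD (cl_prim p.1)]
    refine wo_per σ (pm_prim hD p) (prim_mul hD (cl_prim p.1)) ⟨p.2, ?_⟩
    unfold pm
    ring
  rw [h1, h2, tc_mul, tc_mul, wo_cl]
  ring

/-! ### the sum over one class modulo `f7` -/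

theorem RS_seven (h : IsLat L RG Ω) {D : ZI} (hD0 : D ≠ 0)
    [Fintype (RQ D)] {F : ZI → ℂ} (hF : ∀ a, ‖F a‖ ≤ 1) (hper : ∀ a b, D ∣ a - b → F a = F b)
    {δ : ℝ} (hδ : 0 < δ) (c : ZI) :
    ∑' t : ZI, F t * fd δ (tc (D * c + f7 * t)) = Ω / (tc D * tc f7) *
      ∑ q : RQ D, F q.out *
        EG Ω (δ * Complex.normSq (tc D * tc f7 / Ω)) (Ω * tc c / tc f7 + zq Ω D q.out) := by
  have hDc := tc_ne hD0
  have hΩ := h.ne
  have t8 : tc f7 ≠ 0 := tc_ne (by decide)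
  have hinj : Function.Injective (fun t : ZI => D * c + f7 * t) := by
    intro a b hab
    have : f7 * a = f7 * b := by
      have h1 : D * c + f7 * a = D * c + f7 * b := hab
      linear_combination h1
    exact mul_left_cancel₀ (by decide) this
  have hs0 : Summable (fun t : ZI => fd δ (tc (D * c + f7 * t))) :=
    (summ_tc h hδ).comp_injective hinj
  have hs1 : Summable (fun t : ZI => F t * fd δ (tc (D * c + f7 * t))) := by
    refine Summable.of_norm_bounded hs0.norm fun t => ?_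
    rw [norm_mul]
    exact mul_le_of_le_one_left (norm_nonneg _) (hF t)
  set k : ℂ := tc D * tc f7 / Ω with hk
  have hk0 : k ≠ 0 := div_ne_zero (mul_ne_zero hDc t8) hΩ
  have hs2 : Summable (fun p : RQ D × ZI =>
      F (prt' D hD0 p) * fd δ (tc (D * c + f7 * prt' D hD0 p))) :=
    ((prt' D hD0).summable_iff (f := fun t => F t * fd δ (tc (D * c + f7 * t)))).2 hs1
  rw [← (prt' D hD0).tsum_eq, hs2.tsum_prod' (fun q => hs2.prod_factor q), tsum_fintype,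
    Finset.mul_sum]
  refine Finset.sum_congr (by ext; simp) fun q _ => ?_
  have e2 : ∀ b : ZI, F (prt' D hD0 (q, b)) = F q.out := by
    intro b
    apply hper
    rw [prt'_apply]
    exact ⟨b, by ring⟩
  unfold EG
  rw [← tsum_mul_left, ← tsum_mul_left]
  refine tsum_congr fun b => ?_
  have e3 : tc (D * c + f7 * prt' D hD0 (q, b)) =
      k * (Ω * tc c / tc f7 + zq Ω D q.out + Ω * tc b) := by
    rw [prt'_apply, tc_add, tc_mul, tc_mul, tc_add, tc_mul, hk]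
    unfold zq
    field_simp
    ring
  rw [e2, e3, fd_mul, hk, inv_div]
  ring

theorem RS_cco (σ : ℕ) (h : IsLat L RG Ω) (hp : PF pr) (V : Finset ι) (e : ι → ℕ)
    [Fintype (RQ (DD pr V))] {δ : ℝ} (hδ : 0 < δ) :
    RS (cco σ pr V e) δ = Ω * tc (wo σ (DD pr V)) / (8 * (1 + I) * tc (DD pr V)) *
      ∑ q : RQ (DD pr V), tc (c4 pr V e (f7 * q.out)) *
        EO σ Ω (δ * Complex.normSq (tc (DD pr V) * tc f7 / Ω)) (zq Ω (DD pr V) q.out) := by
  have hC := DD_prim hp V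
  have hD0 := DD_ne hp V
  have hDc := tc_ne hD0
  have hs : Summable (fun a : ZI => cco σ pr V e a * fd δ (tc a)) :=
    summ_bd h hδ (cco_bd σ hp V e)
  have hs2 : Summable (fun p : ((Fin 2 × Fin 2) × Fin 4) × ZI =>
      cco σ pr V e (pm (DD pr V) p) * fd δ (tc (pm (DD pr V) p))) := hs.comp_injective (pm_inj hC)
  have h1 : RS (cco σ pr V e) δ = ∑' p : ((Fin 2 × Fin 2) × Fin 4) × ZI,
      cco σ pr V e (pm (DD pr V) p) * fd δ (tc (pm (DD pr V) p)) := by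
    unfold RS
    refine ((pm_inj hC).tsum_eq (f := fun a => cco σ pr V e a * fd δ (tc a)) ?_).symm
    intro a ha
    rw [Function.mem_support] at ha
    by_cases hca : prim a
    · exact pm_surj hC hca
    · exfalso
      apply ha
      unfold cco
      rw [if_neg hca, zero_mul]
  rw [h1, hs2.tsum_prod' (fun q => hs2.prod_factor q), tsum_fintype]
  have h2 : ∀ p : (Fin 2 × Fin 2) × Fin 4,
      ∑' t : ZI, cco σ pr V e (pm (DD pr V) (p, t)) * fd δ (tc (pm (DD pr V) (p, t))) =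
      tc (wo σ (DD pr V)) * I ^ xc σ p * (Ω / (tc (DD pr V) * tc f7) *
      ∑ q : RQ (DD pr V), tc (c4 pr V e (f7 * q.out)) *
        EG Ω (δ * Complex.normSq (tc (DD pr V) * tc f7 / Ω))
          (Ω * tc (cl p) / tc f7 + zq Ω (DD pr V) q.out)) := by
    intro p
    rw [← RS_seven h hD0 (F := fun t => tc (c4 pr V e (f7 * t)))
      (fun a => c4_bd hp V e _) (fun a b hab => by
        rw [c4_per hp V e (a := f7 * a) (b := f7 * b) (by rw [← mul_sub]; exact hab.mul_left _)])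
      hδ (cl p), ← tsum_mul_left]
    refine tsum_congr fun t => ?_
    rw [cco_pm σ hp V e hC (dvd_refl _)]
    unfold pm
    simp only
    ring
  rw [Finset.sum_congr rfl fun p _ => h2 p, tc_f7]
  unfold EO
  simp only [Finset.mul_sum]
  rw [Finset.sum_comm]
  refine Finset.sum_congr (by ext; simp) fun q _ => Finset.sum_congr rfl fun p _ => ?_
  rw [tc_f7]
  ring

/-- **module D2.3: the limits of the regularised sums** -/
theorem limo : S_LIMO := by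
  intro σ L Ω s h ι _ pr hp V e
  classical
  have hL := h.gl.lat
  have hD0 := DD_ne hp V
  have hfin := H385.he1_finite hD0
  letI := Fintype.ofFinite (RQ (DD pr V))
  have hC : prim (DD pr V) := DD_prim hp V
  have hDc := tc_ne hD0
  have hc : 0 < Complex.normSq (tc (DD pr V) * tc f7 / Ω) :=
    Complex.normSq_pos.2 (div_ne_zero (mul_ne_zero hDc (tc_ne (by decide))) hL.ne)
  have h1 : Tendsto (fun δ : ℝ => ∑ q : RQ (DD pr V), tc (c4 pr V e (f7 * q.out)) *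
      EO σ Ω δ (zq Ω (DD pr V) q.out)) (𝓝[>] 0)
      (𝓝 (∑ q : RQ (DD pr V), tc (c4 pr V e (f7 * q.out)) *
        GO σ L Ω (zq Ω (DD pr V) q.out))) :=
    tendsto_finsetSum Finset.univ fun q _ => (lim_EO σ h hC q.out).const_mul _
  have h2 := (tendsto_scale h1 hc).const_mul
    (Ω * tc (wo σ (DD pr V)) / (8 * (1 + I) * tc (DD pr V)))
  unfold lvo
  rw [finsum_eq_sum_of_fintype]
  refine h2.congr' ?_
  filter_upwards [self_mem_nhdsWithin] with δ (hδ : 0 < δ)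
  exact (RS_cco σ hL hp V e hδ).symm

end Pool.Agent.D0H43.Q4.O
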