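import Pool.Agent.D0H2.Q4.ValI
import Pool.Agent.D0H10.Q4.Bet1
import Pool.Agent.D0H43.Q4.Stm4

/-!
# Project Q4, module D2.6: valuations of the values
-/

set_option autoImplicit false

open Filter Complex
open scoped Topology PeriodPair

namespace Pool.Agent.D0H43.Q4.O

open H385 (ZI RQ im1 nrm)
open Pool.Agent.H304R3.HK (tc)
open Pool.Agent.Y699 Pool.Agent.D0H10.Q4 Pool.Agent.D0H43.Q4
open Pool.Agent.D0H2.Q4 (OT.ng)

section gen

variable {Γ : Type*} [LinearOrderedCommGroupWithZero Γ] {v : Valuation ℂ Γ}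

lemma cg_one_val {x : ℂ} (h : Cg v x 1) : v x = 1 := by
  refine le_antisymm h.l ?_
  by_contra hc
  push Not at hc
  have h6 : v (1 : ℂ) < 1 := by
    have e : (1 : ℂ) = x - (x - 1) := by ring
    rw [e]
    exact (v.map_sub _ _).trans_lt (max_lt hc h.s)
  rw [map_one] at h6
  exact lt_irrefl _ h6

lemma cg_one_ne {x : ℂ} (h : Cg v x 1) : x ≠ 0 := by
  rintro rfl
  have := cg_one_val h
  rw [map_zero] at this
  exact zero_ne_one this

lemma cg_div {x y : ℂ} (hx : Cg v x 1) (hy : Cg v y 1) : Cg v (x / y) 1 := by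
  have hy1 := cg_one_val hy
  have hy0 := cg_one_ne hy
  apply cg_of (by rw [map_one])
  have e : x / y - 1 = (x - y) / y := by field_simp
  rw [e, map_div₀, hy1, div_one]
  exact (hx.trans hy.symm).s

lemma cg_mul {x y : ℂ} (hx : Cg v x 1) (hy : Cg v y 1) : Cg v (x * y) 1 := by
  have := hx.mul hy
  rwa [one_mul] at this

lemma cg_pow {x : ℂ} (hx : Cg v x 1) (n : ℕ) : Cg v (x ^ n) 1 := by
  induction n with
  | zero => rw [pow_zero]; exact Cg.refl (by rw [map_one])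
  | succ n ih => rw [pow_succ]; exact cg_mul ih hx

variable (h2 : v 2 < 1)
include h2

lemma cg_neg_one : Cg v (-1) 1 := by
  apply cg_of (by rw [map_one])
  have e : (-1 : ℂ) - 1 = -2 := by norm_num
  rw [e, Valuation.map_neg]
  exact h2

lemma cg_I : Cg v I 1 := by
  apply cg_of (by rw [map_one])
  have e : I - 1 = I * (1 + I) := by linear_combination -I_sq
  rw [e, map_mul, v_I, one_mul]
  exact v_pi_lt h2

/-- congruent squares -/
lemma cg_sq {x y : ℂ} (hx : v x ≤ 1) (hy : v y ≤ 1) (h : Cg v (x ^ 2) (y ^ 2)) : Cg v x y := by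
  refine ⟨hx, hy, ?_⟩
  have h1 : v ((x - y) ^ 2) < 1 := by
    have e : (x - y) ^ 2 = (x ^ 2 - y ^ 2) - 2 * (y * (x - y)) := by ring
    rw [e]
    refine (v.map_sub _ _).trans_lt (max_lt h.s ?_)
    rw [map_mul, map_mul]
    have h3 : v y * v (x - y) ≤ 1 := mul_le_one' hy ((v.map_sub _ _).trans (max_le hx hy))
    exact (mul_le_of_le_one_right' h3).trans_lt h2
  rw [map_pow] at h1
  by_contra hc
  push Not at hc
  exact absurd h1 (not_lt.2 (one_le_pow₀ hc))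

lemma cg_sq1 {x : ℂ} (h : Cg v (x ^ 2) 1) : Cg v x 1 := by
  have h1 : v x = 1 := v_pow_one (n := 2) (by norm_num) (by rw [← map_pow]; exact cg_one_val h)
  refine cg_sq h2 h1.le (by rw [map_one]) ?_
  rwa [one_pow]

/-- the ratio of the sum and the value -/
lemma core {a b k d M A B Y : ℂ} (hd : d ≠ 0) (e1 : (a + b) ^ 2 * d ^ 2 = k * A)
    (e2 : (a - b) ^ 2 * d ^ 2 = k * B) (e3 : A - B = d * M) (hk : k ≠ 0) (hM : M ≠ 0)
    (hP : Cg v ((k * M / (4 * d)) ^ 2 / (1 + I) ^ 19) 1)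
    (hρ : Cg v (4 * A / ((1 + I) ^ 2 * d * M)) (Y ^ 2)) (hY : v Y ≤ 1) :
    a * b = k * M / (4 * d) ∧ Cg v ((a + b) / ((1 + I) * a)) Y ∧ Cg v (b / a) 1 ∧
      Cg v (a ^ 4 / (1 + I) ^ 19) 1 := by
  have hl : (1 + I : ℂ) ≠ 0 := one_I_ne
  have hab : a * b = k * M / (4 * d) := by
    rw [eq_div_iff (mul_ne_zero (by norm_num) hd)]
    have h5 : (a * b * (4 * d)) * d = (k * M) * d := by
      linear_combination e1 - e2 + k * e3
    exact mul_right_cancel₀ hd h5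
  have hab0 : a * b ≠ 0 := by
    rw [hab]
    exact div_ne_zero (mul_ne_zero hk hM) (mul_ne_zero (by norm_num) hd)
  have ha : a ≠ 0 := left_ne_zero_of_mul hab0
  have hb : b ≠ 0 := right_ne_zero_of_mul hab0
  set r : ℂ := (a + b) / ((1 + I) * a) with hr
  set ρ : ℂ := 4 * A / ((1 + I) ^ 2 * d * M) with hρd
  have hba : b / a = (1 + I) * r - 1 := by
    rw [hr]
    field_simp
    ring
  have hρ2 : (a + b) ^ 2 = (1 + I) ^ 2 * (a * b) * ρ := by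
    have h6 : (a + b) ^ 2 = k * A / d ^ 2 := by
      rw [eq_div_iff (pow_ne_zero 2 hd)]; exact e1
    rw [h6, hab, hρd]
    field_simp
  have hrr : r ^ 2 = ρ * (b / a) := by
    rw [hr, div_pow, hρ2]
    field_simp
  rw [hba] at hrr
  have hvl := v_pi_lt h2
  have hr1 : v r ≤ 1 := by
    by_contra hc
    push Not at hc
    have h7 : v r ^ 2 ≤ v r := by
      rw [← map_pow, hrr, map_mul]
      refine (mul_le_of_le_one_left' hρ.l).trans ?_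
      refine (v.map_sub _ _).trans (max_le ?_ ?_)
      · rw [map_mul]
        exact mul_le_of_le_one_left' hvl.le
      · rw [map_one]; exact hc.le
    have h8 : v r < v r ^ 2 := by
      rw [sq]
      exact lt_mul_of_one_lt_right (lt_trans zero_lt_one hc) hc
    exact absurd h8 (not_lt.2 h7)
  have hr2 : Cg v (r ^ 2) (Y ^ 2) := by
    have h9 : Cg v ((1 + I) * r - 1) (-1) := by
      apply cg_of (by rw [Valuation.map_neg, map_one])
      have e : (1 + I) * r - 1 - -1 = (1 + I) * r := by ring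
      rw [e, map_mul]
      exact (mul_le_of_le_one_right' hr1).trans_lt hvl
    have h10 := (hρ.mul (h9.trans (cg_neg_one h2)))
    rw [mul_one] at h10
    rw [hrr]
    exact h10
  have hrY : Cg v r Y := cg_sq h2 hr1 hY hr2
  have hba1 : Cg v (b / a) 1 := by
    rw [hba]
    refine Cg.trans ?_ (cg_neg_one h2)
    apply cg_of (by rw [Valuation.map_neg, map_one])
    have e : (1 + I) * r - 1 - -1 = (1 + I) * r := by ring
    rw [e, map_mul]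
    exact (mul_le_of_le_one_right' hr1).trans_lt hvl
  refine ⟨hab, hrY, hba1, ?_⟩
  rw [← hab] at hP
  have h11 := cg_div hP (cg_pow hba1 2)
  have e : (a * b) ^ 2 / (1 + I) ^ 19 / (b / a) ^ 2 = a ^ 4 / (1 + I) ^ 19 := by
    field_simp
  rwa [e] at h11

end gen

/-! ### the abscissas of the points of odd order -/

variable {L : PeriodPair} {Ω : ℂ}

/-- the congruences for one abscissa -/
structure Fx {Γ : Type*} [LinearOrderedCommGroupWithZero Γ] (v : Valuation ℂ Γ) (x : ℂ) : Prop where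
  one : Cg v x 1
  m : Cg v ((x - 1) / (1 + I)) 1
  p : Cg v ((x + 1) / (1 + I)) 1
  pI : Cg v ((x + I) ^ 2 / (1 + I) ^ 3) 1
  mI : Cg v ((x - I) ^ 2 / (1 + I) ^ 3) 1

lemma l_sq : (1 + I : ℂ) ^ 2 = 2 * I := by linear_combination I_sq

lemma l_four : (1 + I : ℂ) ^ 4 = -4 := by
  have e : (1 + I : ℂ) ^ 4 = ((1 + I) ^ 2) ^ 2 := by ring
  rw [e, l_sq]
  linear_combination 4 * I_sq

lemma l_eight : (1 + I : ℂ) ^ 8 = 16 := by
  have e : (1 + I : ℂ) ^ 8 = ((1 + I) ^ 4) ^ 2 := by ring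
  rw [e, l_four]
  norm_num

/-- the numbers `κ ^ 4` -/
lemma l_thirty_one : (1 - I) * 2 ^ 15 = (1 + I : ℂ) ^ 31 := by
  have e : (1 + I : ℂ) ^ 31 = ((1 + I) ^ 8) ^ 3 * (1 + I) ^ 4 * (1 + I) ^ 2 * (1 + I) := by ring
  rw [e, l_eight, l_four, l_sq]
  linear_combination (32768 : ℂ) * I_sq

lemma l_thirty_one' : (1 + I) * 2 ^ 15 = I * (1 + I : ℂ) ^ 31 := by
  rw [← l_thirty_one]
  linear_combination (32768 : ℂ) * I_sq

lemma l_thirty_five : (1 - I) * 2 ^ 17 = -(1 + I : ℂ) ^ 35 := by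
  have e : (1 + I : ℂ) ^ 35 = (1 + I) ^ 31 * (1 + I) ^ 4 := by ring
  rw [e, l_four, ← l_thirty_one]
  ring

lemma l_thirty_five' : (1 + I) * 2 ^ 17 = -(I * (1 + I : ℂ) ^ 35) := by
  have e : (1 + I : ℂ) ^ 35 = (1 + I) ^ 31 * (1 + I) ^ 4 := by ring
  rw [e, l_four, ← mul_assoc, ← l_thirty_one']
  ring

section

variable {Γ : Type*} [LinearOrderedCommGroupWithZero Γ] {v : Valuation ℂ Γ} (h2 : v 2 < 1)
  (h : GLat L Ω)

include h2

lemma cg_close {x y : ℂ} (hy : Cg v y 1) (h : v (x - y) < 1) : Cg v x 1 :=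
  (cg_of hy.l h).trans hy

include h

lemma fx_of {z : ℂ} (hz : OT L z) : Fx v (℘[L] z) ∧
    ℘[L] z ^ 2 - 1 = (1 + I) ^ 2 * ℘[L] z * ℘[L] ((1 + I) * z) := by
  have hl : (1 + I : ℂ) ≠ 0 := one_I_ne
  have hvl := v_pi_lt h2
  have h1 : ∀ t : ℂ, OT L t → Cg v (℘[L] t) 1 := by
    intro t ht
    have h5 := (wp_sub h2 h ht).1
    exact cg_of (by rw [map_one]) (by rw [h5]; exact hvl)
  have hz1 := hz.pow h 1
  rw [pow_one] at hz1
  have h3 : ∀ t : ℂ, OT L t → ℘[L] t ^ 2 - 1 = (1 + I) ^ 2 * ℘[L] t * ℘[L] ((1 + I) * t) := by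
    intro t ht
    have h4 := (h.mul_pi (ht.two h)).1
    rw [l_sq]
    linear_combination -h4
  have h2l : v (2 / (1 + I)) < 1 := by
    rw [map_div₀, ← v_pi_sq, sq, mul_div_assoc, div_self v_pi_ne, mul_one]
    exact hvl
  have hm : ∀ t : ℂ, OT L t → Cg v ((℘[L] t - 1) / (1 + I)) 1 := by
    intro t ht
    have ht1 := ht.pow h 1
    rw [pow_one] at ht1
    have e4 := h3 t ht
    apply cg_sq1 h2
    have e5 : ((℘[L] t - 1) / (1 + I)) ^ 2 = ℘[L] t * ℘[L] ((1 + I) * t) -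
        (2 / (1 + I)) * ((℘[L] t - 1) / (1 + I)) := by
      field_simp
      linear_combination e4
    rw [e5]
    have h6 := cg_mul (h1 t ht) (h1 _ ht1)
    refine cg_close h2 h6 ?_
    rw [sub_sub_cancel_left, Valuation.map_neg, map_mul]
    have h7 : v ((℘[L] t - 1) / (1 + I)) = 1 := by
      rw [map_div₀, (wp_sub h2 h ht).1, div_self v_pi_ne]
    rw [h7, mul_one]
    exact h2l
  have hpl : ∀ t : ℂ, OT L t → Cg v ((℘[L] t + 1) / (1 + I)) 1 := by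
    intro t ht
    refine cg_close h2 (hm t ht) ?_
    have e : (℘[L] t + 1) / (1 + I) - (℘[L] t - 1) / (1 + I) = 2 / (1 + I) := by ring
    rw [e]
    exact h2l
  have e4 := h3 z hz
  refine ⟨⟨h1 z hz, hm z hz, hpl z hz, ?_, ?_⟩, e4⟩
  · have e5 : (℘[L] z + I) ^ 2 / (1 + I) ^ 3 = ℘[L] z * ((℘[L] ((1 + I) * z) + 1) / (1 + I)) := by
      field_simp
      linear_combination e4 + I_sq - ℘[L] z * l_sq
    rw [e5]
    exact cg_mul (h1 z hz) (hpl _ hz1)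
  · have e5 : (℘[L] z - I) ^ 2 / (1 + I) ^ 3 = ℘[L] z * ((℘[L] ((1 + I) * z) - 1) / (1 + I)) := by
      field_simp
      linear_combination e4 + I_sq + ℘[L] z * l_sq
    rw [e5]
    exact cg_mul (h1 z hz) (hm _ hz1)

end

/-! ### the four cases -/

section fin

variable {Γ : Type*} [LinearOrderedCommGroupWithZero Γ] {v : Valuation ℂ Γ} (h2 : v 2 < 1)
include h2

/-- the common factor `l ^ 3 / ((x'' + i) (x' - ε i))` -/
lemma cg_om {x' x'' c : ℂ} (h1 : Cg v ((x'' + I) ^ 2 / (1 + I) ^ 3) 1)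
    (h3 : Cg v ((x' + c) ^ 2 / (1 + I) ^ 3) 1) : Cg v ((1 + I) ^ 3 / ((x'' + I) * (x' + c))) 1 := by
  apply cg_sq1 h2
  have h4 := cg_div (Cg.refl (v := v) (x := 1) (by rw [map_one])) (cg_mul h1 h3)
  have hl : (1 + I : ℂ) ≠ 0 := one_I_ne
  have hx : x'' + I ≠ 0 := by
    intro h0
    have := cg_one_ne h1
    rw [h0] at this
    simp at this
  have hx' : x' + c ≠ 0 := by
    intro h0
    have := cg_one_ne h3
    rw [h0] at this
    simp at this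
  have e : ((1 + I) ^ 3 / ((x'' + I) * (x' + c))) ^ 2 =
      1 / ((x'' + I) ^ 2 / (1 + I) ^ 3 * ((x' + c) ^ 2 / (1 + I) ^ 3)) := by
    field_simp
  rw [e]
  exact h4

/-- the quotient `(x'' + i) / (x' - ε i)` -/
lemma cg_quot {x' x'' c : ℂ} (h1 : Cg v ((x'' + I) ^ 2 / (1 + I) ^ 3) 1)
    (h3 : Cg v ((x' + c) ^ 2 / (1 + I) ^ 3) 1) : Cg v ((x'' + I) / (x' + c)) 1 := by
  apply cg_sq1 h2
  have h4 := cg_div h1 h3
  have hl : (1 + I : ℂ) ≠ 0 := one_I_ne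
  have hx' : x' + c ≠ 0 := by
    intro h0
    have := cg_one_ne h3
    rw [h0] at this
    simp at this
  have e : ((x'' + I) / (x' + c)) ^ 2 = (x'' + I) ^ 2 / (1 + I) ^ 3 / ((x' + c) ^ 2 / (1 + I) ^ 3) := by
    field_simp
  rw [e]
  exact h4

/-- `(x² - 1 - 2 i) / 4` is integral -/
lemma y2_int {x x' : ℂ} (hx : Fx v x) (hx' : Fx v x') (hxx : v ((x' - x) / 2) ≤ 1)
    (e : x ^ 2 - 1 = (1 + I) ^ 2 * x * x') : v ((x ^ 2 - 1 - 2 * I) / 4) ≤ 1 := by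
  rw [l_sq] at e
  have e1 : (x ^ 2 - 1 - 2 * I) / 4 = I * (x * ((x' - x) / 2)) - x * x' := by
    linear_combination (1 / 4 + I / 2) * e + x * x' * I_sq
  rw [e1]
  refine (v.map_sub _ _).trans (max_le ?_ ?_)
  · rw [map_mul, map_mul, v_I, one_mul]
    exact mul_le_one' hx.one.l hxx
  · rw [map_mul]
    exact mul_le_one' hx.one.l hx'.one.l

lemma cg_uu_one {x : ℂ} (h : Cg v x 1) : Cg v x (uu 1) := by
  rw [uu_one]; exact h

end fin

section cases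

variable {Γ : Type*} [LinearOrderedCommGroupWithZero Γ] {v : Valuation ℂ Γ} (h2 : v 2 < 1)
include h2

/-- the data at a point -/
structure Pt (v : Valuation ℂ Γ) (x x' x'' : ℂ) : Prop where
  f : Fx v x
  f' : Fx v x'
  f'' : Fx v x''
  e : x ^ 2 - 1 = (1 + I) ^ 2 * x * x'
  e' : x' ^ 2 - 1 = (1 + I) ^ 2 * x' * x''
  y : v ((x ^ 2 - 1 - 2 * I) / 4) ≤ 1

omit h2 in
lemma Pt.dn_eq {x x' x'' : ℂ} (h : Pt v x x' x'') :
    dn x = -4 * (1 + I) ^ 2 * x ^ 2 * x' * (x'' + I) := by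
  have e := h.e
  have e' := h.e'
  rw [l_sq] at e e' ⊢
  unfold dn
  linear_combination (x ^ 2 - 1 - 4 * I * x + 2 * I * x * x') * e - 4 * x ^ 2 * e' +
    (4 * x ^ 2 * x' ^ 2) * I_sq

omit h2 in
lemma Pt.q_m {x x' x'' : ℂ} (h : Pt v x x' x'') :
    x ^ 2 - 2 * x - 1 = (1 + I) ^ 2 * x * (x' + I) := by
  have e := h.e
  rw [l_sq] at e ⊢
  linear_combination e - 2 * x * I_sq

omit h2 in
lemma Pt.q_p {x x' x'' : ℂ} (h : Pt v x x' x'') :
    x ^ 2 + 2 * x - 1 = (1 + I) ^ 2 * x * (x' - I) := by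
  have e := h.e
  rw [l_sq] at e ⊢
  linear_combination e + 2 * x * I_sq

omit h2 in
lemma Pt.nz {x x' x'' : ℂ} (h : Pt v x x' x'') : x ≠ 0 ∧ x' ≠ 0 ∧ x - 1 ≠ 0 ∧ x + 1 ≠ 0 ∧
    x' + I ≠ 0 ∧ x' - I ≠ 0 ∧ x'' + I ≠ 0 := by
  refine ⟨cg_one_ne h.f.one, cg_one_ne h.f'.one, ?_, ?_, ?_, ?_, ?_⟩
  · intro h0
    have := cg_one_ne h.f.m
    rw [h0] at this
    simp at this
  · intro h0
    have := cg_one_ne h.f.p
    rw [h0] at this
    simp at this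
  · intro h0
    have := cg_one_ne h.f'.pI
    rw [h0] at this
    simp at this
  · intro h0
    have := cg_one_ne h.f'.mI
    rw [h0] at this
    simp at this
  · intro h0
    have := cg_one_ne h.f''.pI
    rw [h0] at this
    simp at this

lemma pt_of {L : PeriodPair} {Ω : ℂ} (h : GLat L Ω) {z : ℂ} (hz : OT L z) :
    Pt v (℘[L] (2 * z)) (℘[L] ((1 + I) * (2 * z))) (℘[L] ((1 + I) * ((1 + I) * (2 * z)))) := by
  have hz1 := Pool.Agent.D0H2.Q4.OT.dbl h hz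
  have hz2 := hz1.pow h 1
  rw [pow_one] at hz2
  have hz3 := hz2.pow h 1
  rw [pow_one] at hz3
  obtain ⟨a1, a2⟩ := fx_of h2 h hz1
  obtain ⟨b1, b2⟩ := fx_of h2 h hz2
  obtain ⟨c1, -⟩ := fx_of h2 h hz3
  refine ⟨a1, b1, c1, a2, b2, y2_int h2 a1 b1 ?_ a2⟩
  have h3 := Pool.Agent.D0H2.Q4.wp_sub_le h2 h hz2 hz1
  have h20 : v 2 ≠ 0 := by rw [Ne, map_eq_zero]; norm_num
  rw [map_div₀]
  exact div_le_one_of_le₀ h3 zero_le

/-- `σ = 0` -/
lemma case0 {a b κ x x' x'' : ℂ} (h : Pt v x x' x'') (hκ : κ ^ 4 = (1 - I) * 2 ^ 15)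
    (e1 : (a + b) ^ 2 * dn x ^ 2 = κ ^ 2 * (x * (x + 1)) *
      ((x - 1) * (x ^ 2 + 2 * (1 - I) * x + 1)) ^ 2)
    (e2 : (a - b) ^ 2 * dn x ^ 2 = κ ^ 2 * (x - 1) *
      ((x + 1) * (x ^ 2 - 2 * (1 - I) * x + 1)) ^ 2) :
    (Cg v ((a + b) / ((1 + I) * a)) ((x ^ 2 - 1 - 2 * I) / 4) ∧ Cg v (b / a) 1 ∧
      Cg v (a ^ 4 / (1 + I) ^ 19) 1) ∧ Cg v (κ ^ 2 / (4 * (1 + I) ^ 2 * (a * b))) 1 := by
  obtain ⟨n1, n2, n3, n4, n5, n6, n7⟩ := h.nz
  have hl : (1 + I : ℂ) ≠ 0 := one_I_ne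
  have hdn := h.dn_eq
  have hd : dn x ≠ 0 := by
    rw [hdn]
    exact mul_ne_zero (mul_ne_zero (mul_ne_zero (mul_ne_zero (by norm_num) (pow_ne_zero 2 hl))
      (pow_ne_zero 2 n1)) n2) n7
  have hM : (x ^ 2 - 1) * (x ^ 2 + 2 * x - 1) = (1 + I) ^ 4 * x ^ 2 * x' * (x' - I) := by
    rw [h.e, h.q_p]; ring
  have hκ0 : κ ^ 2 ≠ 0 := by
    intro h0
    have h3 : κ ^ 4 = (κ ^ 2) ^ 2 := by ring
    rw [h3, h0, l_thirty_one] at hκ
    exact pow_ne_zero 31 hl (by rw [← hκ]; ring)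
  have hM0 : (x ^ 2 - 1) * (x ^ 2 + 2 * x - 1) ≠ 0 := by
    rw [hM]
    exact mul_ne_zero (mul_ne_zero (mul_ne_zero (pow_ne_zero 4 hl) (pow_ne_zero 2 n1)) n2) n6
  set Y : ℂ := (x ^ 2 - 1 - 2 * I) / 4 with hY
  set A : ℂ := x * (x + 1) * ((x - 1) * (x ^ 2 + 2 * (1 - I) * x + 1)) ^ 2 with hA
  set B : ℂ := (x - 1) * ((x + 1) * (x ^ 2 - 2 * (1 - I) * x + 1)) ^ 2 with hB
  have e3 : A - B = dn x * ((x ^ 2 - 1) * (x ^ 2 + 2 * x - 1)) := by
    rw [hA, hB]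
    unfold dn
    linear_combination (4 * x ^ 2 * (x ^ 2 - 1) * (x ^ 2 - 2 * x - 1)) * I_sq
  have hP : Cg v ((κ ^ 2 * ((x ^ 2 - 1) * (x ^ 2 + 2 * x - 1)) / (4 * dn x)) ^ 2 / (1 + I) ^ 19) 1 := by
    have h5 := cg_div h.f'.mI h.f''.pI
    have e : (κ ^ 2 * ((x ^ 2 - 1) * (x ^ 2 + 2 * x - 1)) / (4 * dn x)) ^ 2 / (1 + I) ^ 19 =
        (x' - I) ^ 2 / (1 + I) ^ 3 / ((x'' + I) ^ 2 / (1 + I) ^ 3) := by
      rw [hM, hdn]
      have h6 : (κ ^ 2 * ((1 + I) ^ 4 * x ^ 2 * x' * (x' - I)) /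
          (4 * (-4 * (1 + I) ^ 2 * x ^ 2 * x' * (x'' + I)))) ^ 2 =
          κ ^ 4 * (1 + I) ^ 4 * (x' - I) ^ 2 / ((16 ^ 2) * (x'' + I) ^ 2) := by
        field_simp
        ring
      rw [h6, hκ, l_thirty_one, ← l_eight]
      field_simp
    rw [e]
    exact h5
  have hρ : Cg v (4 * A / ((1 + I) ^ 2 * dn x * ((x ^ 2 - 1) * (x ^ 2 + 2 * x - 1)))) (Y ^ 2) := by
    have h5 := cg_om h2 h.f''.pI (c := -I) (by rw [← sub_eq_add_neg]; exact h.f'.mI)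
    rw [← sub_eq_add_neg] at h5
    have e4 : x ^ 2 + 2 * (1 - I) * x + 1 = 4 * (Y + 1 + (x - 1) / (1 + I)) := by
      rw [hY]
      field_simp
      linear_combination (-(2 * x - 2)) * I_sq
    have e : 4 * A / ((1 + I) ^ 2 * dn x * ((x ^ 2 - 1) * (x ^ 2 + 2 * x - 1))) =
        -((1 + I) ^ 3 / ((x'' + I) * (x' - I))) * ((x - 1) / (1 + I)) *
          (Y + 1 + (x - 1) / (1 + I)) ^ 2 / (x ^ 2 * x') := by
      have e5 : (x ^ 2 - 1) * (x ^ 2 + 2 * x - 1) = (x - 1) * (x + 1) * ((1 + I) ^ 2 * x * (x' - I)) := by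
        rw [h.q_p]; ring
      rw [e5, hA, e4, hdn]
      have h8 : (4 : ℂ) ^ 2 = (1 + I) ^ 8 := by rw [l_eight]; norm_num
      have h9 : (4 * (x * (x + 1) * ((x - 1) * (4 * (Y + 1 + (x - 1) / (1 + I)))) ^ 2)) /
          ((1 + I) ^ 2 * (-4 * (1 + I) ^ 2 * x ^ 2 * x' * (x'' + I)) *
            ((x - 1) * (x + 1) * ((1 + I) ^ 2 * x * (x' - I)))) =
          -(4 ^ 2 * (x - 1) * (Y + 1 + (x - 1) / (1 + I)) ^ 2 /
            ((1 + I) ^ 6 * x ^ 2 * x' * (x'' + I) * (x' - I))) := by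
        field_simp
      rw [h9, h8]
      field_simp
    rw [e]
    have h6 : Cg v (Y + 1 + (x - 1) / (1 + I)) Y := by
      have h7 := ((Cg.refl h.y).add (Cg.refl (v := v) (x := 1) (by rw [map_one]))).add h.f.m
      refine h7.trans (cg_of h.y ?_)
      have e6 : (x ^ 2 - 1 - 2 * I) / 4 + 1 + 1 - (x ^ 2 - 1 - 2 * I) / 4 = 2 := by ring
      rw [e6]
      exact h2
    have h7 := cg_div (cg_mul (cg_mul (cg_neg_one h2) h5) h.f.m)
      (cg_mul (cg_pow h.f.one 2) h.f'.one)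
    have h8 := h7.mul (h6.mul h6)
    rw [one_mul, ← sq Y] at h8
    have e6 : -((1 + I) ^ 3 / ((x'' + I) * (x' - I))) * ((x - 1) / (1 + I)) *
          (Y + 1 + (x - 1) / (1 + I)) ^ 2 / (x ^ 2 * x') =
        -1 * ((1 + I) ^ 3 / ((x'' + I) * (x' - I))) * ((x - 1) / (1 + I)) / (x ^ 2 * x') *
          ((Y + 1 + (x - 1) / (1 + I)) * (Y + 1 + (x - 1) / (1 + I))) := by
      ring
    rw [e6]
    exact h8
  have hc := core (a := a) (b := b) h2 hd (by rw [hA]; linear_combination e1)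
    (by rw [hB]; linear_combination e2) e3 hκ0 hM0 hP hρ h.y
  refine ⟨hc.2, ?_⟩
  rw [hc.1]
  have hκ1 : κ ≠ 0 := by
    rintro rfl
    exact hκ0 (by norm_num)
  have h5 := cg_quot h2 h.f''.pI (c := -I) (by rw [← sub_eq_add_neg]; exact h.f'.mI)
  rw [← sub_eq_add_neg] at h5
  have e : κ ^ 2 / (4 * (1 + I) ^ 2 * (κ ^ 2 * ((x ^ 2 - 1) * (x ^ 2 + 2 * x - 1)) / (4 * dn x))) =
      (x'' + I) / (x' - I) := by
    rw [hM, hdn]
    have h6 : κ ^ 2 / (4 * (1 + I) ^ 2 * (κ ^ 2 * ((1 + I) ^ 4 * x ^ 2 * x' * (x' - I)) /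
        (4 * (-4 * (1 + I) ^ 2 * x ^ 2 * x' * (x'' + I))))) =
        -4 * (x'' + I) / ((1 + I) ^ 4 * (x' - I)) := by
      field_simp
    rw [h6, l_four]
    field_simp
  rw [e]
  exact h5

/-- `σ = 2` -/
lemma case2 {a b κ x x' x'' : ℂ} (h : Pt v x x' x'') (hκ : κ ^ 4 = (1 - I) * 2 ^ 17)
    (e1 : (a + b) ^ 2 * dn x ^ 2 = κ ^ 2 * (x * (x + 1)) * ((1 + 2 * I) * x ^ 2 - 1) ^ 2)
    (e2 : (a - b) ^ 2 * dn x ^ 2 = κ ^ 2 * (x - 1) * (x * (x ^ 2 - 1 - 2 * I)) ^ 2) :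
    (Cg v ((a + b) / ((1 + I) * a)) ((x ^ 2 - 1 - 2 * I) / 4) ∧ Cg v (b / a) 1 ∧
      Cg v (a ^ 4 / (1 + I) ^ 19) 1) := by
  obtain ⟨n1, n2, n3, n4, n5, n6, n7⟩ := h.nz
  have hl : (1 + I : ℂ) ≠ 0 := one_I_ne
  have hdn := h.dn_eq
  have hd : dn x ≠ 0 := by
    rw [hdn]
    exact mul_ne_zero (mul_ne_zero (mul_ne_zero (mul_ne_zero (by norm_num) (pow_ne_zero 2 hl))
      (pow_ne_zero 2 n1)) n2) n7
  have hM : -(x * (x ^ 2 + 2 * x - 1)) = -((1 + I) ^ 2 * x ^ 2 * (x' - I)) := by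
    rw [h.q_p]; ring
  have hκ0 : κ ^ 2 ≠ 0 := by
    intro h0
    have h3 : κ ^ 4 = (κ ^ 2) ^ 2 := by ring
    rw [h3, h0, l_thirty_five] at hκ
    exact neg_ne_zero.2 (pow_ne_zero 35 hl) (by rw [← hκ]; ring)
  have hM0 : -(x * (x ^ 2 + 2 * x - 1)) ≠ 0 := by
    rw [hM]
    exact neg_ne_zero.2 (mul_ne_zero (mul_ne_zero (pow_ne_zero 2 hl) (pow_ne_zero 2 n1)) n6)
  set Y : ℂ := (x ^ 2 - 1 - 2 * I) / 4 with hY
  set A : ℂ := x * (x + 1) * ((1 + 2 * I) * x ^ 2 - 1) ^ 2 with hA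
  set B : ℂ := (x - 1) * (x * (x ^ 2 - 1 - 2 * I)) ^ 2 with hB
  have e3 : A - B = dn x * (-(x * (x ^ 2 + 2 * x - 1))) := by
    rw [hA, hB]
    unfold dn
    linear_combination (4 * x ^ 6 - 4 * x ^ 2 * (x - 1) + 4 * x ^ 5) * I_sq
  have hP : Cg v ((κ ^ 2 * (-(x * (x ^ 2 + 2 * x - 1))) / (4 * dn x)) ^ 2 / (1 + I) ^ 19) 1 := by
    have h5 := cg_div (cg_mul (cg_neg_one h2) h.f'.mI) (cg_mul (cg_pow h.f'.one 2) h.f''.pI)
    have e : (κ ^ 2 * (-(x * (x ^ 2 + 2 * x - 1))) / (4 * dn x)) ^ 2 / (1 + I) ^ 19 =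
        -1 * ((x' - I) ^ 2 / (1 + I) ^ 3) / (x' ^ 2 * ((x'' + I) ^ 2 / (1 + I) ^ 3)) := by
      rw [hM, hdn]
      have h6 : (κ ^ 2 * (-((1 + I) ^ 2 * x ^ 2 * (x' - I))) /
          (4 * (-4 * (1 + I) ^ 2 * x ^ 2 * x' * (x'' + I)))) ^ 2 =
          κ ^ 4 * (x' - I) ^ 2 / ((16 ^ 2) * x' ^ 2 * (x'' + I) ^ 2) := by
        field_simp
        ring
      rw [h6, hκ, l_thirty_five, ← l_eight]
      field_simp
    rw [e]
    exact h5
  have hρ : Cg v (4 * A / ((1 + I) ^ 2 * dn x * (-(x * (x ^ 2 + 2 * x - 1))))) (Y ^ 2) := by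
    have h5 := cg_om h2 h.f''.pI (c := -I) (by rw [← sub_eq_add_neg]; exact h.f'.mI)
    rw [← sub_eq_add_neg] at h5
    have e4 : (1 + 2 * I) * x ^ 2 - 1 = 4 * ((1 + 2 * I) * Y - 1 + I) := by
      rw [hY]
      linear_combination 4 * I_sq
    have e : 4 * A / ((1 + I) ^ 2 * dn x * (-(x * (x ^ 2 + 2 * x - 1)))) =
        ((1 + I) ^ 3 / ((x'' + I) * (x' - I))) * ((x + 1) / (1 + I)) / (x ^ 3 * x') *
          (((1 + 2 * I) * Y - 1 + I) * ((1 + 2 * I) * Y - 1 + I)) := by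
      rw [hM, hA, e4, hdn]
      have h8 : (4 : ℂ) ^ 2 = (1 + I) ^ 8 := by rw [l_eight]; norm_num
      have h9 : (4 * (x * (x + 1) * (4 * ((1 + 2 * I) * Y - 1 + I)) ^ 2)) /
          ((1 + I) ^ 2 * (-4 * (1 + I) ^ 2 * x ^ 2 * x' * (x'' + I)) *
            (-((1 + I) ^ 2 * x ^ 2 * (x' - I)))) =
          4 ^ 2 * (x + 1) * ((1 + 2 * I) * Y - 1 + I) ^ 2 /
            ((1 + I) ^ 6 * x ^ 3 * x' * (x'' + I) * (x' - I)) := by
        field_simp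
      rw [h9, h8]
      field_simp
    rw [e]
    have h6 : Cg v ((1 + 2 * I) * Y - 1 + I) Y := by
      apply cg_of h.y
      have e6 : (1 + 2 * I) * Y - 1 + I - Y = 2 * (I * Y) + (I - 1) := by ring
      rw [e6]
      refine (v.map_add _ _).trans_lt (max_lt ?_ (cg_I h2).s)
      rw [map_mul, map_mul, v_I, one_mul]
      exact (mul_le_of_le_one_right' h.y).trans_lt h2
    have h7 := cg_div (cg_mul h5 h.f.p) (cg_mul (cg_pow h.f.one 3) h.f'.one)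
    have h8 := h7.mul (h6.mul h6)
    rwa [one_mul, ← sq Y] at h8
  have hc := core (a := a) (b := b) h2 hd (by rw [hA]; linear_combination e1)
    (by rw [hB]; linear_combination e2) e3 hκ0 hM0 hP hρ h.y
  exact hc.2

/-- `σ = 3` -/
lemma case3 {a b κ x x' x'' : ℂ} (h : Pt v x x' x'') (hκ : κ ^ 4 = (1 + I) * 2 ^ 15)
    (e1 : (a + b) ^ 2 * dn x ^ 2 = κ ^ 2 * (x * (x - 1)) *
      ((x + 1) * (x ^ 2 - 2 * (1 + I) * x + 1)) ^ 2)
    (e2 : (a - b) ^ 2 * dn x ^ 2 = -(κ ^ 2 * (x + 1)) *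
      ((x - 1) * (x ^ 2 + 2 * (1 + I) * x + 1)) ^ 2) :
    (Cg v ((a + b) / ((1 + I) * a)) ((x ^ 2 - 1 - 2 * I) / 4 + 1) ∧ Cg v (b / a) 1 ∧
      Cg v (a ^ 4 / (1 + I) ^ 19) 1) ∧ Cg v (κ ^ 2 / (4 * (1 + I) ^ 2 * (a * b))) 1 := by
  obtain ⟨n1, n2, n3, n4, n5, n6, n7⟩ := h.nz
  have hl : (1 + I : ℂ) ≠ 0 := one_I_ne
  have hdn := h.dn_eq
  have hd : dn x ≠ 0 := by
    rw [hdn]
    exact mul_ne_zero (mul_ne_zero (mul_ne_zero (mul_ne_zero (by norm_num) (pow_ne_zero 2 hl))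
      (pow_ne_zero 2 n1)) n2) n7
  have hM : (x ^ 2 - 1) * (x ^ 2 - 2 * x - 1) = (1 + I) ^ 4 * x ^ 2 * x' * (x' + I) := by
    rw [h.e, h.q_m]; ring
  have hκ0 : κ ^ 2 ≠ 0 := by
    intro h0
    have h3 : κ ^ 4 = (κ ^ 2) ^ 2 := by ring
    rw [h3, h0, l_thirty_one'] at hκ
    exact mul_ne_zero I_ne_zero (pow_ne_zero 31 hl) (by rw [← hκ]; ring)
  have hM0 : (x ^ 2 - 1) * (x ^ 2 - 2 * x - 1) ≠ 0 := by
    rw [hM]
    exact mul_ne_zero (mul_ne_zero (mul_ne_zero (pow_ne_zero 4 hl) (pow_ne_zero 2 n1)) n2) n5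
  set Y : ℂ := (x ^ 2 - 1 - 2 * I) / 4 with hY
  have hy1 : Cg v (Y + 1) (Y + 1) := (Cg.refl h.y).add (Cg.refl (by rw [map_one]))
  set A : ℂ := x * (x - 1) * ((x + 1) * (x ^ 2 - 2 * (1 + I) * x + 1)) ^ 2 with hA
  set B : ℂ := -(x + 1) * ((x - 1) * (x ^ 2 + 2 * (1 + I) * x + 1)) ^ 2 with hB
  have e3 : A - B = dn x * ((x ^ 2 - 1) * (x ^ 2 - 2 * x - 1)) := by
    rw [hA, hB]
    unfold dn
    linear_combination (4 * x ^ 2 * (x ^ 2 - 1) * (x ^ 2 + 2 * x - 1)) * I_sq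
  have hP : Cg v ((κ ^ 2 * ((x ^ 2 - 1) * (x ^ 2 - 2 * x - 1)) / (4 * dn x)) ^ 2 / (1 + I) ^ 19) 1 := by
    have h5 := cg_mul (cg_I h2) (cg_div h.f'.pI h.f''.pI)
    have e : (κ ^ 2 * ((x ^ 2 - 1) * (x ^ 2 - 2 * x - 1)) / (4 * dn x)) ^ 2 / (1 + I) ^ 19 =
        I * ((x' + I) ^ 2 / (1 + I) ^ 3 / ((x'' + I) ^ 2 / (1 + I) ^ 3)) := by
      rw [hM, hdn]
      have h6 : (κ ^ 2 * ((1 + I) ^ 4 * x ^ 2 * x' * (x' + I)) /
          (4 * (-4 * (1 + I) ^ 2 * x ^ 2 * x' * (x'' + I)))) ^ 2 =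
          κ ^ 4 * (1 + I) ^ 4 * (x' + I) ^ 2 / ((16 ^ 2) * (x'' + I) ^ 2) := by
        field_simp
        ring
      rw [h6, hκ, l_thirty_one', ← l_eight]
      field_simp
    rw [e]
    exact h5
  have hρ : Cg v (4 * A / ((1 + I) ^ 2 * dn x * ((x ^ 2 - 1) * (x ^ 2 - 2 * x - 1))))
      ((Y + 1) ^ 2) := by
    have h5 := cg_om h2 h.f''.pI h.f'.pI
    have e4 : x ^ 2 - 2 * (1 + I) * x + 1 = 4 * (Y - I * ((x - 1) / (1 + I))) := by
      rw [hY]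
      field_simp
      linear_combination (2 - 2 * x) * I_sq
    have e : 4 * A / ((1 + I) ^ 2 * dn x * ((x ^ 2 - 1) * (x ^ 2 - 2 * x - 1))) =
        -((1 + I) ^ 3 / ((x'' + I) * (x' + I))) * ((x + 1) / (1 + I)) *
          (Y - I * ((x - 1) / (1 + I))) ^ 2 / (x ^ 2 * x') := by
      have e5 : (x ^ 2 - 1) * (x ^ 2 - 2 * x - 1) = (x - 1) * (x + 1) * ((1 + I) ^ 2 * x * (x' + I)) := by
        rw [h.q_m]; ring
      rw [e5, hA, e4, hdn]
      have h8 : (4 : ℂ) ^ 2 = (1 + I) ^ 8 := by rw [l_eight]; norm_num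
      generalize hgen : Y - I * ((x - 1) / (1 + I)) = y3
      have h9 : (4 * (x * (x - 1) * ((x + 1) * (4 * y3)) ^ 2)) /
          ((1 + I) ^ 2 * (-4 * (1 + I) ^ 2 * x ^ 2 * x' * (x'' + I)) *
            ((x - 1) * (x + 1) * ((1 + I) ^ 2 * x * (x' + I)))) =
          -(4 ^ 2 * (x + 1) * y3 ^ 2 /
            ((1 + I) ^ 6 * x ^ 2 * x' * (x'' + I) * (x' + I))) := by
        field_simp
      rw [h9, h8]
      field_simp
    rw [e]
    have h6 : Cg v (Y - I * ((x - 1) / (1 + I))) (Y + 1) := by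
      have h7 := (Cg.refl h.y).add ((cg_neg_one h2).mul ((cg_I h2).mul h.f.m))
      rw [one_mul, mul_one] at h7
      have e6 : (x ^ 2 - 1 - 2 * I) / 4 + -1 * (I * ((x - 1) / (1 + I))) =
        Y - I * ((x - 1) / (1 + I)) := by rw [hY]; ring
      rw [e6] at h7
      exact h7
    have h7 := cg_div (cg_mul (cg_mul (cg_neg_one h2) h5) h.f.p)
      (cg_mul (cg_pow h.f.one 2) h.f'.one)
    have h8 := h7.mul (h6.mul h6)
    rw [one_mul, ← sq (Y + 1)] at h8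
    have e6 : -((1 + I) ^ 3 / ((x'' + I) * (x' + I))) * ((x + 1) / (1 + I)) *
          (Y - I * ((x - 1) / (1 + I))) ^ 2 / (x ^ 2 * x') =
        -1 * ((1 + I) ^ 3 / ((x'' + I) * (x' + I))) * ((x + 1) / (1 + I)) / (x ^ 2 * x') *
          ((Y - I * ((x - 1) / (1 + I))) * (Y - I * ((x - 1) / (1 + I)))) := by
      ring
    rw [e6]
    exact h8
  have hc := core (a := a) (b := b) h2 hd (by rw [hA]; linear_combination e1)
    (by rw [hB]; linear_combination e2) e3 hκ0 hM0 hP hρ hy1.l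
  refine ⟨hc.2, ?_⟩
  rw [hc.1]
  have hκ1 : κ ≠ 0 := by
    rintro rfl
    exact hκ0 (by norm_num)
  have h5 := cg_quot h2 h.f''.pI h.f'.pI
  have e : κ ^ 2 / (4 * (1 + I) ^ 2 * (κ ^ 2 * ((x ^ 2 - 1) * (x ^ 2 - 2 * x - 1)) / (4 * dn x))) =
      (x'' + I) / (x' + I) := by
    rw [hM, hdn]
    have h6 : κ ^ 2 / (4 * (1 + I) ^ 2 * (κ ^ 2 * ((1 + I) ^ 4 * x ^ 2 * x' * (x' + I)) /
        (4 * (-4 * (1 + I) ^ 2 * x ^ 2 * x' * (x'' + I))))) =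
        -4 * (x'' + I) / ((1 + I) ^ 4 * (x' + I)) := by
      field_simp
    rw [h6, l_four]
    field_simp
  rw [e]
  exact h5

/-- `σ = 1` -/
lemma case1 {a b κ x x' x'' : ℂ} (h : Pt v x x' x'') (hκ : κ ^ 4 = (1 + I) * 2 ^ 17)
    (e1 : (a + b) ^ 2 * dn x ^ 2 = κ ^ 2 * (x * (x - 1)) * ((1 - 2 * I) * x ^ 2 - 1) ^ 2)
    (e2 : (a - b) ^ 2 * dn x ^ 2 = -(κ ^ 2 * (x + 1)) * (x * (x ^ 2 - 1 + 2 * I)) ^ 2) :
    (Cg v ((a + b) / ((1 + I) * a)) ((x ^ 2 - 1 - 2 * I) / 4 + 1) ∧ Cg v (b / a) 1 ∧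
      Cg v (a ^ 4 / (1 + I) ^ 19) 1) := by
  obtain ⟨n1, n2, n3, n4, n5, n6, n7⟩ := h.nz
  have hl : (1 + I : ℂ) ≠ 0 := one_I_ne
  have hdn := h.dn_eq
  have hd : dn x ≠ 0 := by
    rw [hdn]
    exact mul_ne_zero (mul_ne_zero (mul_ne_zero (mul_ne_zero (by norm_num) (pow_ne_zero 2 hl))
      (pow_ne_zero 2 n1)) n2) n7
  have hM : x * (x ^ 2 - 2 * x - 1) = (1 + I) ^ 2 * x ^ 2 * (x' + I) := by
    rw [h.q_m]; ring
  have hκ0 : κ ^ 2 ≠ 0 := by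
    intro h0
    have h3 : κ ^ 4 = (κ ^ 2) ^ 2 := by ring
    rw [h3, h0, l_thirty_five'] at hκ
    exact neg_ne_zero.2 (mul_ne_zero I_ne_zero (pow_ne_zero 35 hl)) (by rw [← hκ]; ring)
  have hM0 : x * (x ^ 2 - 2 * x - 1) ≠ 0 := by
    rw [hM]
    exact mul_ne_zero (mul_ne_zero (pow_ne_zero 2 hl) (pow_ne_zero 2 n1)) n5
  set Y : ℂ := (x ^ 2 - 1 - 2 * I) / 4 with hY
  have hy1 : Cg v (Y + 1) (Y + 1) := (Cg.refl h.y).add (Cg.refl (by rw [map_one]))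
  set A : ℂ := x * (x - 1) * ((1 - 2 * I) * x ^ 2 - 1) ^ 2 with hA
  set B : ℂ := -(x + 1) * (x * (x ^ 2 - 1 + 2 * I)) ^ 2 with hB
  have e3 : A - B = dn x * (x * (x ^ 2 - 2 * x - 1)) := by
    rw [hA, hB]
    unfold dn
    linear_combination (4 * x ^ 6 + 4 * x ^ 2 * (x + 1) - 4 * x ^ 5) * I_sq
  have hP : Cg v ((κ ^ 2 * (x * (x ^ 2 - 2 * x - 1)) / (4 * dn x)) ^ 2 / (1 + I) ^ 19) 1 := by
    have h5 := cg_div (cg_mul (cg_mul (cg_neg_one h2) (cg_I h2)) h.f'.pI)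
      (cg_mul (cg_pow h.f'.one 2) h.f''.pI)
    have e : (κ ^ 2 * (x * (x ^ 2 - 2 * x - 1)) / (4 * dn x)) ^ 2 / (1 + I) ^ 19 =
        -1 * I * ((x' + I) ^ 2 / (1 + I) ^ 3) / (x' ^ 2 * ((x'' + I) ^ 2 / (1 + I) ^ 3)) := by
      rw [hM, hdn]
      have h6 : (κ ^ 2 * ((1 + I) ^ 2 * x ^ 2 * (x' + I)) /
          (4 * (-4 * (1 + I) ^ 2 * x ^ 2 * x' * (x'' + I)))) ^ 2 =
          κ ^ 4 * (x' + I) ^ 2 / ((16 ^ 2) * x' ^ 2 * (x'' + I) ^ 2) := by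
        field_simp
        ring
      rw [h6, hκ, l_thirty_five', ← l_eight]
      field_simp
    rw [e]
    exact h5
  have hρ : Cg v (4 * A / ((1 + I) ^ 2 * dn x * (x * (x ^ 2 - 2 * x - 1)))) ((Y + 1) ^ 2) := by
    have h5 := cg_om h2 h.f''.pI h.f'.pI
    have e4 : (1 - 2 * I) * x ^ 2 - 1 = 4 * (1 + (1 - 2 * I) * Y) := by
      rw [hY]
      linear_combination -4 * I_sq
    have e : 4 * A / ((1 + I) ^ 2 * dn x * (x * (x ^ 2 - 2 * x - 1))) =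
        (-1 * ((1 + I) ^ 3 / ((x'' + I) * (x' + I)))) * ((x - 1) / (1 + I)) / (x ^ 3 * x') *
          ((1 + (1 - 2 * I) * Y) * (1 + (1 - 2 * I) * Y)) := by
      rw [hM, hA, e4, hdn]
      have h8 : (4 : ℂ) ^ 2 = (1 + I) ^ 8 := by rw [l_eight]; norm_num
      generalize hgen : 1 + (1 - 2 * I) * Y = y3
      have h9 : (4 * (x * (x - 1) * (4 * y3) ^ 2)) /
          ((1 + I) ^ 2 * (-4 * (1 + I) ^ 2 * x ^ 2 * x' * (x'' + I)) *
            ((1 + I) ^ 2 * x ^ 2 * (x' + I))) =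
          -(4 ^ 2 * (x - 1) * y3 ^ 2 /
            ((1 + I) ^ 6 * x ^ 3 * x' * (x'' + I) * (x' + I))) := by
        field_simp
      rw [h9, h8]
      field_simp
    rw [e]
    have h6 : Cg v (1 + (1 - 2 * I) * Y) (Y + 1) := by
      apply cg_of hy1.l
      have e6 : 1 + (1 - 2 * I) * Y - (Y + 1) = 2 * (-(I * Y)) := by ring
      rw [e6, map_mul, Valuation.map_neg, map_mul, v_I, one_mul]
      exact (mul_le_of_le_one_right' h.y).trans_lt h2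
    have h7 := cg_div (cg_mul (cg_mul (cg_neg_one h2) h5) h.f.m)
      (cg_mul (cg_pow h.f.one 3) h.f'.one)
    have h8 := h7.mul (h6.mul h6)
    rwa [one_mul, ← sq (Y + 1)] at h8
  have hc := core (a := a) (b := b) h2 hd (by rw [hA]; linear_combination e1)
    (by rw [hB]; linear_combination e2) e3 hκ0 hM0 hP hρ hy1.l
  exact hc.2

end cases

section fin

variable {Γ : Type*} [LinearOrderedCommGroupWithZero Γ] {v : Valuation ℂ Γ} (h2 : v 2 < 1)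
include h2

lemma even_val {m : ℕ} (h : m % 2 = 0) : v (m : ℂ) < 1 := by
  obtain ⟨k, rfl⟩ : ∃ k, m = 2 * k := ⟨m / 2, by omega⟩
  rw [Nat.cast_mul, map_mul, Nat.cast_ofNat]
  refine (mul_le_of_le_one_right' ?_).trans_lt h2
  exact v_nat k

lemma cg_shift {r Y : ℂ} (hY : v Y ≤ 1) {σ : ℕ} :
    (σ % 2 = 0 → Cg v r Y → Cg v r (Y + σ)) ∧ (σ % 2 = 1 → Cg v r (Y + 1) → Cg v r (Y + σ)) := by
  have hσ : v (Y + σ) ≤ 1 := v.map_add_le hY (v_nat σ)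
  constructor
  · intro h h1
    refine h1.trans (cg_of hσ ?_)
    rw [sub_add_cancel_left, Valuation.map_neg]
    exact even_val h2 h
  · intro h h1
    refine h1.trans (cg_of hσ ?_)
    have e : Y + 1 - (Y + σ) = -(((σ - 1 : ℕ) : ℂ)) := by
      rw [Nat.cast_sub (by omega)]
      push_cast
      ring
    rw [e, Valuation.map_neg]
    exact even_val h2 (by omega)

end fin

lemma corner {Γ : Type*} [LinearOrderedCommGroupWithZero Γ] {v : Valuation ℂ Γ} (h2 : v 2 < 1)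
    {a b κ g : ℂ} (ha : a ≠ 0) (hb : b ≠ 0) (hg : 4 * g ^ 2 = κ ^ 2)
    (h1 : Cg v (κ ^ 2 / (4 * (1 + I) ^ 2 * (a * b))) 1) (h3 : Cg v (b / a) 1) :
    Cg v (g / ((1 + I) * a)) 1 := by
  apply cg_sq1 h2
  have hl : (1 + I : ℂ) ≠ 0 := one_I_ne
  have h4 := cg_mul h1 h3
  have e : (g / ((1 + I) * a)) ^ 2 = κ ^ 2 / (4 * (1 + I) ^ 2 * (a * b)) * (b / a) := by
    rw [← hg]
    field_simp
  rw [e]
  exact h4

lemma all (g0 : S_GIDO0) (g1 : S_GIDO1) {L : PeriodPair} {Ω s : ℂ} (h : NL L Ω s) (σ : ℕ)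
    {Γ : Type} [LinearOrderedCommGroupWithZero Γ] {v : Valuation ℂ Γ} (h2 : v 2 < 1)
    {z : ℂ} (hz : OT L z) :
    (Cg v ((GO σ L Ω z + GO σ L Ω (-z)) / ((1 + I) * GO σ L Ω z))
      ((℘[L] (2 * z) ^ 2 - 1 - 2 * I) / 4 + σ) ∧ Cg v (GO σ L Ω (-z) / GO σ L Ω z) 1 ∧
      Cg v (GO σ L Ω z ^ 4 / (1 + I) ^ 19) 1) ∧
    Cg v (GO σ L Ω 0 / ((1 + I) * GO σ L Ω z)) (uu (cst σ)) := by
  have hP := pt_of h2 h.1 hz
  obtain hs | hs : σ % 2 = 0 ∨ σ % 2 = 1 := by omega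
  · obtain ⟨κ, hκ, hg, hid⟩ := g0 σ hs L Ω s h
    obtain ⟨i1, i2⟩ := hid z hz
    by_cases h4 : σ % 4 = 0
    · rw [if_pos h4] at hκ hg
      have hpa : pa σ (℘[L] (2 * z)) = (℘[L] (2 * z) - 1) *
          (℘[L] (2 * z) ^ 2 + 2 * (1 - I) * ℘[L] (2 * z) + 1) := by
        unfold pa; rw [if_pos h4]
      have hpb : pb σ (℘[L] (2 * z)) = (℘[L] (2 * z) + 1) *
          (℘[L] (2 * z) ^ 2 - 2 * (1 - I) * ℘[L] (2 * z) + 1) := by
        unfold pb; rw [if_pos h4]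
      rw [hpa] at i1
      rw [hpb] at i2
      obtain ⟨⟨j1, j2, j3⟩, j4⟩ := case0 h2 hP hκ i1 i2
      refine ⟨⟨(cg_shift h2 hP.y).1 hs j1, j2, j3⟩, ?_⟩
      have ha : GO σ L Ω z ≠ 0 := by
        intro h0
        have := cg_one_ne j3
        rw [h0] at this
        simp at this
      have hb : GO σ L Ω (-z) ≠ 0 := by
        intro h0
        have := cg_one_ne j2
        rw [h0] at this
        simp at this
      have hc : cst σ = 1 := by unfold cst; rw [if_pos (Or.inl h4)]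
      rw [hc, uu_one]
      exact corner h2 ha hb hg j4 j2
    · rw [if_neg h4] at hκ hg
      have h5 : σ % 4 = 2 := by omega
      have hpa : pa σ (℘[L] (2 * z)) = (1 + 2 * I) * ℘[L] (2 * z) ^ 2 - 1 := by
        unfold pa; rw [if_neg h4, if_neg (by omega), if_pos h5]
      have hpb : pb σ (℘[L] (2 * z)) = ℘[L] (2 * z) * (℘[L] (2 * z) ^ 2 - 1 - 2 * I) := by
        unfold pb; rw [if_neg h4, if_neg (by omega), if_pos h5]
      rw [hpa] at i1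
      rw [hpb] at i2
      obtain ⟨j1, j2, j3⟩ := case2 h2 hP hκ i1 i2
      refine ⟨⟨(cg_shift h2 hP.y).1 hs j1, j2, j3⟩, ?_⟩
      have hc : cst σ = 0 := by unfold cst; rw [if_neg (by omega)]
      have hg0 : GO σ L Ω 0 = 0 := by
        have h6 : GO σ L Ω 0 ^ 2 = 0 := by
          rcases mul_eq_zero.1 hg with h7 | h7
          · norm_num at h7
          · exact h7
        exact pow_eq_zero_iff (by norm_num) |>.1 h6
      rw [hc, uu_zero, hg0, zero_div]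
      exact Cg.refl (by rw [map_zero]; exact zero_le)
  · obtain ⟨κ, hκ, hg, hid⟩ := g1 σ hs L Ω s h
    obtain ⟨i1, i2⟩ := hid z hz
    by_cases h4 : σ % 4 = 3
    · rw [if_pos h4] at hκ hg
      have hpa : pa σ (℘[L] (2 * z)) = (℘[L] (2 * z) + 1) *
          (℘[L] (2 * z) ^ 2 - 2 * (1 + I) * ℘[L] (2 * z) + 1) := by
        unfold pa; rw [if_neg (by omega), if_neg (by omega), if_neg (by omega)]
      have hpb : pb σ (℘[L] (2 * z)) = (℘[L] (2 * z) - 1) *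
          (℘[L] (2 * z) ^ 2 + 2 * (1 + I) * ℘[L] (2 * z) + 1) := by
        unfold pb; rw [if_neg (by omega), if_neg (by omega), if_neg (by omega)]
      rw [hpa] at i1
      rw [hpb] at i2
      obtain ⟨⟨j1, j2, j3⟩, j4⟩ := case3 h2 hP hκ i1 i2
      refine ⟨⟨(cg_shift h2 hP.y).2 hs j1, j2, j3⟩, ?_⟩
      have ha : GO σ L Ω z ≠ 0 := by
        intro h0
        have := cg_one_ne j3
        rw [h0] at this
        simp at this
      have hb : GO σ L Ω (-z) ≠ 0 := by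
        intro h0
        have := cg_one_ne j2
        rw [h0] at this
        simp at this
      have hc : cst σ = 1 := by unfold cst; rw [if_pos (Or.inr h4)]
      rw [hc, uu_one]
      exact corner h2 ha hb hg j4 j2
    · rw [if_neg h4] at hκ hg
      have h5 : σ % 4 = 1 := by omega
      have hpa : pa σ (℘[L] (2 * z)) = (1 - 2 * I) * ℘[L] (2 * z) ^ 2 - 1 := by
        unfold pa; rw [if_neg (by omega), if_pos h5]
      have hpb : pb σ (℘[L] (2 * z)) = ℘[L] (2 * z) * (℘[L] (2 * z) ^ 2 - 1 + 2 * I) := by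
        unfold pb; rw [if_neg (by omega), if_pos h5]
      rw [hpa] at i1
      rw [hpb] at i2
      obtain ⟨j1, j2, j3⟩ := case1 h2 hP hκ i1 i2
      refine ⟨⟨(cg_shift h2 hP.y).2 hs j1, j2, j3⟩, ?_⟩
      have hc : cst σ = 0 := by unfold cst; rw [if_neg (by omega)]
      have hg0 : GO σ L Ω 0 = 0 := by
        have h6 : GO σ L Ω 0 ^ 2 = 0 := by
          rcases mul_eq_zero.1 hg with h7 | h7
          · norm_num at h7
          · exact h7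
        exact pow_eq_zero_iff (by norm_num) |>.1 h6
      rw [hc, uu_zero, hg0, zero_div]
      exact Cg.refl (by rw [map_zero]; exact zero_le)

/-- **valuations of the values** -/
theorem valo (g0 : S_GIDO0) (g1 : S_GIDO1) : S_VALO := by
  intro σ L Ω s h Γ _ v h2
  have hl : (1 + I : ℂ) ≠ 0 := one_I_ne
  constructor
  · intro z hz
    obtain ⟨⟨j1, j2, j3⟩, j4⟩ := all g0 g1 h σ h2 hz
    refine ⟨?_, j1, j4⟩
    have h5 := cg_one_val j3
    rw [map_div₀, map_pow, map_pow] at h5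
    exact (div_eq_one_iff_eq (pow_ne_zero 19 v_pi_ne)).1 h5
  · intro z w hz hw
    obtain ⟨⟨-, -, j3⟩, -⟩ := all g0 g1 h σ h2 hz
    obtain ⟨⟨-, -, k3⟩, -⟩ := all g0 g1 h σ h2 hw
    apply cg_sq1 h2
    apply cg_sq1 h2
    have h5 := cg_div j3 k3
    have hw0 : GO σ L Ω w ≠ 0 := by
      intro h0
      have := cg_one_ne k3
      rw [h0] at this
      simp at this
    have e : ((GO σ L Ω z / GO σ L Ω w) ^ 2) ^ 2 =
        GO σ L Ω z ^ 4 / (1 + I) ^ 19 / (GO σ L Ω w ^ 4 / (1 + I) ^ 19) := by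
      field_simp
    rw [e]
    exact h5

end Pool.Agent.D0H43.Q4.O
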