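import Pool.Agent.D0H10.Q4.AllK
import Pool.Agent.D0H43.Q4.FinR
import Pool.Agent.D0H43.Q4.HecO
import Pool.Agent.D0H43.Q4.LimO
import Pool.Agent.D0H43.Q4.ValO
import Pool.Agent.D0H54.Q4.Rhso
import Pool.Agent.D0H52.Q4.Combo
import Pool.Agent.D0H69.Q4.Lso
import Pool.Agent.D0H76.Q4.Selo
import Pool.Agent.D0H76.Q4.Convo
import Pool.Agent.D0H45.QE.Fin
import Pool.Agent.D0H84.Q4.Gido
import Pool.Agent.D0H13.Q4.Supl

/-!
# Project Q4: all modules, class `b = 1`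
-/

set_option autoImplicit false

namespace Pool.Agent.D0H43.Q4.P

open Pool.Agent.D0H10.Q4

/-- all modules for the curves `y² = x³ + i ^ σ (1 + i) Δ x` -/
theorem bo : O.BO where
  hec := O.heco
  lim := O.limo
  bet := O.beto O.limo O.eulo (O.valo Pool.Agent.D0H84.Q4.gido0 Pool.Agent.D0H84.Q4.gido1)
    (Pool.Agent.D0H54.Q4.O.rhso Pool.Agent.D0H13.Q4.supl
      (O.valo Pool.Agent.D0H84.Q4.gido0 Pool.Agent.D0H84.Q4.gido1))
    Pool.Agent.D0H52.Q4.combo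
  ls := Pool.Agent.D0H69.Q4.lso Pool.Agent.D0H13.Q4.supl
  sel := Pool.Agent.D0H76.Q4.selo
  conv := Pool.Agent.D0H76.Q4.convo
  den := Pool.Agent.D0H45.QE.deno

theorem all6 : Cls S6 crit := cls6 bk bd bo denK

end Pool.Agent.D0H43.Q4.P
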