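import Pool.Agent.D0H2.Q4.BetI
import Pool.Agent.D0H43.Q4.HecO

/-!
# Project Q4, module D2.9: the values modulo the maximal ideal
-/

set_option autoImplicit false
set_option linter.unusedSectionVars false

open Filter Complex
open scoped Topology PeriodPair
open Pool.Agent.TH936.CM

namespace Pool.Agent.D0H43.Q4.O

open H385 (ZI RQ im1 nrm)
open Pool.Agent.H304R3.HK (tc HC LH)
open Pool.Agent.Y699
open Pool.Agent.W164.RC (tc_mul unit_cases two2 prim_iff_dvd)
open Pool.Agent.H304R2.EC.A1 (prim prim_mul prim_one prim_norm_odd prim_ne_zero)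
open Pool.Agent.D0H10.Q4 hiding bs
open Pool.Agent.D0H43.Q4
open Pool.Agent.D0H2.Q4 (fac_cgi tc_prim BB_per')

section rec

variable {ι : Type} [DecidableEq ι]

/-- the solution of the recursion with right side `R` -/
def br (R : Finset ι → ZMod 2) (t : ι → ZMod 2) (A : ι → ι → ZMod 2) : Finset ι → ZMod 2 :=
  Finset.strongInduction fun V ih => R V +
    ∑ T ∈ V.ssubsets.attach, ih T.1 (Finset.mem_ssubsets.1 T.2) * ∏ k ∈ V \ T.1, (t k + ∑ l ∈ T.1, A l k)

lemma br_eq (R : Finset ι → ZMod 2) (t : ι → ZMod 2) (A : ι → ι → ZMod 2) (V : Finset ι) :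
    br R t A V = R V +
      ∑ T ∈ V.ssubsets, br R t A T * ∏ k ∈ V \ T, (t k + ∑ l ∈ T, A l k) := by
  unfold br
  rw [Finset.strongInduction_eq]
  congr 1
  exact Finset.sum_attach V.ssubsets (fun T => Finset.strongInduction (fun V ih =>
    R V + ∑ T ∈ V.ssubsets.attach, ih T.1 (Finset.mem_ssubsets.1 T.2) *
      ∏ k ∈ V \ T.1, (t k + ∑ l ∈ T.1, A l k)) T * ∏ k ∈ V \ T, (t k + ∑ l ∈ T, A l k))

lemma br_rec (R : Finset ι → ZMod 2) (t : ι → ZMod 2) (A : ι → ι → ZMod 2) (V : Finset ι) :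
    ∑ T ∈ V.powerset, br R t A T * ∏ k ∈ V \ T, (t k + ∑ l ∈ T, A l k) = R V := by
  rw [powerset_ss, Finset.sdiff_self, Finset.prod_empty, mul_one, br_eq R t A V]
  have : ∀ a b : ZMod 2, a + b + b = a := by decide
  exact this _ _

end rec

lemma sg_cast (n : ℕ) : ((sg ((n : ℕ) : ZMod 2) : ℤ) : ZI) = (-1) ^ n := by
  rcases Nat.even_or_odd n with h | h
  · have h1 : ((n : ℕ) : ZMod 2) = 0 := by
      rw [ZMod.natCast_eq_zero_iff]
      exact h.two_dvd
    rw [h1, h.neg_one_pow]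
    decide
  · have h1 : ((n : ℕ) : ZMod 2) = 1 := by
      obtain ⟨m, rfl⟩ := h
      push_cast
      have : (2 : ZMod 2) = 0 := by decide
      rw [this]; ring
    rw [h1, h.neg_one_pow]
    decide

variable {ι : Type} [DecidableEq ι] {pr : ι → ZI}

lemma wq_wt (hp : PF pr) (j : ι) : ((wq (pr j) : ℕ) : ZMod 2) = wt pr j := by
  have hm := (hp.pp j).norm_mod
  have hc := nrm_cast (pr j)
  unfold wt
  by_cases h8 : (pr j).norm % 8 = 5
  · rw [if_pos h8]
    have hw : (wq (pr j)) % 2 = 1 := by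
      unfold wq
      omega
    have h2 := ZMod.natCast_mod (wq (pr j)) 2
    rw [← h2, hw]
    norm_num
  · rw [if_neg h8]
    have hw : (wq (pr j)) % 2 = 0 := by
      unfold wq
      omega
    have h2 := ZMod.natCast_mod (wq (pr j)) 2
    rw [← h2, hw]
    norm_num

lemma wo_sq (σ : ℕ) (hp : PF pr) (j : ι) : wo σ (pr j) ^ 2 = ((sg (hO σ pr j) : ℤ) : ZI) := by
  unfold wo
  rw [← pow_mul, mul_comm, pow_mul]
  have e : (im1 : ZI) ^ 2 = -1 := by decide
  rw [e, ← sg_cast]
  congr 2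
  unfold hO sl
  rw [← wq_wt hp j]
  push_cast
  ring

/-- the square of the value -/
lemma uo_sq (σ : ℕ) (hp : PF pr) {T : Finset ι} {e : ι → ℕ}
    (he : ∀ i ∈ T, e i % 2 = 1) {k : ι} (hk : k ∉ T) :
    (wo σ (pr k) * c4 pr T e (pr k)) ^ 2 =
      ((sg (hO σ pr k + ∑ l ∈ T, Y699.em pr l k) : ℤ) : ZI) := by
  rw [mul_pow, wo_sq σ hp k, sg_add, Int.cast_mul]
  congr 1
  unfold c4
  rw [← Finset.prod_pow, sg_sum, Int.cast_prod]
  refine Finset.prod_congr rfl fun i hi => ?_
  have hik : i ≠ k := fun h => hk (h ▸ hi)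
  have hnd : ¬ pr i ∣ pr k := ndv hp hik
  unfold fe
  rw [if_neg hnd, ← pow_mul, mul_comm, pow_mul, q4_sq (hp.pp i), qr_sg hnd]
  have e1 : (if qr (pr i) (pr k) = -1 then (1 : ZMod 2) else 0) = Y699.em pr i k := by
    rw [em_sy hp]
    rfl
  rw [e1, ← Int.cast_pow, sg_sq _ _ (he i hi)]

lemma uo_norm (σ : ℕ) (hp : PF pr) {T : Finset ι} {e : ι → ℕ} {k : ι} (hk : k ∉ T) :
    (wo σ (pr k) * c4 pr T e (pr k)).norm = 1 := by
  rw [Zsqrtd.norm_mul, wo_norm, c4_norm hp T e, one_mul]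
  intro i hi
  have hik : i ≠ k := fun h => hk (h ▸ hi)
  exact ndv hp hik

/-- the Euler factor at `k` -/
lemma euler_cgo {Γ : Type*} [LinearOrderedCommGroupWithZero Γ] {v : Valuation ℂ Γ} (h2 : v 2 < 1)
    (σ : ℕ) (hp : PF pr) {T : Finset ι} {e : ι → ℕ} (he : ∀ i ∈ T, e i % 2 = 1)
    {k : ι} (hk : k ∉ T) :
    Cg v ((1 - tc (wo σ (pr k) * c4 pr T e (pr k)) / tc (pr k)) / (1 + I))
      (uu (hO σ pr k + ∑ l ∈ T, Y699.em pr l k)) :=
  fac_cgi h2 (hp.pp k).prm (uo_norm σ hp hk) (uo_sq σ hp he hk)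

/-! ### the recursion -/

variable {L : PeriodPair} {Ω s : ℂ}

lemma lvo_congr {σ : ℕ} {V : Finset ι} {e e' : ι → ℕ} (h : ∀ i ∈ V, e i = e' i) :
    lvo σ L Ω pr V e = lvo σ L Ω pr V e' := by
  unfold lvo
  congr 2
  funext q
  rw [c4_congr h]

/-- the Euler factor -/
noncomputable def efo (σ : ℕ) (pr : ι → ZI) (T : Finset ι) (e : ι → ℕ) (k : ι) : ℂ :=
  1 - tc (wo σ (pr k) * c4 pr T e (pr k)) / tc (pr k)

lemma lvo_eT (hlim : S_LIMO) (heul : S_EULO) (σ : ℕ) (h : NL L Ω s) (hp : PF pr)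
    (e : ι → ℕ) (T : Finset ι) : ∀ R : Finset ι, Disjoint T R →
      lvo σ L Ω pr (T ∪ R) (eT e T) = (∏ k ∈ R, efo σ pr T e k) * lvo σ L Ω pr T e := by
  intro R
  induction R using Finset.induction_on with
  | empty =>
    intro _
    rw [Finset.union_empty, Finset.prod_empty, one_mul]
    exact lvo_congr fun i hi => by unfold eT; rw [if_pos hi]
  | insert k R hk ih =>
    intro hd
    rw [Finset.disjoint_insert_right] at hd
    obtain ⟨hkT, hd⟩ := hd
    have hV : (T ∪ insert k R).erase k = T ∪ R := by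
      rw [Finset.union_insert, Finset.erase_insert]
      rw [Finset.mem_union]
      tauto
    have hkV : k ∈ T ∪ insert k R := Finset.mem_union_right _ (Finset.mem_insert_self _ _)
    have h1 := hlim σ L Ω s h ι pr hp (T ∪ R) (eT e T)
    have h2 := hlim σ L Ω s h ι pr hp (T ∪ insert k R) (eT e T)
    have h3 := heul σ ι pr hp (T ∪ insert k R) (eT e T) k hkV (by unfold eT; rw [if_neg hkT])
      (lvo σ L Ω pr (T ∪ R) (eT e T)) (by rw [hV]; exact h1)
    rw [tendsto_nhds_unique h2 h3, ih hd, Finset.prod_insert hk, hV]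
    have h4 : c4 pr (T ∪ R) (eT e T) (pr k) = c4 pr T e (pr k) := by
      apply c4_eT hp Finset.subset_union_left
      intro i hi
      apply ndv hp
      rintro rfl
      rw [Finset.mem_union] at hi
      tauto
    rw [h4]
    unfold efo
    ring

lemma lvo_eT' (hlim : S_LIMO) (heul : S_EULO) (σ : ℕ) (h : NL L Ω s)
    (hp : PF pr) (e : ι → ℕ) {T V : Finset ι} (hTV : T ⊆ V) :
    lvo σ L Ω pr V (eT e T) = (∏ k ∈ V \ T, efo σ pr T e k) * lvo σ L Ω pr T e := by
  have := lvo_eT hlim heul σ h hp e T (V \ T) Finset.disjoint_sdiff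
  rwa [Finset.union_sdiff_of_subset hTV] at this

/-- the sum of the limits -/
lemma lvo_sum (σ : ℕ) (hp : PF pr) (V : Finset ι) (e : ι → ℕ) :
    ∑ T ∈ V.powerset, lvo σ L Ω pr V (eT e T) =
      Ω * tc (wo σ (DD pr V)) / (8 * (1 + I) * tc (DD pr V)) *
      ∑ᶠ q : RQ (DD pr V), (∏ j ∈ V, tc (fe (pr j) 0 (f7 * q.out) + fe (pr j) (e j) (f7 * q.out))) *
        GO σ L Ω (zq Ω (DD pr V) q.out) := by
  classical
  have := fin_DD hp V
  let _ := Fintype.ofFinite (RQ (DD pr V))
  unfold lvo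
  rw [← Finset.mul_sum]
  congr 1
  rw [finsum_eq_sum_of_fintype]
  simp_rw [finsum_eq_sum_of_fintype]
  rw [Finset.sum_comm]
  refine Finset.sum_congr rfl fun q _ => ?_
  rw [← Finset.sum_mul, ← tc_prod, ← c4_sum]
  congr 1
  rw [← tch_eq, map_sum]
  exact Finset.sum_congr rfl fun T _ => (tch_eq _).symm

lemma AA_per' (L : PeriodPair) {z w : ℂ} (h : z - w ∈ L.lattice) : AA L z = AA L w := by
  unfold AA
  rw [Y699.wp_per L h, Y699.wp'_per L h]

lemma PO_per (σ : ℕ) (L : PeriodPair) {z w : ℂ} (h : z - w ∈ L.lattice) : PO σ L z = PO σ L w := by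
  unfold PO
  rw [AA_per' L h, BB_per' L h]

lemma GO_per (σ : ℕ) (L : PeriodPair) {z w : ℂ} (h : z - w ∈ L.lattice) :
    GO σ L Ω z = GO σ L Ω w := by
  have key : ∀ a : ℂ, PO σ L (z + a) = PO σ L (w + a) := fun a =>
    PO_per σ L (by rwa [add_sub_add_right_eq_sub])
  unfold GO
  simp only [add_assoc]
  rw [key, key, key, key]

lemma lvo_empty (σ : ℕ) (h : NL L Ω s) (e : ι → ℕ) :
    lvo σ L Ω pr ∅ e = Ω / (8 * (1 + I)) * GO σ L Ω 0 := by
  classical
  have h1 : DD pr ∅ = 1 := by unfold DD; rw [Finset.prod_empty]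
  unfold lvo
  rw [h1]
  have h3 : Subsingleton (RQ (1 : ZI)) := by
    rw [Ideal.Quotient.subsingleton_iff, Ideal.span_singleton_one]
  rw [wo_one, tc_one]
  have h6 : ∀ q : RQ (1 : ZI), tc (c4 pr ∅ e (f7 * q.out)) * GO σ L Ω (zq Ω 1 q.out) =
      GO σ L Ω 0 := by
    intro q
    unfold c4
    rw [Finset.prod_empty, tc_one, one_mul]
    apply GO_per
    rw [sub_zero]
    refine (mem_lat h.gl.lat).2 ⟨q.out, ?_⟩
    unfold zq
    rw [tc_one, div_one]
  let _ := Fintype.ofFinite (RQ (1 : ZI))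
  rw [finsum_eq_sum_of_fintype, Finset.sum_congr rfl fun q _ => h6 q, Finset.sum_const]
  have h7 : (Finset.univ : Finset (RQ (1 : ZI))).card = 1 := by
    rw [Finset.card_univ]
    exact Fintype.card_eq_one_iff_nonempty_unique.2 ⟨⟨⟨0⟩, fun a => Subsingleton.elim _ _⟩⟩
  rw [h7, one_smul]
  ring

/-- the normalised value -/
noncomputable def bto (σ : ℕ) (L : PeriodPair) (Ω : ℂ) (pr : ι → ZI) (e : ι → ℕ) (w : ℂ)
    (V : Finset ι) : ℂ :=
  lvo σ L Ω pr V e * (8 * (1 + I)) / (Ω * (1 + I) ^ (V.card + 1) * GO σ L Ω w)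

/-- the exact recursion -/
lemma bto_rec (hlim : S_LIMO) (heul : S_EULO) (σ : ℕ) (h : NL L Ω s) {w : ℂ}
    (hG : GO σ L Ω w ≠ 0) (hp : PF pr) (V : Finset ι) (e : ι → ℕ) :
    ∑ T ∈ V.powerset, bto σ L Ω pr e w T * ∏ k ∈ V \ T, (efo σ pr T e k / (1 + I)) =
      tc (wo σ (DD pr V)) / tc (DD pr V) *
      ((∑ᶠ q : RQ (DD pr V), (∏ j ∈ V, pf (pr j) (e j) (f7 * q.out)) *
        GO σ L Ω (zq Ω (DD pr V) q.out)) / ((1 + I) * GO σ L Ω w)) := by
  classical
  have := fin_DD hp V
  let _ := Fintype.ofFinite (RQ (DD pr V))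
  have hΩ := h.gl.lat.ne
  have hl : (1 + I : ℂ) ≠ 0 := one_I_ne
  have hD := tc_ne (DD_ne hp V)
  have h1 : ∀ T ∈ V.powerset, bto σ L Ω pr e w T * ∏ k ∈ V \ T, (efo σ pr T e k / (1 + I)) =
      lvo σ L Ω pr V (eT e T) * ((8 * (1 + I)) / (Ω * (1 + I) ^ (V.card + 1) * GO σ L Ω w)) := by
    intro T hT
    rw [Finset.mem_powerset] at hT
    rw [lvo_eT' hlim heul σ h hp e hT, Finset.prod_div_distrib, Finset.prod_const]
    unfold bto
    have hc : V.card + 1 = (V \ T).card + (T.card + 1) := by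
      rw [← Finset.card_sdiff_add_card_eq_card hT]
      ring
    rw [hc, pow_add]
    field_simp
    ring
  rw [Finset.sum_congr rfl h1, ← Finset.sum_mul, lvo_sum σ hp V e, finsum_eq_sum_of_fintype,
    finsum_eq_sum_of_fintype, Finset.mul_sum, Finset.sum_mul, Finset.sum_div, Finset.mul_sum]
  refine Finset.sum_congr rfl fun q _ => ?_
  unfold pf
  rw [Finset.prod_div_distrib, Finset.prod_const, pow_succ]
  field_simp

/-- **Module D2.9.** -/
theorem beto (hlim : S_LIMO) (heul : S_EULO) (hval : S_VALO) (hrhs : S_RHSO) (hcomb : S_COMBO) :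
    S_BETO := by
  intro σ L Ω s h Γ _ v h2 ι _ pr hp V e he w hw
  obtain ⟨hv1, hv2⟩ := hval σ L Ω s h Γ v h2
  have hG : GO σ L Ω w ≠ 0 := by
    intro h0
    have h1 := (hv1 w hw).1
    rw [h0, map_zero, zero_pow (by norm_num)] at h1
    have h3 : v (1 + I) ≠ 0 := (Valuation.ne_zero_iff _).2 one_I_ne
    exact (pow_ne_zero 19 h3) h1.symm
  -- odd exponents everywhere
  set e' : ι → ℕ := fun i => if i ∈ V then e i else 1 with he'
  have hodd : ∀ i, e' i % 2 = 1 := by
    intro i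
    rw [he']
    simp only
    split_ifs with hi
    · exact he i hi
    · norm_num
  have hV : lvo σ L Ω pr V e = lvo σ L Ω pr V e' := lvo_congr fun i hi => by
    rw [he']; simp only; rw [if_pos hi]
  rw [hV]
  set R : Finset ι → ZMod 2 := fun V => if V = ∅ then cst σ else
    ham (hO σ pr) (wt pr) (Y699.em pr) V + if V.card = 1 then ∑ j ∈ V, wt pr j else 0 with hR
  have hdet : br R (hO σ pr) (Y699.em pr) V = bq σ pr V := by
    unfold bq
    exact hcomb ι (hO σ pr) (wt pr) (cst σ) (Y699.em pr) (em_sy hp) _ (br_rec _ _ _) V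
  rw [← hdet]
  have key : ∀ V : Finset ι, Cg v (bto σ L Ω pr e' w V) (uu (br R (hO σ pr) (Y699.em pr) V)) := by
    intro V
    induction V using Finset.strongInduction with
    | H V ih =>
      have h5 := bto_rec hlim heul σ h hG hp V e'
      rw [powerset_ss, Finset.sdiff_self, Finset.prod_empty, mul_one] at h5
      have h6 : Cg v (∑ T ∈ V.ssubsets, bto σ L Ω pr e' w T *
            ∏ k ∈ V \ T, (efo σ pr T e' k / (1 + I)))
          (uu (∑ T ∈ V.ssubsets, br R (hO σ pr) (Y699.em pr) T *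
            ∏ k ∈ V \ T, (hO σ pr k + ∑ l ∈ T, Y699.em pr l k))) := by
        refine Cg.trans ?_ (uu_sum h2 _ _).symm
        refine Cg.sum _ fun T hT => ?_
        rw [uu_mul, uu_prod]
        refine (ih T (Finset.mem_ssubsets.1 hT)).mul ?_
        refine Cg.prod _ fun k hk => ?_
        exact euler_cgo h2 σ hp (fun i _ => hodd i) (Finset.mem_sdiff.1 hk).2
      have h7 : Cg v (tc (wo σ (DD pr V)) / tc (DD pr V) *
          ((∑ᶠ q : RQ (DD pr V), (∏ j ∈ V, pf (pr j) (e' j) (f7 * q.out)) *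
            GO σ L Ω (zq Ω (DD pr V) q.out)) / ((1 + I) * GO σ L Ω w))) (uu (R V)) := by
        by_cases hne : V = ∅
        · subst hne
          have h8 : ((Finset.ssubsets (∅ : Finset ι))) = ∅ := by
            rw [Finset.eq_empty_iff_forall_notMem]
            intro T hT
            exact Finset.not_ssubset_empty _ (Finset.mem_ssubsets.1 hT)
          rw [h8, Finset.sum_empty, add_zero] at h5
          rw [← h5]
          have h9 : bto σ L Ω pr e' w ∅ = GO σ L Ω 0 / ((1 + I) * GO σ L Ω w) := by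
            unfold bto
            have h0 := h.gl.lat.ne
            have hl : (1 + I : ℂ) ≠ 0 := one_I_ne
            rw [lvo_empty σ h, Finset.card_empty, zero_add, pow_one]
            field_simp
          rw [h9, hR]
          simp only [if_true]
          exact (hv1 w hw).2.2
        · have h8 := hrhs σ L Ω s h Γ v h2 ι pr hp V e' (Finset.nonempty_iff_ne_empty.2 hne)
            (fun i _ => hodd i) w hw
          have h11 : R V = ham (hO σ pr) (wt pr) (Y699.em pr) V +
              if V.card = 1 then ∑ j ∈ V, wt pr j else 0 := by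
            rw [hR]
            simp only [if_neg hne]
          rw [h11]
          obtain ⟨z, hz, hz1⟩ := tc_prim h2 (DD_prim hp V)
          have h9 : Cg v (tc (wo σ (DD pr V)) / tc (DD pr V)) 1 := by
            have hu := wo_norm σ (DD pr V)
            have h10 : Cg v (tc (wo σ (DD pr V))) 1 := by
              refine (tc_par h2 _).2 ?_
              rcases unit_cases hu with h | h | h | h <;> rw [h] <;> decide
            have h12 : Cg v (tc (DD pr V)) 1 := by
              apply cg_of (by rw [map_one])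
              have e1 : tc (DD pr V) - 1 = 2 * tc z := by rw [hz]; ring
              rw [e1, map_mul]
              exact (mul_le_of_le_one_right' (tc_le h2 z)).trans_lt h2
            apply cg_of (by rw [map_one])
            have hD0 : tc (DD pr V) ≠ 0 := tc_ne (DD_ne hp V)
            have e2 : tc (wo σ (DD pr V)) / tc (DD pr V) - 1 =
                (tc (wo σ (DD pr V)) - tc (DD pr V)) / tc (DD pr V) := by
              field_simp
            rw [e2, map_div₀, hz1, div_one]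
            exact (h10.trans h12.symm).s
          have h13 := h9.mul h8
          rwa [one_mul] at h13
      have h8 : bto σ L Ω pr e' w V = tc (wo σ (DD pr V)) / tc (DD pr V) *
          ((∑ᶠ q : RQ (DD pr V), (∏ j ∈ V, pf (pr j) (e' j) (f7 * q.out)) *
            GO σ L Ω (zq Ω (DD pr V) q.out)) / ((1 + I) * GO σ L Ω w)) -
          ∑ T ∈ V.ssubsets, bto σ L Ω pr e' w T * ∏ k ∈ V \ T, (efo σ pr T e' k / (1 + I)) := by
        rw [← h5]; ring
      rw [h8, br_eq]
      have h9 := h7.sub h6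
      refine h9.trans ?_
      have h10 := uu_add h2 (R V) (∑ T ∈ V.ssubsets,
        br R (hO σ pr) (Y699.em pr) T * ∏ k ∈ V \ T, (hO σ pr k + ∑ l ∈ T, Y699.em pr l k))
      refine Cg.trans ?_ h10.symm
      set a := R V
      set b := ∑ T ∈ V.ssubsets, br R (hO σ pr) (Y699.em pr) T *
        ∏ k ∈ V \ T, (hO σ pr k + ∑ l ∈ T, Y699.em pr l k)
      apply cg_of (v.map_add_le (v_uu a) (v_uu b))
      have e1 : uu a - uu b - (uu a + uu b) = -(2 * uu b) := by ring
      rw [e1, Valuation.map_neg, map_mul]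
      exact (mul_le_of_le_one_right' (v_uu b)).trans_lt h2
  exact key V

end Pool.Agent.D0H43.Q4.O
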