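import Pool.Agent.D0H10.Q4.StmA

/-!
# Project Q4, block D (helper43): the quartic twists `y² = x³ + D x` over `ℚ(i)` by the `D` with even real
# part and odd imaginary part. Definitions.

`D = i ^ σ Δ`, `σ = 1, 3`, `Δ` primary and squarefree.  The representatives are the primary elements
(`prim`), the weight is `W_σ(a) = i ^ (σ (N a - 1) / 4)`.
-/

set_option autoImplicit false

open Filter Complex
open scoped Topology PeriodPair

namespace Pool.Agent.D0H43.Q4

open H385 (ZI RQ im1 nrm)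
open Pool.Agent.H304R3.HK (tc HC LH)
open Pool.Agent.Y699
open Pool.Agent.H304R2.EC.A1 (prim)

/-- the weight -/
noncomputable def wi (σ : ℕ) (a : ZI) : ZI := im1 ^ (σ * wq a)

variable {ι : Type} [DecidableEq ι]

open Classical in
/-- the character on the primary elements -/
noncomputable def cci (σ : ℕ) (pr : ι → ZI) (V : Finset ι) (e : ι → ℕ) (a : ZI) : ℂ :=
  if prim a then tc (wi σ a * c4 pr V e a) else 0

/-- `B(w) = E(w) - E(w + Ω/2) + E(w + iΩ/2) - E(w + (1+i)Ω/2)` for the Eisenstein series `E` -/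
noncomputable def BB (L : PeriodPair) (w : ℂ) : ℂ := -2 * (℘[L] w ^ 2 + 2 * ℘[L] w - 1) / ℘'[L] w

/-- `G(z) = ∑_{c primary mod 8} W(c) E(z + Ω c / 8)` -/
noncomputable def GI (σ : ℕ) (L : PeriodPair) (Ω z : ℂ) : ℂ :=
  BB L (z + Ω / 8) + I ^ (3 * σ) * BB L (z + Ω / 8 + (1 + I) * (Ω / 4))

/-- the limit of the regularised sum -/
noncomputable def lvi (σ : ℕ) (L : PeriodPair) (Ω : ℂ) (pr : ι → ZI) (V : Finset ι) (e : ι → ℕ) : ℂ :=
  Ω * tc (wi σ (DD pr V)) / (8 * tc (DD pr V)) *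
    ∑ᶠ q : RQ (DD pr V), tc (c4 pr V e (8 * q.out)) * GI σ L Ω (zq Ω (DD pr V) q.out)

/-- `g = G / G(0)` -/
noncomputable def gi (σ : ℕ) (L : PeriodPair) (Ω z : ℂ) : ℂ := GI σ L Ω z / GI σ L Ω 0

end Pool.Agent.D0H43.Q4
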