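import Pool.Agent.D0H43.Q4.Defs1
import Pool.Agent.D0H15.Q4.Path

/-!
# Project Q4, block D, class `b = 1`: the quartic twists `y² = x³ + D x` over `ℚ(i)` by the `D` divisible
# exactly once by `1 + i`. Definitions.

`D = i ^ σ (1 + i) Δ`, `Δ` primary and squarefree.  The representatives are the primary elements (`prim`),
the weight is `W_σ(a) = (i ^ σ (1 + i) / a)_4 = i ^ (σ (N a - 1) / 4 + (x - y - y ^ 2 - 1) / 4)`,
`a = x + i y`.
-/

set_option autoImplicit false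

open Filter Complex
open scoped Topology PeriodPair

namespace Pool.Agent.D0H43.Q4

open H385 (ZI RQ im1 nrm)
open Pool.Agent.H304R3.HK (tc HC LH)
open Pool.Agent.Y699
open Pool.Agent.H304R2.EC.A1 (prim)

/-- the exponent of the quartic symbol of `1 + i` at the primary elements -/
def xl (a : ZI) : ℕ := ((a.re - a.im - a.im ^ 2 - 1) / 4 % 4).toNat

/-- the weight -/
noncomputable def wo (σ : ℕ) (a : ZI) : ZI := im1 ^ (σ * wq a + xl a)

/-- `1 + i` and `8 (1 + i)` -/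
def l1 : ZI := ⟨1, 1⟩
def f7 : ZI := ⟨8, 8⟩

variable {ι : Type} [DecidableEq ι]

open Classical in
/-- the character on the primary elements -/
noncomputable def cco (σ : ℕ) (pr : ι → ZI) (V : Finset ι) (e : ι → ℕ) (a : ZI) : ℂ :=
  if prim a then tc (wo σ a * c4 pr V e a) else 0

/-- the sum over the four classes `1, 5 + 4 i, -3 + 4 i, 1 + 8 i` -/
noncomputable def PO (σ : ℕ) (L : PeriodPair) (w : ℂ) : ℂ :=
  if σ % 2 = 0 then Pool.Agent.D0H10.Q4.AA L w else BB L w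

/-- `G(z) = ∑ W(c) E(z + Ω c / f7)`, the sum over the sixteen primary classes mod `f7 = 8 (1 + i)` -/
noncomputable def GO (σ : ℕ) (L : PeriodPair) (Ω z : ℂ) : ℂ :=
  PO σ L (z + (1 - I) * (Ω / 16)) +
    I ^ (2 * σ + 1) * PO σ L (z + (1 - I) * (Ω / 16) + (1 - I) * (Ω / 4)) +
    I ^ (3 * σ + 3) * (PO σ L (z + (1 - I) * (Ω / 16) + Ω / 4) +
      I ^ (2 * σ + 1) * PO σ L (z + (1 - I) * (Ω / 16) + Ω / 4 + (1 - I) * (Ω / 4)))

/-- the limit of the regularised sum -/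
noncomputable def lvo (σ : ℕ) (L : PeriodPair) (Ω : ℂ) (pr : ι → ZI) (V : Finset ι) (e : ι → ℕ) : ℂ :=
  Ω * tc (wo σ (DD pr V)) / (8 * (1 + I) * tc (DD pr V)) *
    ∑ᶠ q : RQ (DD pr V), tc (c4 pr V e (f7 * q.out)) * GO σ L Ω (zq Ω (DD pr V) q.out)

/-- the common denominator, `x = ℘(2 z)` -/
noncomputable def dn (x : ℂ) : ℂ := x ^ 4 - 4 * I * x ^ 3 + 2 * x ^ 2 + 4 * I * x + 1

/-- the numerator of `G(z) + G(-z)` -/
noncomputable def pa (σ : ℕ) (x : ℂ) : ℂ :=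
  if σ % 4 = 0 then (x - 1) * (x ^ 2 + 2 * (1 - I) * x + 1)
  else if σ % 4 = 1 then (1 - 2 * I) * x ^ 2 - 1
  else if σ % 4 = 2 then (1 + 2 * I) * x ^ 2 - 1
  else (x + 1) * (x ^ 2 - 2 * (1 + I) * x + 1)

/-- the numerator of `G(z) - G(-z)` -/
noncomputable def pb (σ : ℕ) (x : ℂ) : ℂ :=
  if σ % 4 = 0 then (x + 1) * (x ^ 2 - 2 * (1 - I) * x + 1)
  else if σ % 4 = 1 then x * (x ^ 2 - 1 + 2 * I)
  else if σ % 4 = 2 then x * (x ^ 2 - 1 - 2 * I)
  else (x - 1) * (x ^ 2 + 2 * (1 + I) * x + 1)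

/-- the constant corner: `G(0) / ((1 + i) G(z))` modulo the maximal ideal -/
def cst (σ : ℕ) : ZMod 2 := if σ % 4 = 0 ∨ σ % 4 = 3 then 1 else 0

/-- the index parity of `1 + i` -/
def sl (pr : ι → ZI) (j : ι) : ZMod 2 := (xl (pr j) : ZMod 2)

/-- the index parity of `i ^ σ (1 + i)` -/
noncomputable def hO (σ : ℕ) (pr : ι → ZI) (j : ι) : ZMod 2 := sl pr j + σ * wt pr j

/-- sums over the Hamiltonian paths of `V` with weight `s` at the start and `t` at the end -/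
def ham (s t : ι → ZMod 2) (A : ι → ι → ZMod 2) (V : Finset ι) : ZMod 2 :=
  ∑ a ∈ V, ∑ b ∈ V, s a * Pool.Agent.D0H15.Q4.Qp A (V.card - 1) V a b * t b

/-- the bordered matrix `[[Lap + diag h, t], [t^T, c]]` -/
def MB (h t : ι → ZMod 2) (c : ZMod 2) (A : ι → ι → ZMod 2) (V : Finset ι) :
    Matrix (Option V) (Option V) (ZMod 2)
  | none, none => c
  | none, some j => t j
  | some i, none => t i
  | some i, some j => if i = j then h i + ∑ l ∈ V.erase i, A l i else A j i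

/-- the determinant for the starred family -/
noncomputable def bq (σ : ℕ) (pr : ι → ZI) (V : Finset ι) : ZMod 2 :=
  (MB (hO σ pr) (wt pr) (cst σ + ∑ j ∈ V, wt pr j) (em pr) V).det

end Pool.Agent.D0H43.Q4
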