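import Pool.Agent.D0H10.Q4.FinJ
import Pool.Agent.D0H43.Q4.Stm5
import Pool.Agent.D0H43.Q4.BetO

/-!
# Project Q4, class `b = 1`: assembly over `ℚ(i)`, the twists by the `i ^ σ (1 + i) Δ`
-/

set_option autoImplicit false

open NumberField IsDedekindDomain WeierstrassCurve Filter
open scoped Topology

namespace Pool.Agent.D0H43.Q4.O

open H385 (ZI RQ im1 nrm)
open Pool.Agent.H304R3.HK (tc HC LH)
open Pool.Agent.TH841.NF.D (Sha)
open Pool.Agent.Y699 (PS fam on1 LG LG_diff PF Cg uu SB mem_SB pi1 wq wt em)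
open Pool.Agent.D0H43.Q4 Pool.Agent.D0H10.Q4

/-- the inputs for the class `i ^ σ (1 + i) Δ` -/
structure BO : Prop where
  hec : S_HECO
  lim : S_LIMO
  bet : S_BETO
  ls : S_LSO
  sel : S_SELO
  conv : S_CONVO
  den : S_DENO

lemma cst_two (σ : ℕ) : cst (σ + 2) = 1 + cst σ := by
  unfold cst
  have h : σ % 4 = 0 ∨ σ % 4 = 1 ∨ σ % 4 = 2 ∨ σ % 4 = 3 := by omega
  rcases h with h | h | h | h
  · rw [if_neg (by omega), if_pos (by omega)]; decide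
  · rw [if_pos (by omega), if_neg (by omega)]; decide
  · rw [if_pos (by omega), if_neg (by omega)]; decide
  · rw [if_neg (by omega), if_pos (by omega)]; decide

lemma cst_add (σ n : ℕ) : cst (σ + 2 * n) = cst σ + n := by
  induction n with
  | zero => simp
  | succ n ih =>
    rw [show σ + 2 * (n + 1) = σ + 2 * n + 2 by ring, cst_two, ih]
    push_cast
    ring

/-- the bordered determinant -/
theorem bq_eq {σ : ℕ} {Δ : ZI} (h : PS Δ) : bq (sg σ Δ) (fam Δ) Finset.univ = dO σ Δ := by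
  have hp := Pool.Agent.Y699.fam_PF h.ne
  have h20 : (2 : ZMod 2) = 0 := by decide
  have h1 : hO (sg σ Δ) (fam Δ) = hO σ (fam Δ) := by
    funext j
    unfold hO sg
    push_cast
    rw [h20]
    ring
  have h2 : cst (sg σ Δ) + ∑ j ∈ Finset.univ, wt (fam Δ) j = 1 + cst σ := by
    have h3 : sg σ Δ = σ + 2 * (1 + ∑ p : {π : ZI // π ∈ Pool.Agent.Y699.PD Δ}, wq p.1) := by
      unfold sg
      ring
    have h4 : ∑ j ∈ Finset.univ, wt (fam Δ) j =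
        ((∑ p : {π : ZI // π ∈ Pool.Agent.Y699.PD Δ}, wq p.1 : ℕ) : ZMod 2) := by
      push_cast
      refine Finset.sum_congr rfl fun j _ => ?_
      exact (wq_wt hp j).symm
    rw [h3, cst_add, h4]
    push_cast
    have h5 : ∀ a b : ZMod 2, a + (1 + b) + b = 1 + a := by decide
    rw [h5]
  unfold bq dO
  rw [h1, h2]

lemma dO_cases (σ : ℕ) (Δ : ZI) : dO σ Δ = 0 ∨ dO σ Δ = 1 := by
  generalize dO σ Δ = a
  fin_cases a
  · exact Or.inl rfl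
  · exact Or.inr rfl

/-- trivial 2-part -/
def TrivO {K : Type} [Field K] [NumberField K] (e : ZI ≃+* 𝓞 K) (σ : ℕ) (Δ : ZI) : Prop :=
  Finite (cO e σ Δ).toAffine.Point ∧ ∀ (n : ℕ) (x : Sha (cO e σ Δ)), 2 ^ n • x = 0 → x = 0

theorem trivO_iff (B : BO) (σ : ℕ) {K : Type} [Field K] [NumberField K]
    (e : ZI ≃+* 𝓞 K) {Δ : ZI} (h : PS Δ) : TrivO e σ Δ ↔ dO σ Δ = 1 := by
  constructor
  · rintro ⟨hf, hs⟩
    rcases dO_cases σ Δ with h0 | h0
    · obtain ⟨x, hx, hx0⟩ := B.conv σ K e Δ h h0 hf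
      exact absurd (hs 1 x (by rw [pow_one]; exact hx)) hx0
    · exact h0
  · intro hd
    obtain ⟨h1, h2⟩ := B.sel σ K e Δ h hd
    exact ⟨Nat.finite_of_card_ne_zero (by rw [h1]; norm_num), h2⟩

/-- a point of odd order -/
lemma ot_ex {L : PeriodPair} {Ω : ℂ} (h : Pool.Agent.Y699.GLat L Ω) :
    Pool.Agent.Y699.OT L (Pool.Agent.Y699.zq Ω ⟨-1, 2⟩ 1) := by
  refine Pool.Agent.Y699.zq_OT h ⟨by decide, by decide⟩ ?_
  intro hd
  have h1 := isUnit_of_dvd_one hd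
  rw [← Zsqrtd.norm_eq_one_iff] at h1
  revert h1
  decide

/-- the L-function -/
theorem lfunO (B : BO) (σ : ℕ) {Δ : ZI} (h : PS Δ) :
    ∃ Λ : ℂ → ℂ, Differentiable ℂ Λ ∧
    (∀ (K : Type) [Field K] [NumberField K] (e : ZI ≃+* 𝓞 K) (s : ℂ), 3 / 2 < s.re →
      LSeriesSummable ((fun n : ℤ => (n : ℂ)) ∘ (cO e σ Δ).LFunction) s ∧
        Λ s = (cO e σ Δ).LSeries s) ∧
    (dO σ Δ = 1 → Λ 1 ≠ 0) := by
  have hp := Pool.Agent.Y699.fam_PF h.ne
  obtain ⟨X, hX1, hX2, hX3⟩ := B.hec (sg σ Δ) _ (fam Δ) hp Finset.univ on1 (fun i _ => by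
      show 1 % 4 ≠ 0
      norm_num)
  rw [h.DD] at hX1
  refine ⟨LG X, LG_diff hX1, fun K _ _ e s hs => B.ls σ K e Δ h X hX1 hX2 s hs, fun hd => ?_⟩
  apply Pool.Agent.Y699.LG_one
  obtain ⟨L, Ω, s, hN⟩ := nl
  rw [hX3 _ (B.lim (sg σ Δ) L Ω s hN _ (fam Δ) hp Finset.univ on1)]
  intro h0
  have h1 : lvo (sg σ Δ) L Ω (fam Δ) Finset.univ on1 = 0 := by
    rwa [map_eq_zero] at h0
  refine exists_val2 fun Γ _ v hv => ?_
  have hw := ot_ex hN.gl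
  have h2 := B.bet (sg σ Δ) L Ω s hN Γ v hv _ (fam Δ) hp Finset.univ on1 (fun i _ => by
      show 1 % 2 = 1
      norm_num) _ hw
  rw [h1, zero_mul, zero_div, bq_eq h, hd] at h2
  have h4 := (cg_unit h2).2.2 rfl
  rw [map_zero] at h4
  exact zero_ne_one h4

theorem factsO {K : Type} [Field K] [NumberField K] (B : BO) (e : ZI ≃+* 𝓞 K) (σ : ℕ) {Δ : ZI}
    (h : PS Δ) : Facts (e (cl σ 1 Δ)) ∧ (FinT (e (cl σ 1 Δ)) ↔ dO σ Δ = 1) := by
  have h5 : im1 ^ σ * l1 * Δ = cl σ 1 Δ := by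
    unfold cl
    rw [pow_one, mul_assoc]
    rfl
  have h0 : (cO e σ Δ) = Cv ((e (cl σ 1 Δ) : 𝓞 K) : K) := by
    rw [← h5]
    rfl
  have hne : e (cl σ 1 Δ) ≠ 0 := by
    rw [Ne, map_eq_zero_iff e e.injective, ← h5]
    exact mul_ne_zero (mul_ne_zero (unit_im σ).ne_zero (by decide)) h.ne
  have hT : FinT (e (cl σ 1 Δ)) ↔ dO σ Δ = 1 := by
    have h1 := trivO_iff B σ e h
    unfold TrivO at h1
    rw [h0] at h1
    exact h1
  obtain ⟨L, hL, hs, hn⟩ := lfunO B σ h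
  have hs' := hs K e
  rw [h0] at hs'
  exact ⟨⟨⟨L, hL, hs'⟩, fun ht => rkz_of (cv_ell hne) ht.1 hL (fun s h3 => (hs' s h3).2)
    (hn (hT.1 ht))⟩, hT⟩

end Pool.Agent.D0H43.Q4.O
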