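import Pool.Agent.D0H43.Q4.Defs4
import Pool.Agent.D0H54.Q4.Hec1

/-!
Project Q4, block D2: the weight `W(a) = (i ^ σ (1 + i) / a)_4` is multiplicative and periodic modulo
`8 (1 + i)`.
-/

set_option autoImplicit false

namespace Pool.Agent.D0H43.Q4

open H385 (ZI RQ im1 nrm)
open Pool.Agent.Y699 hiding wi
open Pool.Agent.H304R2.EC.A1 (prim prim_mul prim_cancel prim_one prim_norm_odd prim_star eq_one_of_prim
  norm_def' re_mul' im_mul' eq_of_dvd prim_ne_zero exists_prim)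
open Pool.Agent.D0H54.Q4

lemma xl_spec {a : ZI} (h : prim a) : ∃ m y : ℤ, a.re = 1 - 2 * y + 4 * m ∧ a.im = 2 * y ∧
    (xl a : ℤ) = (m - y - y ^ 2) % 4 := by
  obtain ⟨h1, h2⟩ := h
  refine ⟨(a.re - 1 + a.im) / 4, a.im / 2, by omega, by omega, ?_⟩
  have hy : a.im = 2 * (a.im / 2) := by omega
  have hx : a.re = 1 - 2 * (a.im / 2) + 4 * ((a.re - 1 + a.im) / 4) := by omega
  have e : (a.re - a.im - a.im ^ 2 - 1) / 4 = (a.re - 1 + a.im) / 4 - a.im / 2 - (a.im / 2) ^ 2 := by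
    generalize (a.re - 1 + a.im) / 4 = m at *
    generalize a.im / 2 = y at *
    rw [hx, hy]
    have : (1 - 2 * y + 4 * m - 2 * y - (2 * y) ^ 2 - 1) = 4 * (m - y - y ^ 2) := by ring
    rw [this]
    exact Int.mul_ediv_cancel_left _ (by norm_num)
  unfold xl
  rw [e]
  omega

lemma xl_of {a : ZI} {m y : ℤ} (h1 : a.re = 1 - 2 * y + 4 * m) (h2 : a.im = 2 * y) :
    (xl a : ℤ) = (m - y - y ^ 2) % 4 := by
  have hp : prim a := ⟨by rw [h2]; omega, by rw [h1, h2]; omega⟩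
  obtain ⟨m', y', e1, e2, e3⟩ := xl_spec hp
  have : y' = y := by omega
  subst this
  have : m' = m := by omega
  subst this
  exact e3

lemma xl_mul {a b : ZI} (ha : prim a) (hb : prim b) : xl (a * b) % 4 = (xl a + xl b) % 4 := by
  obtain ⟨m, y, a1, a2, a3⟩ := xl_spec ha
  obtain ⟨n, v, b1, b2, b3⟩ := xl_spec hb
  have e1 : (a * b).im = 2 * (y + v + 4 * (-(y * v) + m * v + n * y)) := by
    rw [im_mul', a1, a2, b1, b2]; ring
  have e2 : (a * b).re = 1 - 2 * (y + v + 4 * (-(y * v) + m * v + n * y)) +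
      4 * (m + n + 4 * (m * n) - 2 * (y * v)) := by
    rw [re_mul', a1, a2, b1, b2]; ring
  have e3 := xl_of e2 e1
  have e4 : m + n + 4 * (m * n) - 2 * (y * v) - (y + v + 4 * (-(y * v) + m * v + n * y)) -
      (y + v + 4 * (-(y * v) + m * v + n * y)) ^ 2 = (m - y - y ^ 2) + (n - v - v ^ 2) +
      4 * ((m * n) - y * v - (-(y * v) + m * v + n * y) -
        2 * ((y + v) * (-(y * v) + m * v + n * y)) - 4 * (-(y * v) + m * v + n * y) ^ 2) := by ring
  rw [e4] at e3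
  omega

lemma xl_per {a b : ZI} (ha : prim a) (hb : prim b) (h : f7 ∣ a - b) : xl a = xl b := by
  obtain ⟨t, ht⟩ := h
  obtain ⟨m, y, a1, a2, a3⟩ := xl_spec ha
  obtain ⟨n, v, b1, b2, b3⟩ := xl_spec hb
  have e1 : a.re - b.re = 8 * t.re - 8 * t.im := by
    have := congrArg Zsqrtd.re ht
    rw [re_mul', Zsqrtd.re_sub] at this
    rw [this]; simp [f7]
  have e2 : a.im - b.im = 8 * t.re + 8 * t.im := by
    have := congrArg Zsqrtd.im ht
    rw [im_mul', Zsqrtd.im_sub] at this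
    rw [this]; simp [f7]; ring
  have e3 : y = v + 4 * (t.re + t.im) := by omega
  have e4 : m = n + 4 * t.re := by omega
  have e5 : m - y - y ^ 2 = n - v - v ^ 2 + 4 * (t.re - (t.re + t.im) - 2 * (v * (t.re + t.im)) -
      4 * (t.re + t.im) ^ 2) := by
    rw [e3, e4]; ring
  omega

lemma xl_one : xl 1 = 0 := by decide

lemma xl_lt (a : ZI) : xl a < 4 := by
  unfold xl
  omega

lemma wo_norm (σ : ℕ) (a : ZI) : (wo σ a).norm = 1 := by
  unfold wo
  induction σ * wq a + xl a with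
  | zero => simp
  | succ j ih => rw [pow_succ, Zsqrtd.norm_mul, ih]; decide

lemma wq_mul {a b : ZI} (ha : a.norm % 2 = 1) (hb : b.norm % 2 = 1) :
    wq (a * b) = 4 * (wq a * wq b) + (wq a + wq b) := by
  have h1 := nrm_eq ha
  have h2 := nrm_eq hb
  have h4 : nrm (a * b) = 4 * (4 * (wq a * wq b) + (wq a + wq b)) + 1 := by
    rw [nrm_mul', h1, h2]; ring
  have h5 : wq (a * b) = nrm (a * b) / 4 := rfl
  omega

lemma wo_mul (σ : ℕ) {a b : ZI} (ha : prim a) (hb : prim b) : wo σ (a * b) = wo σ a * wo σ b := by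
  have h3 := wq_mul (prim_norm_odd ha) (prim_norm_odd hb)
  have h4 := xl_mul ha hb
  unfold wo
  rw [← pow_add]
  apply unit_pow_mod im1_norm
  rw [h3]
  have e : σ * (4 * (wq a * wq b) + (wq a + wq b)) + xl (a * b) =
      (σ * wq a + σ * wq b + xl (a * b)) + 4 * (σ * (wq a * wq b)) := by
    ring
  rw [e]
  omega

lemma wo_one (σ : ℕ) : wo σ 1 = 1 := by
  have h := wi_one σ
  unfold Pool.Agent.D0H43.Q4.wi at h
  unfold wo
  rw [xl_one, add_zero, h]

lemma wq_per {a b : ZI} (hab : (8 : ZI) ∣ a - b) : wq a % 4 = wq b % 4 := by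
  obtain ⟨t, ht⟩ := hab
  have e : a = b + 8 * t := by linear_combination ht
  have e1 : (8 : ZI).re = 8 := rfl
  have e2 : (8 : ZI).im = 0 := rfl
  have h1 : a.norm = b.norm + 16 * (b.re * t.re + b.im * t.im + 4 * (t.re ^ 2 + t.im ^ 2)) := by
    rw [e, norm_def', norm_def', Zsqrtd.re_add, Zsqrtd.im_add, re_mul', im_mul', e1, e2]
    ring
  have h2 := nrm_cast a
  have h3 := nrm_cast b
  unfold wq
  omega

lemma eight_dvd_f7 : (8 : ZI) ∣ f7 := ⟨⟨1, 1⟩, by decide⟩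

lemma wo_per (σ : ℕ) {a b : ZI} (ha : prim a) (hb : prim b) (hab : f7 ∣ a - b) : wo σ a = wo σ b := by
  have h1 := wq_per (eight_dvd_f7.trans hab)
  have h2 := xl_per ha hb hab
  unfold wo
  apply unit_pow_mod im1_norm
  rw [h2, Nat.add_mod, Nat.mul_mod, h1, ← Nat.mul_mod, ← Nat.add_mod]

end Pool.Agent.D0H43.Q4
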